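import Pool.Agent.helper17.DyS.Half

/-!
# A family of orders of cuts, and the number of members which lead to a given box
-/

set_option autoImplicit false
open scoped Classical
open Finset Pool.Agent.helper17.Dya

namespace Pool.Agent.helper17.DyS

/-- the order of the cuts: first the direction `2`, then `b` cuts in the direction `1`, then `a` cuts in the
direction `0` -/
def avgD (n a b : ℕ) : ℕ → Fin 3 := fun j => if j < n - a - b then 2 else if j < n - a then 1 else 0

lemma avg_shp0 {n a b m : ℕ} (h : m + a + b ≤ n) : shp (avgD n a b) n m 0 = a := by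
  unfold shp
  have : (Finset.Ico m n).filter (fun j => avgD n a b j = 0) = Finset.Ico (n - a) n := by
    ext j
    simp only [mem_filter, mem_Ico, avgD]
    constructor
    · rintro ⟨⟨h1, h2⟩, h3⟩
      by_cases hj : j < n - a - b
      · simp only [hj, if_true] at h3
        exact absurd h3 (by decide)
      · by_cases hj' : j < n - a
        · simp only [hj, hj', if_true, if_false] at h3
          exact absurd h3 (by decide)
        · omega
    · rintro ⟨h1, h2⟩
      have hj : ¬ j < n - a - b := by omega
      have hj' : ¬ j < n - a := by omega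
      simp only [hj, hj', if_false]
      exact ⟨⟨by omega, h2⟩, trivial⟩
  rw [this, Nat.card_Ico]
  omega

lemma avg_shp1 {n a b m : ℕ} (h : m + a + b ≤ n) : shp (avgD n a b) n m 1 = b := by
  unfold shp
  have : (Finset.Ico m n).filter (fun j => avgD n a b j = 1) = Finset.Ico (n - a - b) (n - a) := by
    ext j
    simp only [mem_filter, mem_Ico, avgD]
    constructor
    · rintro ⟨⟨h1, h2⟩, h3⟩
      by_cases hj : j < n - a - b
      · simp only [hj, if_true] at h3
        exact absurd h3 (by decide)
      · by_cases hj' : j < n - a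
        · omega
        · simp only [hj, hj', if_false] at h3
          exact absurd h3 (by decide)
    · rintro ⟨h1, h2⟩
      have hj : ¬ j < n - a - b := by omega
      simp only [hj, h2, if_false, if_true]
      exact ⟨⟨by omega, by omega⟩, trivial⟩
  rw [this, Nat.card_Ico]
  omega

lemma avg_shp2 {n a b m : ℕ} (h : m + a + b ≤ n) : shp (avgD n a b) n m 2 = n - a - b - m := by
  unfold shp
  have : (Finset.Ico m n).filter (fun j => avgD n a b j = 2) = Finset.Ico m (n - a - b) := by
    ext j
    simp only [mem_filter, mem_Ico, avgD]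
    constructor
    · rintro ⟨⟨h1, h2⟩, h3⟩
      by_cases hj : j < n - a - b
      · exact ⟨h1, hj⟩
      · by_cases hj' : j < n - a
        · simp only [hj, hj', if_true, if_false] at h3
          exact absurd h3 (by decide)
        · simp only [hj, hj', if_false] at h3
          exact absurd h3 (by decide)
    · rintro ⟨h1, h2⟩
      simp only [h2, if_true]
      exact ⟨⟨h1, by omega⟩, trivial⟩
  rw [this, Nat.card_Ico]

/-- at most `(m + 1) ^ 2` of the pairs `(a, b)` lead to a given box -/
lemma avg_count {n M m : ℕ} (hM : 3 * M < n + 3) (t : It n) :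
    ((range M ×ˢ range M).filter (fun q : ℕ × ℕ => ∀ i, shp (avgD n q.1 q.2) n m i ≤ t.1.1 i)).card ≤
      (m + 1) ^ 2 := by
  by_cases h : M ≤ m + 1
  · refine (card_filter_le _ _).trans ?_
    rw [card_product, card_range, sq]
    exact Nat.mul_le_mul h h
  · push Not at h
    have hsum : t.1.1 0 + t.1.1 1 + t.1.1 2 = n := by
      have := t.2.1
      rw [Fin.sum_univ_three] at this
      exact this
    have hmap : ∀ q ∈ (range M ×ˢ range M).filter (fun q : ℕ × ℕ => ∀ i, shp (avgD n q.1 q.2) n m i ≤ t.1.1 i),
        q.1 ≤ t.1.1 0 ∧ q.2 ≤ t.1.1 1 ∧ (t.1.1 0 - q.1) + (t.1.1 1 - q.2) ≤ m := by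
      rintro ⟨a, b⟩ hq
      rw [mem_filter, mem_product, mem_range, mem_range] at hq
      obtain ⟨⟨ha, hb⟩, h3⟩ := hq
      simp only at ha hb
      have hle : m + a + b ≤ n := by omega
      have e0 := h3 0
      have e1 := h3 1
      have e2 := h3 2
      simp only at e0 e1 e2
      rw [avg_shp0 hle] at e0
      rw [avg_shp1 hle] at e1
      rw [avg_shp2 hle] at e2
      refine ⟨e0, e1, ?_⟩
      simp only
      omega
    have hcard : (range (m + 1) ×ˢ range (m + 1)).card = (m + 1) ^ 2 := by
      rw [card_product, card_range, sq]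
    rw [← hcard]
    refine card_le_card_of_injOn (fun q => (t.1.1 0 - q.1, t.1.1 1 - q.2)) ?_ ?_
    · intro q hq
      obtain ⟨h1, h2, h3⟩ := hmap q (by simpa using hq)
      simp only [coe_product, coe_range, Set.mem_prod, Set.mem_Iio]
      omega
    · intro q hq q' hq' he
      obtain ⟨h1, h2, -⟩ := hmap q (by simpa using hq)
      obtain ⟨h1', h2', -⟩ := hmap q' (by simpa using hq')
      simp only [Prod.mk.injEq] at he
      obtain ⟨he1, he2⟩ := he
      exact Prod.ext (by omega) (by omega)

lemma avg_summable {c : ℝ} (hc : 0 < c) :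
    Summable (fun m : ℕ => ((m : ℝ) + 2) ^ 2 * Real.exp (-(c * m))) := by
  have h0 := Real.summable_pow_mul_exp_neg_nat_mul 0 hc
  have h1 := Real.summable_pow_mul_exp_neg_nat_mul 1 hc
  have h2 := Real.summable_pow_mul_exp_neg_nat_mul 2 hc
  have h3 := (h2.add (h1.mul_left 4)).add (h0.mul_left 4)
  refine h3.congr fun m => ?_
  have : -c * (m : ℝ) = -(c * m) := by ring
  rw [this]
  ring

end Pool.Agent.helper17.DyS
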