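import Pool.Agent.helper17.DyS.Half
import Pool.Agent.helper17.Dya.Main

/-!
# Comparison with the finite sum of the frozen statement; the values at `n = 0` and `p = 1`
-/

set_option autoImplicit false
open scoped Classical
open Finset Pool.Agent.helper17.Dya

namespace Pool.Agent.helper17.DyS

/-- the boxes of order `n` inside of the big index type -/
noncomputable def toBx (n : ℕ) (b : It n) : Bx n :=
  (fun i => ⟨b.1.1 i, Nat.lt_succ_of_le (b.2.le i)⟩, fun i => ⟨b.1.2 i, b.2.lt i⟩)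

lemma toBx_inj (n : ℕ) : Function.Injective (toBx n) := by
  intro b b' h
  unfold toBx at h
  simp only [Prod.mk.injEq] at h
  refine Subtype.ext (Prod.ext (funext fun i => ?_) (funext fun i => ?_))
  · exact congrArg Fin.val (congrFun h.1 i)
  · exact congrArg Fin.val (congrFun h.2 i)

lemma toBx_mem (n : ℕ) (b : It n) : toBx n b ∈ boxes n :=
  mem_filter.2 ⟨mem_univ _, b.2.1, b.2.2⟩

lemma exists_toBx {n : ℕ} {B : Bx n} (h : B ∈ boxes n) : ∃ b : It n, toBx n b = B := by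
  obtain ⟨-, h1, h2⟩ := mem_filter.1 h
  exact ⟨⟨(fun i => (B.1 i : ℕ), fun i => (B.2 i : ℕ)), h1, h2⟩, rfl⟩

lemma Sb_cube {n : ℕ} (b : It n) : Sb b.1 cube := fun i =>
  ⟨Nat.zero_le _, by
    have : b.1.2 i / 2 ^ (b.1.1 i - 0) = 0 := Nat.div_eq_of_lt (by simpa using b.2.2 i)
    exact this⟩

lemma tiles_iff {n : ℕ} (ω : Bx n → Bool) :
    (∃ R ⊆ (boxes n).filter (fun i => ω i = true), Tiles R) ↔
      Al n cube fun b => ω (toBx n b) := by
  constructor
  · rintro ⟨R, hR, hT⟩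
    refine ⟨{b | toBx n b ∈ R}, fun b hb => ⟨(mem_filter.1 (hR hb)).2, Sb_cube b⟩, ?_⟩
    intro x hx _
    obtain ⟨B, ⟨hB, hc⟩, hu⟩ := hT fun i => ⟨x i, hx i⟩
    obtain ⟨b, rfl⟩ := exists_toBx (mem_filter.1 (hR hB)).1
    refine ⟨b, ⟨hB, hc⟩, ?_⟩
    rintro b' ⟨hb', hc'⟩
    exact toBx_inj n (hu (toBx n b') ⟨hb', hc'⟩)
  · rintro ⟨R, h1, h2⟩
    refine ⟨(univ.filter fun b => b ∈ R).image (toBx n), ?_, ?_⟩
    · intro B hB
      obtain ⟨b, hb, rfl⟩ := mem_image.1 hB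
      exact mem_filter.2 ⟨toBx_mem n b, (h1 b (mem_filter.1 hb).2).1⟩
    · intro c
      obtain ⟨b, ⟨hb, hc⟩, hu⟩ := h2 (fun i => (c i : ℕ)) (fun i => (c i).2)
        (fun i => by
          have : (c i : ℕ) / 2 ^ (n - 0) = 0 := Nat.div_eq_of_lt (by simp)
          exact this)
      refine ⟨toBx n b, ⟨mem_image.2 ⟨b, mem_filter.2 ⟨mem_univ _, hb⟩, rfl⟩, hc⟩, ?_⟩
      rintro B ⟨hB, hc'⟩
      obtain ⟨b', hb', rfl⟩ := mem_image.1 hB
      exact congrArg (toBx n) (hu b' ⟨(mem_filter.1 hb').2, hc'⟩)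

theorem T_eq_Dya (n : ℕ) (p : ℝ) : T n p = Pool.Agent.helper17.Dya.T n p := by
  rw [Pool.Agent.helper17.Dya.T_eq, T,
    ← Pr_comp (p := p) (toBx n) (toBx_inj n) (Al n cube)]
  exact Pr_congr fun ω => (tiles_iff ω).symm

lemma It_zero_eq (b b' : It 0) : b = b' := by
  have key : ∀ c : It 0, c.1 = 0 := by
    intro c
    have h1 : ∀ i, c.1.1 i = 0 := fun i => Nat.le_zero.1 (c.2.le i)
    refine Prod.ext (funext fun i => h1 i) (funext fun i => ?_)
    have := c.2.2 i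
    rw [h1 i, pow_zero, Nat.lt_one_iff] at this
    exact this
  exact Subtype.ext ((key b).trans (key b').symm)

theorem T_zero (p : ℝ) : T 0 p = p := by
  have hV : Vl 0 ((0, 0) : Tl) := ⟨by simp, fun i => by simp⟩
  let b0 : It 0 := ⟨(0, 0), hV⟩
  refine Eq.trans ?_ (Pr_coord (p := p) b0)
  refine Pr_congr (ι := It 0) fun ω => ⟨?_, fun h => ?_⟩
  · rintro ⟨R, h1, h2⟩
    obtain ⟨b, ⟨hb, -⟩, -⟩ := h2 0 (fun i => by norm_num) (fun i => by simp [cube])
    rw [It_zero_eq b0 b]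
    exact (h1 b hb).1
  · refine ⟨{b0}, ?_, ?_⟩
    · rintro b rfl
      exact ⟨h, Sb_cube b0⟩
    · intro x hx _
      refine ⟨b0, ⟨rfl, fun i => ?_⟩, fun b _ => It_zero_eq b b0⟩
      have := hx i
      rw [pow_zero, Nat.lt_one_iff] at this
      rw [this]
      exact Nat.zero_div _

/-- the box of the orders `(n, 0, 0)` at the position `a` -/
def slab (n a : ℕ) (ha : a < 2 ^ n) : It n :=
  ⟨(![n, 0, 0], ![a, 0, 0]), by
    refine ⟨by simp [Fin.sum_univ_three], fun i => ?_⟩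
    fin_cases i
    · exact ha
    · exact Nat.one_pos
    · exact Nat.one_pos⟩

theorem T_one (n : ℕ) : T n 1 = 1 := by
  refine le_antisymm (Pr_le_one zero_le_one le_rfl _) ?_
  have h1 : Pr (1 : ℝ) (fun ω : It n → Bool => ∀ i ∈ (univ : Finset (It n)), ω i = true) = 1 := by
    rw [Pr_cyl (p := 1) (univ : Finset (It n)) (fun _ => true)]
    exact prod_eq_one fun _ _ => rfl
  refine h1.symm.le.trans ?_
  refine Pr_mono (ι := It n) zero_le_one le_rfl fun ω hω => ?_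
  refine ⟨{b | b.1.1 1 = 0 ∧ b.1.1 2 = 0}, fun b _ => ⟨hω b (mem_univ b), Sb_cube b⟩, ?_⟩
  intro x hx _
  refine ⟨slab n (x 0) (hx 0), ⟨⟨rfl, rfl⟩, fun i => ?_⟩, ?_⟩
  · fin_cases i
    · have : x 0 / 2 ^ (n - n) = x 0 := by rw [Nat.sub_self, pow_zero, Nat.div_one]
      exact this
    · have : x 1 / 2 ^ (n - 0) = 0 := Nat.div_eq_of_lt (by simpa using hx 1)
      exact this
    · have : x 2 / 2 ^ (n - 0) = 0 := Nat.div_eq_of_lt (by simpa using hx 2)
      exact this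
  · rintro b ⟨⟨e1, e2⟩, hc⟩
    have hs := b.2.1
    rw [Fin.sum_univ_three, e1, e2, add_zero, add_zero] at hs
    have c0 := hc 0
    have c1 := hc 1
    have c2 := hc 2
    rw [hs, Nat.sub_self, pow_zero, Nat.div_one] at c0
    rw [e1, Nat.sub_zero, Nat.div_eq_of_lt (hx 1)] at c1
    rw [e2, Nat.sub_zero, Nat.div_eq_of_lt (hx 2)] at c2
    refine Subtype.ext (Prod.ext (funext fun i => ?_) (funext fun i => ?_))
    · fin_cases i
      · exact hs
      · exact e1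
      · exact e2
    · fin_cases i
      · exact c0.symm
      · exact c1.symm
      · exact c2.symm

end Pool.Agent.helper17.DyS
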