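import Pool.Agent.helper17.DyS.Half

/-!
# The lower bound for the probability that there is no tiling
-/

set_option autoImplicit false
open scoped Classical
open Finset Pool.Agent.helper17.Dya

namespace Pool.Agent.helper17.DyS

/-- the boxes containing the cell `0` -/
noncomputable def corner (n : ℕ) : Finset (It n) := univ.filter fun b => b.1.2 = 0

lemma corner_card (n : ℕ) : (corner n).card ≤ (n + 1) ^ 2 := by
  have h : (corner n).card ≤ (range (n + 1) ×ˢ range (n + 1)).card := by
    refine card_le_card_of_injOn (fun b => (b.1.1 0, b.1.1 1)) ?_ ?_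
    · intro b _
      simp only [coe_product, coe_range, Set.mem_prod, Set.mem_Iio]
      exact ⟨Nat.lt_succ_of_le (b.2.le 0), Nat.lt_succ_of_le (b.2.le 1)⟩
    · intro b hb b' hb' h
      have hb1 : b.1.2 = 0 := (mem_filter.1 (mem_coe.1 hb)).2
      have hb2 : b'.1.2 = 0 := (mem_filter.1 (mem_coe.1 hb')).2
      simp only [Prod.mk.injEq] at h
      have s1 := b.2.1
      have s2 := b'.2.1
      rw [Fin.sum_univ_three] at s1 s2
      refine Subtype.ext (Prod.ext (funext fun i => ?_) (hb1.trans hb2.symm))
      have e0 := h.1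
      have e1 := h.2
      have e2 : b.1.1 2 = b'.1.1 2 := by omega
      fin_cases i
      · exact e0
      · exact e1
      · exact e2
  rw [card_product, card_range] at h
  rw [pow_two]
  exact h

lemma not_Al_of_corner {n : ℕ} {ω : It n → Bool} (h : ∀ b ∈ corner n, ω b = false) :
    ¬ Al n cube ω := by
  rintro ⟨R, h1, h2⟩
  obtain ⟨b, ⟨hb, hc⟩, -⟩ := h2 0 (fun i => Nat.pos_of_ne_zero (pow_ne_zero _ (by norm_num)))
    (fun i => by simp [cube])
  have hb0 : b.1.2 = 0 := by
    funext i
    have := hc i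
    simpa using this.symm
  have h3 := h b (mem_filter.2 ⟨mem_univ _, hb0⟩)
  rw [(h1 b hb).1] at h3
  exact Bool.noConfusion h3

theorem T_lower {n : ℕ} {p : ℝ} (h0 : 0 ≤ p) (h1 : p ≤ 1) :
    (1 - p) ^ ((n + 1) ^ 2) ≤ 1 - T n p := by
  have h2 : Pr p (fun ω : It n → Bool => ∀ b ∈ corner n, ω b = false) =
      (1 - p) ^ (corner n).card := by
    rw [Pr_cyl (p := p) (corner n) (fun _ => false), prod_const]
    rfl
  have h3 : Pr p (fun ω : It n → Bool => ∀ b ∈ corner n, ω b = false) ≤ 1 - T n p := by
    rw [T, ← Pr_not]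
    exact Pr_mono h0 h1 fun ω hω => not_Al_of_corner hω
  rw [h2] at h3
  exact (pow_le_pow_of_le_one (by linarith) (by linarith) (corner_card n)).trans h3

end Pool.Agent.helper17.DyS
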