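import Pool.Agent.helper17.DyS.Slabs

/-!
# The three halvings of the cube
-/

set_option autoImplicit false
open scoped Classical
open Finset Pool.Agent.helper17.Dya Filter Topology

namespace Pool.Agent.helper17.DyS

lemma One_Al_self {n : ℕ} (b : It n) {ω : It n → Bool} (h : ω b = true) : Al n b.1 ω := by
  refine ⟨{b}, ?_, ?_⟩
  · rintro b' hb'
    rw [Set.mem_singleton_iff] at hb'
    subst hb'
    exact ⟨h, Sb.refl _⟩
  · intro x _ hx
    refine ⟨b, ⟨rfl, hx⟩, ?_⟩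
    rintro b' ⟨hb', -⟩
    exact hb'

lemma One_Vl (i : Fin 3) {e : ℕ} (he : e < 2) : Vl 1 (ch cube i e) := Vl_ch Vl_cube i he

/-- the half of the cube -/
def One_hf (i : Fin 3) (e : ℕ) (he : e < 2) : It 1 := ⟨ch cube i e, One_Vl i he⟩

lemma One_hf_inj {i i' : Fin 3} {e e' : ℕ} {he : e < 2} {he' : e' < 2}
    (h : One_hf i e he = One_hf i' e' he') : i = i' ∧ e = e' := by
  have h1 : ch cube i e = ch cube i' e' := congrArg Subtype.val h
  have h2 : i = i' := by
    have h3 := congrFun (congrArg Prod.fst h1) i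
    unfold ch cube at h3
    simp only [if_true, Pi.zero_apply] at h3
    by_contra hne
    rw [if_neg hne] at h3
    omega
  subst h2
  refine ⟨rfl, ?_⟩
  have h3 := congrFun (congrArg Prod.snd h1) i
  unfold ch cube at h3
  simpa using h3

/-- both halves in the direction `i` are available -/
def One_E (i : Fin 3) (ω : It 1 → Bool) : Prop :=
  ω (One_hf i 0 (by norm_num)) = true ∧ ω (One_hf i 1 (by norm_num)) = true

lemma One_E_dep (i : Fin 3) : Dep {b : It 1 | ∃ e, ∃ he : e < 2, b = One_hf i e he} (One_E i) := by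
  intro ω ω' h
  unfold One_E
  rw [h _ ⟨0, by norm_num, rfl⟩, h _ ⟨1, by norm_num, rfl⟩]

lemma One_Pr_E {p : ℝ} (i : Fin 3) : Pr p (One_E i) = p ^ 2 := by
  have hne : One_hf i 0 (by norm_num) ≠ One_hf i 1 (by norm_num) := by
    intro h
    have := (One_hf_inj h).2
    omega
  have h := Pr_and (p := p) (A := {One_hf i 0 (by norm_num)}) (B := {One_hf i 1 (by norm_num)})
    (E := fun ω => ω (One_hf i 0 (by norm_num)) = true)
    (F := fun ω => ω (One_hf i 1 (by norm_num)) = true)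
    (fun ω ω' h => by
      show ω _ = true ↔ ω' _ = true
      rw [h _ rfl]) (fun ω ω' h => by
      show ω _ = true ↔ ω' _ = true
      rw [h _ rfl]) (by
      intro j hj hj'
      rw [Set.mem_singleton_iff] at hj hj'
      exact hne (hj.symm.trans hj'))
  rw [Pr_coord, Pr_coord] at h
  rw [sq]
  exact h

lemma One_le {p : ℝ} (h0 : 0 ≤ p) (h1 : p ≤ 1) : 1 - T 1 p ≤ (1 - p ^ 2) ^ 3 := by
  have hA : ∀ (i : Fin 3) (ω : It 1 → Bool), One_E i ω → Al 1 cube ω := by
    intro i ω h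
    refine Al_split i (by simp [cube]) ?_ ?_
    · exact One_Al_self (One_hf i 0 (by norm_num)) h.1
    · exact One_Al_self (One_hf i 1 (by norm_num)) h.2
  have h2 : 1 - T 1 p ≤ Pr p (fun ω => ¬ One_E 0 ω ∧ (¬ One_E 1 ω ∧ ¬ One_E 2 ω)) := by
    have e1 : 1 - T 1 p = Pr p (fun ω => ¬ Al 1 cube ω) := (Pr_not _).symm
    rw [e1]
    exact Pr_mono h0 h1 fun ω hω => ⟨fun h => hω (hA 0 ω h), fun h => hω (hA 1 ω h),
      fun h => hω (hA 2 ω h)⟩
  refine h2.trans (le_of_eq ?_)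
  have hd : ∀ i j : Fin 3, i ≠ j → ∀ b ∈ {b : It 1 | ∃ e, ∃ he : e < 2, b = One_hf i e he},
      b ∉ {b : It 1 | ∃ e, ∃ he : e < 2, b = One_hf j e he} := by
    rintro i j hij b ⟨e, he, hb⟩ ⟨e', he', hb'⟩
    rw [hb] at hb'
    exact hij (One_hf_inj hb').1
  rw [Pr_and (One_E_dep 0).not (((One_E_dep 1).not.mono (Set.subset_union_left)).and
    ((One_E_dep 2).not.mono (Set.subset_union_right))) (by
      rintro b hb (hb' | hb')
      · exact hd 0 1 (by decide) b hb hb'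
      · exact hd 0 2 (by decide) b hb hb'),
    Pr_and (One_E_dep 1).not (One_E_dep 2).not (hd 1 2 (by decide)), Pr_not, Pr_not, Pr_not,
    One_Pr_E, One_Pr_E, One_Pr_E]
  ring

lemma One_tends {p : ℝ} (h1 : p ≤ 1) (h : √3 / 2 < p) :
    Tendsto (fun n => T n p) atTop (nhds 1) := by
  have h3 : 0 ≤ √3 / 2 := by positivity
  have h0 : 0 ≤ p := by linarith
  refine tends_one (k := 1) h0 h1 (lt_of_le_of_lt (One_le h0 h1) ?_)
  have h4 : 3 / 4 < p ^ 2 := by
    have e1 : (√3 / 2) ^ 2 < p ^ 2 := pow_lt_pow_left₀ h h3 (by norm_num)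
    rw [div_pow, Real.sq_sqrt (by norm_num)] at e1
    norm_num at e1 ⊢
    exact e1
  have h5 : 0 ≤ 1 - p ^ 2 := by nlinarith
  have h6 : 1 - p ^ 2 < 1 / 4 := by linarith
  calc (1 - p ^ 2) ^ 3 < (1 / 4) ^ 3 := pow_lt_pow_left₀ h6 h5 (by norm_num)
    _ = (1 / 8) ^ (1 + 1) := by norm_num

end Pool.Agent.helper17.DyS
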