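import Pool.Agent.helper17.DyS.Sharp
import Pool.Agent.helper17.DyS.One
import Pool.Agent.helper17.DyS.Lower
import Pool.Agent.helper17.DyS.Frozen

/-!
# The critical point
-/

set_option autoImplicit false
open scoped Classical
open Finset Pool.Agent.helper17.Dya Filter Topology

namespace Pool.Agent.helper17.DyS

theorem super {p q : ℝ} (hp : 0 < p) (hpq : p < q) (hq : q < 1)
    (ht : Tendsto (fun n => T n p) atTop (nhds 1)) :
    ∃ c : ℝ, 0 < c ∧ ∃ N : ℕ, ∀ n : ℕ, N ≤ n → 1 - T n q ≤ Real.exp (-(c * (n : ℝ) ^ 2)) := by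
  obtain ⟨c, hc, h⟩ := win2 hp hpq hq
  have h1 : ∀ᶠ n in atTop, 1 / 2 < T n p := ht.eventually (lt_mem_nhds (by norm_num))
  obtain ⟨k0, hk0⟩ := eventually_atTop.1 h1
  have hk : (0 : ℝ) < ((k0 + 1 : ℕ) : ℝ) := by positivity
  refine ⟨c / ((k0 + 1 : ℕ) : ℝ) ^ 2, by positivity, k0 + 1, fun n hn => ?_⟩
  have h2 := h (k0 + 1) n (by omega) hn fun m hm _ => (hk0 m (by omega)).le
  refine h2.trans (le_of_eq ?_)
  congr 2
  field_simp

lemma halving {p : ℝ} (h0 : 0 ≤ p) (h1 : p ≤ 1) {j n : ℕ} (h : j ≤ n) :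
    1 - T n p ≤ 2 ^ (n - j) * (1 - T j p) := by
  induction n, h using Nat.le_induction with
  | base => simp
  | succ n hn ih =>
    have h2 := T_succ (n := n) h0 h1
    have h3 := T_le_one (n := n) h0 h1
    rw [show n + 1 - j = n - j + 1 by omega, pow_succ]
    nlinarith

lemma eighth (n : ℕ) : ((1 : ℝ) / 8) ^ (n + 1) = Real.exp (-((n + 1) * Real.log 8)) := by
  rw [show -(((n : ℝ) + 1) * Real.log 8) = ((n + 1 : ℕ) : ℝ) * (-Real.log 8) by push_cast; ring,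
    Real.exp_nat_mul, Real.exp_neg, Real.exp_log (by norm_num)]
  norm_num

theorem window {p q : ℝ} (h0 : 0 ≤ p) (hpq : p < q) (hq : q < 1)
    (hn : ¬ Tendsto (fun n => T n q) atTop (nhds 1)) :
    ∃ K : ℕ, ∃ c : ℝ, 0 < c ∧ c ≤ 1 ∧ ∃ N : ℕ, ∀ k : ℕ, N ≤ k → ∃ n : ℕ, k ≤ n ∧ n ≤ K * k ∧
      ∀ j : ℕ, (1 - c) * n ≤ j → j ≤ n → T j p ≤ Real.exp (-(c * j)) := by
  -- intermediate densities
  set p1 : ℝ := (2 * p + q) / 3 with hp1
  set p2 : ℝ := (p + 2 * q) / 3 with hp2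
  have e1 : 0 < p1 := by rw [hp1]; linarith
  have e2 : p < p1 := by rw [hp1]; linarith
  have e3 : p1 < p2 := by rw [hp1, hp2]; linarith
  have e4 : p2 < q := by rw [hp2]; linarith
  set r : ℝ := max p (p1 / 2) with hr
  have e5 : r < p1 := max_lt e2 (by linarith)
  have e6 : p1 / 2 ≤ r := le_max_right _ _
  have e7 : p ≤ r := le_max_left _ _
  set a : ℝ := min (min (p1 / 2) (1 - q)) (1 / 2) with ha
  have a0 : 0 < a := lt_min (lt_min (by linarith) (by linarith)) (by norm_num)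
  have a1 : a ≤ p1 / 2 := (min_le_left _ _).trans (min_le_left _ _)
  have a2 : a ≤ 1 - q := (min_le_left _ _).trans (min_le_right _ _)
  obtain ⟨c1, hc1, hg, hd⟩ := win1 a0 (min_le_right _ _)
  obtain ⟨c2, hc2, hwK⟩ := win3 (lt_trans e1 e3) e4 hq
  set c3 : ℝ := c1 * (p2 - p1) with hc3
  have c3p : 0 < c3 := mul_pos hc1 (by linarith)
  set c4 : ℝ := c1 * (p1 - r) with hc4
  have c4p : 0 < c4 := mul_pos hc1 (by linarith)
  have hl8 : 0 < Real.log 8 := Real.log_pos (by norm_num)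
  have hl2 : Real.log 2 < 1 := by
    have := Real.log_two_lt_d9
    linarith
  have hl2' : 0 < Real.log 2 := Real.log_pos (by norm_num)
  obtain ⟨k1, hw⟩ := hwK (⌈2 * Real.log 8 / c2⌉₊ + 1)
  refine ⟨⌈2 * Real.log 8 / c2⌉₊ + 1, min (1 / 2) (min (c3 / 4) c4),
    lt_min (by norm_num) (lt_min (by linarith) c4p), (min_le_left _ _).trans (by norm_num),
    max k1 (⌈4 / c3⌉₊ + 1), fun k hk' => ?_⟩
  have hk : ⌈4 / c3⌉₊ + 1 ≤ k := (le_max_right _ _).trans hk'
  have hkk : k1 ≤ k := (le_max_left _ _).trans hk'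
  set K : ℕ := ⌈2 * Real.log 8 / c2⌉₊ + 1 with hK
  have hK1 : 2 * Real.log 8 < c2 * K := by
    have h1 : 2 * Real.log 8 / c2 < K := by
      rw [hK]
      push_cast
      have := Nat.le_ceil (2 * Real.log 8 / c2)
      linarith
    rw [div_lt_iff₀ hc2] at h1
    linarith
  have hk1 : 1 ≤ k := by omega
  have hk3 : 4 / c3 < k := by
    have h1 := Nat.le_ceil (4 / c3)
    have h2 : ((⌈4 / c3⌉₊ + 1 : ℕ) : ℝ) ≤ k := by exact_mod_cast hk
    push_cast at h2
    linarith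
  have hkK : k ≤ K * k := by
    have : 1 ≤ K := by omega
    calc k = 1 * k := by ring
      _ ≤ K * k := Nat.mul_le_mul_right k this
  -- a bad scale in the window
  have hbad : ∃ n, k ≤ n ∧ n ≤ K * k ∧ T n p2 < 1 / 2 := by
    by_contra hcon
    push Not at hcon
    apply hn
    have h1 := hw k (K * k) hkk hkK (le_refl _) hcon
    apply tends_one (k := K * k) (by linarith) hq.le
    refine lt_of_le_of_lt h1 ?_
    rw [eighth, Real.exp_lt_exp, neg_lt_neg_iff]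
    have hk0 : (0 : ℝ) < k := by exact_mod_cast hk1
    have h2 : c2 * (((K * k : ℕ) : ℝ) ^ 2 / (k : ℝ)) = c2 * K * (K * k : ℕ) := by
      push_cast
      field_simp
    rw [h2]
    have h3 : (1 : ℝ) ≤ ((K * k : ℕ) : ℝ) := by exact_mod_cast hk1.trans hkK
    nlinarith
  obtain ⟨n, hn1, hn2, hn3⟩ := hbad
  refine ⟨n, hn1, hn2, fun j hj1 hj2 => ?_⟩
  have hmin1 : min (1 / 2 : ℝ) (min (c3 / 4) c4) ≤ 1 / 2 := min_le_left _ _
  have hmin2 : min (1 / 2 : ℝ) (min (c3 / 4) c4) ≤ c3 / 4 :=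
    (min_le_right _ _).trans (min_le_left _ _)
  have hmin3 : min (1 / 2 : ℝ) (min (c3 / 4) c4) ≤ c4 :=
    (min_le_right _ _).trans (min_le_right _ _)
  set c : ℝ := min (1 / 2 : ℝ) (min (c3 / 4) c4) with hc
  have hn0 : 4 / c3 < n := lt_of_lt_of_le hk3 (by exact_mod_cast hn1)
  have hn4 : 4 < c3 * n := by
    rw [div_lt_iff₀ c3p] at hn0
    linarith
  have hnpos : (0 : ℝ) < n := lt_trans (by positivity) hn0
  -- the scale `j` is bad at the density `p1`
  have hj3 : T j p1 < 1 / 2 := by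
    by_contra hcon
    push Not at hcon
    have h1 := hg j p1 p2 (by linarith) e3.le (by linarith) hcon
    have h2 := halving (p := p2) (by linarith) (by linarith) hj2
    have h3 : 1 / 2 < 2 ^ (n - j) * Real.exp (-(c3 * j)) := by
      calc (1 : ℝ) / 2 < 1 - T n p2 := by linarith
        _ ≤ 2 ^ (n - j) * (1 - T j p2) := h2
        _ ≤ _ := mul_le_mul_of_nonneg_left h1 (by positivity)
    have h4 : (2 : ℝ) ^ (n - j) = Real.exp ((n - j) * Real.log 2) := by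
      rw [← Nat.cast_sub hj2, Real.exp_nat_mul, Real.exp_log (by norm_num)]
    have h5 : (1 : ℝ) / 2 = Real.exp (-Real.log 2) := by
      rw [Real.exp_neg, Real.exp_log (by norm_num)]
      norm_num
    rw [h4, h5, ← Real.exp_add, Real.exp_lt_exp] at h3
    have h6 : (n : ℝ) - j ≤ c * n := by linarith
    have h10 : (0 : ℝ) ≤ n - j := by
      have : (j : ℝ) ≤ n := by exact_mod_cast hj2
      linarith
    have h7 : (n : ℝ) / 2 ≤ j := by
      have := mul_le_mul_of_nonneg_right hmin1 hnpos.le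
      linarith
    have h9 : (n : ℝ) - j ≤ c3 / 4 * n := h6.trans (mul_le_mul_of_nonneg_right hmin2 hnpos.le)
    have h8 : ((n : ℝ) - j) * Real.log 2 ≤ c3 / 4 * n :=
      (mul_le_of_le_one_right h10 hl2.le).trans h9
    have h11 : c3 * (n / 2) ≤ c3 * j := mul_le_mul_of_nonneg_left h7 c3p.le
    linarith
  have h1 := hd j r p1 (by linarith) e5.le (by linarith) hj3.le
  have h2 : T j p ≤ T j r := T_mono h0 e7 (by linarith)
  refine (h2.trans h1).trans (Real.exp_le_exp.2 (neg_le_neg ?_))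
  exact mul_le_mul_of_nonneg_right hmin3 (Nat.cast_nonneg j)

/-- the critical point -/
noncomputable def pc : ℝ :=
  sInf {p : ℝ | 0 ≤ p ∧ p ≤ 1 ∧ Tendsto (fun n => T n p) atTop (nhds 1)}

lemma bdd : BddBelow {p : ℝ | 0 ≤ p ∧ p ≤ 1 ∧ Tendsto (fun n => T n p) atTop (nhds 1)} :=
  ⟨0, fun _ h => h.1⟩

lemma pc_le {p : ℝ} (h0 : 0 ≤ p) (h1 : p ≤ 1) (h : Tendsto (fun n => T n p) atTop (nhds 1)) :
    pc ≤ p := csInf_le bdd ⟨h0, h1, h⟩

lemma one_mem : (1 : ℝ) ∈ {p : ℝ | 0 ≤ p ∧ p ≤ 1 ∧ Tendsto (fun n => T n p) atTop (nhds 1)} := by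
  refine ⟨by norm_num, le_refl _, ?_⟩
  simp only [T_one]
  exact tendsto_const_nhds

lemma le_pc : (5 : ℝ) / 32 ≤ pc := by
  refine le_csInf ⟨1, one_mem⟩ ?_
  rintro p ⟨h0, h1, h⟩
  by_contra hcon
  push Not at hcon
  have h2 := Pool.Agent.helper17.Dya.main h0 hcon.le
  have h3 : Tendsto (fun n => T n p) atTop (nhds 0) := by
    refine h2.congr fun n => ?_
    rw [T_eq_Dya]
  exact zero_ne_one (tendsto_nhds_unique h3 h)

lemma sqrt_three : √3 / 2 < 7 / 8 := by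
  have h : √3 < 7 / 4 := by
    rw [Real.sqrt_lt' (by norm_num)]
    norm_num
  linarith

lemma pc_le_sqrt : pc ≤ √3 / 2 := by
  refine le_of_forall_gt_imp_ge_of_dense fun p hp => ?_
  by_cases h1 : p ≤ 1
  · have h3 : 0 ≤ √3 / 2 := by positivity
    exact pc_le (by linarith) h1 (One_tends h1 hp)
  · push Not at h1
    exact (pc_le (by norm_num) (le_refl _) one_mem.2.2).trans h1.le

lemma pc_le_seven : pc ≤ 7 / 8 := pc_le_sqrt.trans sqrt_three.le

lemma exists_of_pc_lt {p : ℝ} (h : pc < p) : ∃ s, 0 < s ∧ s < p ∧ s ≤ 1 ∧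
    Tendsto (fun n => T n s) atTop (nhds 1) := by
  obtain ⟨s, hs, hsp⟩ := exists_lt_of_csInf_lt ⟨1, one_mem⟩ h
  refine ⟨s, ?_, hsp, hs.2.1, hs.2.2⟩
  have h1 := pc_le hs.1 hs.2.1 hs.2.2
  have h2 := le_pc
  linarith

theorem above {p : ℝ} (hp : pc < p) (h1 : p < 1) : ∃ c C : ℝ, 0 < c ∧ 0 < C ∧ ∃ N : ℕ,
    ∀ n : ℕ, N ≤ n → Real.exp (-(C * (n : ℝ) ^ 2)) ≤ 1 - T n p ∧
      1 - T n p ≤ Real.exp (-(c * (n : ℝ) ^ 2)) := by
  obtain ⟨s, hs0, hsp, hs1, hs⟩ := exists_of_pc_lt hp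
  obtain ⟨c, hc, N, hN⟩ := super hs0 hsp h1 hs
  have hp0 : 0 < p := hs0.trans hsp
  have hl : Real.log (1 - p) < 0 := Real.log_neg (by linarith) (by linarith)
  refine ⟨c, 4 * (-Real.log (1 - p)), hc, by linarith, max N 1, fun n hn => ⟨?_, ?_⟩⟩
  · refine le_trans ?_ (T_lower (n := n) hp0.le h1.le)
    have h2 : (1 - p) ^ ((n + 1) ^ 2) = Real.exp (((n : ℝ) + 1) ^ 2 * Real.log (1 - p)) := by
      have := Real.exp_nat_mul (Real.log (1 - p)) ((n + 1) ^ 2)
      rw [Real.exp_log (by linarith)] at this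
      rw [← this]
      push_cast
      rfl
    rw [h2, Real.exp_le_exp]
    have h3 : (1 : ℝ) ≤ n := by exact_mod_cast (le_max_right N 1).trans hn
    nlinarith [mul_nonneg (by nlinarith : (0 : ℝ) ≤ 4 * (n : ℝ) ^ 2 - ((n : ℝ) + 1) ^ 2)
      (by linarith : 0 ≤ -Real.log (1 - p))]
  · exact hN n ((le_max_left N 1).trans hn)

theorem below {p : ℝ} (h0 : 0 ≤ p) (hp : p < pc) :
    ∃ K : ℕ, ∃ c : ℝ, 0 < c ∧ c ≤ 1 ∧ ∃ N : ℕ, ∀ k : ℕ, N ≤ k → ∃ n : ℕ, k ≤ n ∧ n ≤ K * k ∧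
      ∀ j : ℕ, (1 - c) * n ≤ j → j ≤ n → T j p ≤ Real.exp (-(c * j)) := by
  have h7 := pc_le_seven
  refine window (q := (p + pc) / 2) h0 (by linarith) (by linarith) fun h => ?_
  have := pc_le (by linarith) (by linarith) h
  linarith

/-- below the critical point the probability is small for a set of scales of positive lower
density -/
theorem density {p : ℝ} (h0 : 0 ≤ p) (hp : p < pc) : ∃ c : ℝ, 0 < c ∧ ∃ N : ℕ, ∀ M : ℕ, N ≤ M →
    c * M ≤ (((range M).filter fun n => T n p ≤ Real.exp (-(c * n))).card : ℝ) := by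
  obtain ⟨K, c, hc, hc1, N, h⟩ := below h0 hp
  have hK : 1 ≤ K := by
    obtain ⟨n, h1, h2, -⟩ := h (N + 1) (by omega)
    rcases Nat.eq_zero_or_pos K with h3 | h3
    · rw [h3, zero_mul] at h2
      omega
    · exact h3
  have hK0 : (0 : ℝ) < K := by exact_mod_cast hK
  refine ⟨c / (2 * K), by positivity, K * (N + 2) + 1, fun M hM => ?_⟩
  have hcK : c / (2 * K) ≤ c := by
    have : (1 : ℝ) ≤ K := by exact_mod_cast hK
    exact div_le_self hc.le (by linarith)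
  set k : ℕ := (M - 1) / K with hk
  have hk1 : N + 2 ≤ k := by
    rw [hk, Nat.le_div_iff_mul_le (by omega)]
    have : (N + 2) * K = K * (N + 2) := by ring
    omega
  have hk2 : K * k ≤ M - 1 := Nat.mul_div_le (M - 1) K
  have hk3 : M ≤ K * (k + 1) := by
    have := Nat.lt_mul_div_succ (M - 1) (show 0 < K by omega)
    rw [← hk] at this
    omega
  have hk4 : (M : ℝ) / (2 * K) ≤ k := by
    rw [div_le_iff₀ (by positivity)]
    have e1 : (M : ℝ) ≤ K * (k + 1) := by exact_mod_cast hk3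
    have e2 : (2 : ℝ) ≤ k := by
      have : 2 ≤ k := by omega
      exact_mod_cast this
    nlinarith
  obtain ⟨n, hn1, hn2, hn3⟩ := h k (by omega)
  have hsub : Finset.Icc ⌈(1 - c) * n⌉₊ n ⊆
      (range M).filter fun j => T j p ≤ Real.exp (-(c / (2 * K) * j)) := by
    intro j hj
    rw [mem_Icc] at hj
    rw [mem_filter, mem_range]
    have e1 : (1 - c) * n ≤ j := (Nat.le_ceil _).trans (by exact_mod_cast hj.1)
    refine ⟨by omega, (hn3 j e1 hj.2).trans ?_⟩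
    rw [Real.exp_le_exp, neg_le_neg_iff]
    exact mul_le_mul_of_nonneg_right hcK (Nat.cast_nonneg j)
  have hcard := card_le_card hsub
  rw [Nat.card_Icc] at hcard
  have e1 : ((⌈(1 - c) * n⌉₊ : ℕ) : ℝ) < (1 - c) * n + 1 :=
    Nat.ceil_lt_add_one (mul_nonneg (by linarith) (Nat.cast_nonneg n))
  have e2 : c * n ≤ ((n + 1 - ⌈(1 - c) * n⌉₊ : ℕ) : ℝ) := by
    have e3 : ⌈(1 - c) * n⌉₊ ≤ n + 1 := by
      have : ((⌈(1 - c) * n⌉₊ : ℕ) : ℝ) ≤ ((n + 1 : ℕ) : ℝ) := by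
        push_cast
        have := mul_nonneg hc.le (Nat.cast_nonneg (α := ℝ) n)
        nlinarith
      exact_mod_cast this
    rw [Nat.cast_sub e3]
    push_cast
    linarith
  have e4 : (k : ℝ) ≤ n := by exact_mod_cast hn1
  calc c / (2 * K) * M = c * (M / (2 * K)) := by ring
    _ ≤ c * n := mul_le_mul_of_nonneg_left (hk4.trans e4) hc.le
    _ ≤ ((n + 1 - ⌈(1 - c) * n⌉₊ : ℕ) : ℝ) := e2
    _ ≤ _ := by exact_mod_cast hcard

theorem criterion {p : ℝ} (h0 : 0 ≤ p) (h1 : p ≤ 1) :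
    pc < p ↔ ∃ n : ℕ, 1 - T n p < (1 / 8) ^ (n + 1) := by
  constructor
  · intro hp
    rcases h1.lt_or_eq with h1 | h1
    · obtain ⟨c, C, hc, hC, N, hN⟩ := above hp h1
      have hl8 : 0 < Real.log 8 := Real.log_pos (by norm_num)
      refine ⟨max N (⌈2 * Real.log 8 / c⌉₊ + 1), ?_⟩
      set n := max N (⌈2 * Real.log 8 / c⌉₊ + 1) with hn
      refine lt_of_le_of_lt (hN n (le_max_left _ _)).2 ?_
      rw [eighth, Real.exp_lt_exp, neg_lt_neg_iff]
      have h2 : ((⌈2 * Real.log 8 / c⌉₊ + 1 : ℕ) : ℝ) ≤ n := by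
        exact_mod_cast le_max_right N _
      have h3 := Nat.le_ceil (2 * Real.log 8 / c)
      push_cast at h2
      have h4 : 2 * Real.log 8 / c < n := by linarith
      have h5 : 2 * Real.log 8 < c * n := by
        rw [div_lt_iff₀ hc] at h4
        linarith
      have h6 : (1 : ℝ) ≤ n := by
        have : (0 : ℝ) ≤ (⌈2 * Real.log 8 / c⌉₊ : ℝ) := Nat.cast_nonneg _
        linarith
      nlinarith
    · refine ⟨0, ?_⟩
      rw [h1, T_one]
      norm_num
  · rintro ⟨n, hn⟩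
    have hp0 : 0 < p := by
      by_contra hcon
      have hp : p = 0 := le_antisymm (not_lt.1 hcon) h0
      have h2 := T_lower (n := n) h0 h1
      rw [hp] at h2 hn
      simp only [sub_zero, one_pow] at h2
      have h3 : ((1 : ℝ) / 8) ^ (n + 1) ≤ 1 := pow_le_one₀ (by norm_num) (by norm_num)
      linarith
    have hcont : ContinuousAt (fun q => 1 - T n q) p :=
      continuousAt_const.sub (russo (Al_incr n cube) p).continuousAt
    have hev : ∀ᶠ q in 𝓝 p, 1 - T n q < (1 / 8) ^ (n + 1) := hcont.eventually (gt_mem_nhds hn)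
    have hev2 : ∀ᶠ q in 𝓝[<] p, 1 - T n q < (1 / 8) ^ (n + 1) := hev.filter_mono nhdsWithin_le_nhds
    have hev3 : ∀ᶠ q in 𝓝[<] p, q ∈ Set.Ioo 0 p := Ioo_mem_nhdsLT hp0
    obtain ⟨q, hq1, hq2⟩ := (hev2.and hev3).exists
    exact lt_of_le_of_lt (pc_le hq2.1.le (by linarith [hq2.2])
      (tends_one hq2.1.le (by linarith [hq2.2]) hq1)) hq2.2

end Pool.Agent.helper17.DyS
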