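import Pool.Agent.helper17.Dya.Prob

/-!
# Influences and decision trees on a finite product space
-/

set_option autoImplicit false
open scoped Classical
open Finset Pool.Agent.helper17.Dya

namespace Pool.Agent.helper17.DyS

/-- the coordinate `i` is set to `b` -/
noncomputable def up {ι : Type} (i : ι) (b : Bool) (ω : ι → Bool) : ι → Bool :=
  fun j => if j = i then b else ω j

/-- the coordinate `i` is pivotal for the increasing event `E` -/
def Piv {ι : Type} (E : (ι → Bool) → Prop) (i : ι) (ω : ι → Bool) : Prop :=
  E (up i true ω) ∧ ¬ E (up i false ω)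

/-- increasing event -/
def Incr {ι : Type} (E : (ι → Bool) → Prop) : Prop := ∀ ω ω', ω ≤ ω' → E ω → E ω'

/-- total influence -/
noncomputable def Infl {ι : Type} [Fintype ι] (p : ℝ) (E : (ι → Bool) → Prop) : ℝ :=
  ∑ i, Pr p (Piv E i)

/-- decision trees -/
inductive DT (ι : Type) : Type
  | leaf (b : Bool) : DT ι
  | node (i : ι) (f : Bool → DT ι) : DT ι

/-- value of a decision tree -/
def DT.eval {ι : Type} : DT ι → (ι → Bool) → Bool
  | .leaf b, _ => b
  | .node i f, ω => (f (ω i)).eval ω

/-- the coordinate `j` is queried -/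
def DT.Q {ι : Type} : DT ι → (ι → Bool) → ι → Prop
  | .leaf _, _, _ => False
  | .node i f, ω, j => j = i ∨ (f (ω i)).Q ω j

end Pool.Agent.helper17.DyS
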