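import Pool.Agent.helper17.DyS.Defs

/-!
# Dyadic boxes in dimension three
-/

set_option autoImplicit false
open scoped Classical
open Finset Pool.Agent.helper17.Dya

namespace Pool.Agent.helper17.DyS

/-- a dyadic box: orders and positions in the three directions -/
abbrev Tl : Type := (Fin 3 → ℕ) × (Fin 3 → ℕ)

/-- a dyadic box of order `n` in the unit cube -/
def Vl (n : ℕ) (b : Tl) : Prop := ∑ i, b.1 i = n ∧ ∀ i, b.2 i < 2 ^ b.1 i

/-- the boxes of order `n` -/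
abbrev It (n : ℕ) : Type := {b : Tl // Vl n b}

lemma Vl.le {n : ℕ} {b : Tl} (h : Vl n b) (i : Fin 3) : b.1 i ≤ n := by
  rw [← h.1]
  exact single_le_sum (f := fun i => b.1 i) (fun _ _ => Nat.zero_le _) (mem_univ i)

lemma Vl.lt {n : ℕ} {b : Tl} (h : Vl n b) (i : Fin 3) : b.2 i < 2 ^ n :=
  (h.2 i).trans_le (Nat.pow_le_pow_right (by norm_num) (h.le i))

instance finite_It (n : ℕ) : Finite (It n) := by
  refine Finite.of_injective (β := (Fin 3 → Fin (n + 1)) × (Fin 3 → Fin (2 ^ n)))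
    (fun b => (fun i => ⟨b.1.1 i, Nat.lt_succ_of_le (b.2.le i)⟩, fun i => ⟨b.1.2 i, b.2.lt i⟩)) ?_
  intro b b' h
  simp only [Prod.mk.injEq] at h
  refine Subtype.ext (Prod.ext (funext fun i => ?_) (funext fun i => ?_))
  · exact congrArg Fin.val (congrFun h.1 i)
  · exact congrArg Fin.val (congrFun h.2 i)

noncomputable instance fintype_It (n : ℕ) : Fintype (It n) := Fintype.ofFinite _

/-- the box `b` contains the cell `x` (cells have side `2 ^ (-n)`) -/
def Cv (n : ℕ) (b : Tl) (x : Fin 3 → ℕ) : Prop := ∀ i, x i / 2 ^ (n - b.1 i) = b.2 i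

/-- the box `b` is contained in the box `B` -/
def Sb (b B : Tl) : Prop := ∀ i, B.1 i ≤ b.1 i ∧ b.2 i / 2 ^ (b.1 i - B.1 i) = B.2 i

/-- the box `B` can be tiled by available boxes of order `n` -/
def Al (n : ℕ) (B : Tl) (ω : It n → Bool) : Prop :=
  ∃ R : Set (It n), (∀ b ∈ R, ω b = true ∧ Sb b.1 B) ∧
    ∀ x : Fin 3 → ℕ, (∀ i, x i < 2 ^ n) → Cv n B x → ∃! b, b ∈ R ∧ Cv n b.1 x

/-- the unit cube -/
def cube : Tl := (0, 0)

/-- the probability that the unit cube can be tiled by available boxes of order `n` -/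
noncomputable def T (n : ℕ) (p : ℝ) : ℝ := Pr p (Al n cube)

lemma Al_incr (n : ℕ) (B : Tl) : Incr (Al n B) := by
  rintro ω ω' h ⟨R, h1, h2⟩
  refine ⟨R, fun b hb => ⟨?_, (h1 b hb).2⟩, h2⟩
  have h3 := h b
  rw [(h1 b hb).1] at h3
  exact top_le_iff.1 h3

/-- the event depends only on the boxes inside of `B` -/
lemma Al_dep (n : ℕ) (B : Tl) : Dep {b : It n | Sb b.1 B} (Al n B) := by
  intro ω ω' h
  constructor
  · rintro ⟨R, h1, h2⟩
    exact ⟨R, fun b hb => ⟨(h b (h1 b hb).2).symm.trans (h1 b hb).1, (h1 b hb).2⟩, h2⟩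
  · rintro ⟨R, h1, h2⟩
    exact ⟨R, fun b hb => ⟨(h b (h1 b hb).2).trans (h1 b hb).1, (h1 b hb).2⟩, h2⟩

end Pool.Agent.helper17.DyS
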