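import Pool.Agent.helper17.DyS.Geo

/-!
# Halving a dyadic box
-/

set_option autoImplicit false
open scoped Classical
open Finset Pool.Agent.helper17.Dya

namespace Pool.Agent.helper17.DyS

/-- the two halves (`e = 0, 1`) of the box `B` in the direction `i` -/
def ch (B : Tl) (i : Fin 3) (e : ℕ) : Tl :=
  (fun j => if j = i then B.1 j + 1 else B.1 j, fun j => if j = i then 2 * B.2 j + e else B.2 j)

/-- the shape of the boxes of order `m` if the box of order `j + 1` is cut in the direction `d j`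
for `m ≤ j < n` -/
def shp (d : ℕ → Fin 3) (n m : ℕ) : Fin 3 → ℕ :=
  fun i => ((Finset.Ico m n).filter (fun j => d j = i)).card

lemma Sb.refl (B : Tl) : Sb B B := fun i => ⟨le_refl _, by simp⟩

lemma Sb.trans {b B C : Tl} (h : Sb b B) (h' : Sb B C) : Sb b C := by
  intro i
  refine ⟨(h' i).1.trans (h i).1, ?_⟩
  rw [← (h' i).2, ← (h i).2, Nat.div_div_eq_div_mul, ← pow_add]
  have h1 := (h i).1
  have h2 := (h' i).1
  congr 2
  omega

lemma Sb_ch {B : Tl} {i : Fin 3} {e : ℕ} (he : e < 2) : Sb (ch B i e) B := by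
  intro j
  unfold ch
  by_cases h : j = i
  · simp only [h, if_true]
    refine ⟨Nat.le_succ _, ?_⟩
    rw [show B.1 i + 1 - B.1 i = 1 by omega, pow_one]
    omega
  · simp only [h, if_false, Nat.sub_self, pow_zero, Nat.div_one, le_refl, and_self]

/-- a cell of a box inside of `B` is a cell of `B` -/
lemma Cv_of_Sb {n : ℕ} {b B : Tl} {x : Fin 3 → ℕ} (hb : ∀ i, b.1 i ≤ n) (h : Sb b B)
    (hx : Cv n b x) : Cv n B x := by
  intro i
  rw [← (h i).2, ← hx i, Nat.div_div_eq_div_mul, ← pow_add]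
  have h1 := (h i).1
  have h2 := hb i
  congr 2
  omega

lemma ch_disj {n : ℕ} {B : Tl} {i : Fin 3} {x : Fin 3 → ℕ} (h : Cv n (ch B i 0) x)
    (h' : Cv n (ch B i 1) x) : False := by
  have h1 := h i
  have h2 := h' i
  unfold ch at h1 h2
  simp only [if_true] at h1 h2
  omega

lemma ch_cover {n : ℕ} {B : Tl} {i : Fin 3} {x : Fin 3 → ℕ} (hi : B.1 i + 1 ≤ n)
    (h : Cv n B x) : Cv n (ch B i 0) x ∨ Cv n (ch B i 1) x := by
  have h1 : x i / 2 ^ (n - (B.1 i + 1)) / 2 = B.2 i := by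
    rw [← h i, Nat.div_div_eq_div_mul, ← pow_succ]
    congr 2
    omega
  have h2 : x i / 2 ^ (n - (B.1 i + 1)) = 2 * B.2 i + 0 ∨
      x i / 2 ^ (n - (B.1 i + 1)) = 2 * B.2 i + 1 := by omega
  rcases h2 with h2 | h2
  · left
    intro j
    unfold ch
    by_cases hj : j = i
    · subst hj
      simpa using h2
    · simpa [hj] using h j
  · right
    intro j
    unfold ch
    by_cases hj : j = i
    · subst hj
      simpa using h2
    · simpa [hj] using h j

/-- a box is tileable if its two halves are -/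
theorem Al_split {n : ℕ} {B : Tl} (i : Fin 3) (hi : B.1 i + 1 ≤ n) {ω : It n → Bool}
    (h0 : Al n (ch B i 0) ω) (h1 : Al n (ch B i 1) ω) : Al n B ω := by
  obtain ⟨R, hR, hR2⟩ := h0
  obtain ⟨R', hR', hR2'⟩ := h1
  refine ⟨R ∪ R', ?_, ?_⟩
  · rintro b (hb | hb)
    · exact ⟨(hR b hb).1, (hR b hb).2.trans (Sb_ch (by norm_num))⟩
    · exact ⟨(hR' b hb).1, (hR' b hb).2.trans (Sb_ch (by norm_num))⟩
  · intro x hx hB
    rcases ch_cover hi hB with h | h
    · obtain ⟨b, ⟨hb, hc⟩, hu⟩ := hR2 x hx h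
      refine ⟨b, ⟨Or.inl hb, hc⟩, ?_⟩
      rintro b' ⟨hb' | hb', hc'⟩
      · exact hu b' ⟨hb', hc'⟩
      · exact (ch_disj h (Cv_of_Sb b'.2.le (hR' b' hb').2 hc')).elim
    · obtain ⟨b, ⟨hb, hc⟩, hu⟩ := hR2' x hx h
      refine ⟨b, ⟨Or.inr hb, hc⟩, ?_⟩
      rintro b' ⟨hb' | hb', hc'⟩
      · exact (ch_disj (Cv_of_Sb b'.2.le (hR b' hb').2 hc') h).elim
      · exact hu b' ⟨hb', hc'⟩

/-- no box is inside of both halves -/
lemma ch_Sb_disj {b B : Tl} {i : Fin 3} (h : Sb b (ch B i 0)) (h' : Sb b (ch B i 1)) : False := by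
  have h1 := (h i).2
  have h2 := (h' i).2
  unfold ch at h1 h2
  simp only [if_true] at h1 h2
  omega

lemma Vl_ch {m : ℕ} {B : Tl} (hB : Vl m B) (i : Fin 3) {e : ℕ} (he : e < 2) :
    Vl (m + 1) (ch B i e) := by
  constructor
  · rw [← hB.1]
    unfold ch
    have h1 : ∀ j : Fin 3, (if j = i then B.1 j + 1 else B.1 j) =
        B.1 j + if j = i then 1 else 0 := by
      intro j
      split_ifs <;> rfl
    simp only [h1, sum_add_distrib, sum_ite_eq', mem_univ, if_true]
  · intro j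
    unfold ch
    by_cases h : j = i
    · simp only [h, if_true]
      have := hB.2 i
      rw [pow_succ]
      omega
    · simp only [h, if_false]
      exact hB.2 j

end Pool.Agent.helper17.DyS
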