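import Pool.Agent.helper17.DyS.Defs

/-!
# The inequality of Kahn, Kalai and Linial (Talagrand) for increasing events

Proof of Falik and Samorodnitsky: the logarithmic Sobolev inequality is applied to the differences
`f - A i f` of a martingale (`A i` is the average over the coordinate `i`).
-/

set_option autoImplicit false
open scoped Classical
open Finset Pool.Agent.helper17.Dya

namespace Pool.Agent.helper17.DyS

section Kkl

/-- the average over the coordinate `i` -/
noncomputable def kkA {ι : Type} (p : ℝ) (i : ι) (f : (ι → Bool) → ℝ) (ω : ι → Bool) : ℝ :=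
  p * f (up i true ω) + (1 - p) * f (up i false ω)

/-- the difference in the direction `i` -/
noncomputable def kkD {ι : Type} (i : ι) (f : (ι → Bool) → ℝ) (ω : ι → Bool) : ℝ :=
  f (up i true ω) - f (up i false ω)

/-- entropy -/
noncomputable def kkEnt {ι : Type} [Fintype ι] (p : ℝ) (F : (ι → Bool) → ℝ) : ℝ :=
  Ev p (fun ω => F ω * Real.log (F ω)) - Ev p F * Real.log (Ev p F)

lemma kk_up_self {ι : Type} (i : ι) (b c : Bool) (ω : ι → Bool) : up i b (up i c ω) = up i b ω := by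
  unfold up
  funext j
  by_cases h : j = i <;> simp [h]

lemma kk_up_comm {ι : Type} {i k : ι} (h : i ≠ k) (b c : Bool) (ω : ι → Bool) :
    up i b (up k c ω) = up k c (up i b ω) := by
  unfold up
  funext j
  by_cases h1 : j = i
  · have h2 : j ≠ k := by
      rw [h1]
      exact h
    simp [h1, h]
  · simp [h1]

lemma kk_up_eq {ι : Type} (i : ι) (ω : ι → Bool) : up i (ω i) ω = ω := by
  unfold up
  funext j
  by_cases h : j = i <;> simp [h]

lemma kk_up_at {ι : Type} (i : ι) (b : Bool) (ω : ι → Bool) : up i b ω i = b := by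
  simp [up]

variable {ι : Type} [Fintype ι] {p : ℝ}

lemma kk_wt (i : ι) (b : Bool) (ω : ι → Bool) : wt p (up i b ω) * wb p (ω i) = wt p ω * wb p b := by
  unfold wt
  rw [← mul_prod_erase univ _ (mem_univ i),
    ← mul_prod_erase univ (fun j => wb p (ω j)) (mem_univ i)]
  have h : ∏ x ∈ univ.erase i, wb p (up i b ω x) = ∏ x ∈ univ.erase i, wb p (ω x) := by
    refine prod_congr rfl fun j hj => ?_
    have hj' : j ≠ i := (mem_erase.1 hj).1
    simp [up, hj']
  rw [h, kk_up_at]
  ring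

lemma kk_EvA (i : ι) (f : (ι → Bool) → ℝ) : Ev p (kkA p i f) = Ev p f := by
  have h1 : Ev p (kkA p i f) =
      ∑ q : (ι → Bool) × Bool, wt p q.1 * wb p q.2 * f (up i q.2 q.1) := by
    rw [← univ_product_univ, sum_product]
    unfold Ev
    refine sum_congr rfl fun ω _ => ?_
    rw [Fintype.sum_bool]
    simp only [kkA, wb, if_true]
    simp only [Bool.false_eq_true, if_false]
    ring
  have h2 : ∑ q : (ι → Bool) × Bool, wt p q.1 * wb p q.2 * f (up i q.2 q.1) =
      ∑ q : (ι → Bool) × Bool, wt p q.1 * wb p q.2 * f q.1 := by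
    refine Finset.sum_nbij' (fun q => (up i q.2 q.1, q.1 i)) (fun q => (up i q.2 q.1, q.1 i))
      (fun _ _ => mem_univ _) (fun _ _ => mem_univ _) (fun q _ => ?_) (fun q _ => ?_)
      fun q _ => ?_
    · ext1
      · simp only [kk_up_self, kk_up_eq]
      · simp only [kk_up_at]
    · ext1
      · simp only [kk_up_self, kk_up_eq]
      · simp only [kk_up_at]
    · simp only [kk_wt]
  rw [h1, h2, ← univ_product_univ, sum_product]
  unfold Ev
  refine sum_congr rfl fun ω _ => ?_
  simp only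
  rw [← sum_mul, ← mul_sum, sum_wb, mul_one]

lemma kk_Ev_eq (i : ι) {f g : (ι → Bool) → ℝ} (h : ∀ ω, kkA p i f ω = kkA p i g ω) :
    Ev p f = Ev p g := by
  rw [← kk_EvA i f, ← kk_EvA i g]
  congr 1
  funext ω
  exact h ω

lemma kk_Ev_mul (c : ℝ) (f : (ι → Bool) → ℝ) : Ev p (fun ω => c * f ω) = c * Ev p f := by
  unfold Ev
  rw [mul_sum]
  exact sum_congr rfl fun _ _ => by ring

lemma kk_Ev_nonneg (h0 : 0 ≤ p) (h1 : p ≤ 1) {f : (ι → Bool) → ℝ} (h : ∀ ω, 0 ≤ f ω) :
    0 ≤ Ev p f :=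
  sum_nonneg fun ω _ => mul_nonneg (wt_nonneg h0 h1 ω) (h ω)

lemma kk_Ev_const (c : ℝ) : Ev p (fun _ : ι → Bool => c) = c := by
  have h := kk_Ev_mul (p := p) c (fun _ : ι → Bool => 1)
  rw [Ev_one, mul_one] at h
  simpa using h

omit [Fintype ι] in
lemma kk_A_up (i : ι) (f : (ι → Bool) → ℝ) (b : Bool) (ω : ι → Bool) :
    kkA p i f (up i b ω) = kkA p i f ω := by
  simp only [kkA, kk_up_self]

/-- Pythagoras -/
lemma kk_pyth (i : ι) (f : (ι → Bool) → ℝ) : Ev p (fun ω => f ω ^ 2) =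
    Ev p (fun ω => kkA p i f ω ^ 2) + Ev p (fun ω => (f ω - kkA p i f ω) ^ 2) := by
  rw [← Ev_add]
  apply kk_Ev_eq i
  intro ω
  simp only [kkA, kk_up_self]
  ring

/-- the Dirichlet form -/
lemma kk_dir (i : ι) (f : (ι → Bool) → ℝ) : Ev p (fun ω => (f ω - kkA p i f ω) ^ 2) =
    p * (1 - p) * Ev p (fun ω => kkD i f ω ^ 2) := by
  rw [← kk_Ev_mul]
  apply kk_Ev_eq i
  intro ω
  simp only [kkA, kkD, kk_up_self]
  ring

lemma kk_abs (h0 : 0 ≤ p) (h1 : p ≤ 1) (i : ι) (f : (ι → Bool) → ℝ) :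
    Ev p (fun ω => |f ω - kkA p i f ω|) = 2 * (p * (1 - p)) * Ev p (fun ω => |kkD i f ω|) := by
  rw [← kk_Ev_mul]
  apply kk_Ev_eq i
  intro ω
  simp only [kkA, kkD, kk_up_self]
  have h2 : f (up i true ω) - (p * f (up i true ω) + (1 - p) * f (up i false ω)) =
      (1 - p) * (f (up i true ω) - f (up i false ω)) := by ring
  have h3 : f (up i false ω) - (p * f (up i true ω) + (1 - p) * f (up i false ω)) =
      (-p) * (f (up i true ω) - f (up i false ω)) := by ring
  rw [h2, h3, abs_mul, abs_mul, abs_neg, abs_of_nonneg h0, abs_of_nonneg (by linarith : 0 ≤ 1 - p)]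
  ring

lemma kk_absA (h0 : 0 ≤ p) (h1 : p ≤ 1) (i : ι) (f : (ι → Bool) → ℝ) :
    Ev p (fun ω => |kkA p i f ω|) ≤ Ev p (fun ω => |f ω|) := by
  rw [← kk_EvA i (fun ω => |f ω|)]
  apply Ev_mono h0 h1
  intro ω
  simp only [kkA]
  refine (abs_add_le _ _).trans ?_
  rw [abs_mul, abs_mul, abs_of_nonneg h0, abs_of_nonneg (by linarith : 0 ≤ 1 - p)]

/-- the two point inequality -/
lemma kk_two {a p : ℝ} (ha : 0 < a) (h1 : a ≤ p) (h2 : p ≤ 1 - a) (u v : ℝ) :
    p * (u ^ 2 * Real.log (u ^ 2)) + (1 - p) * (v ^ 2 * Real.log (v ^ 2)) -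
      (p * u ^ 2 + (1 - p) * v ^ 2) * Real.log (p * u ^ 2 + (1 - p) * v ^ 2) ≤
      2 / a * (p * (1 - p) * (u - v) ^ 2) := by
  have hp : 0 < p := by linarith
  have hq : 0 < 1 - p := by linarith
  set z : ℝ := p * u ^ 2 + (1 - p) * v ^ 2 with hz
  have hz0 : 0 ≤ z := by positivity
  rcases hz0.eq_or_lt with h0 | h0
  · have hu : p * u ^ 2 = 0 := by nlinarith [mul_nonneg hp.le (sq_nonneg u), mul_nonneg hq.le (sq_nonneg v)]
    have hv : (1 - p) * v ^ 2 = 0 := by nlinarith [mul_nonneg hp.le (sq_nonneg u), mul_nonneg hq.le (sq_nonneg v)]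
    have hu' : u ^ 2 = 0 := (mul_eq_zero.1 hu).resolve_left hp.ne'
    have hv' : v ^ 2 = 0 := (mul_eq_zero.1 hv).resolve_left hq.ne'
    rw [hu', hv', ← h0]
    simp only [Real.log_zero, mul_zero, add_zero, sub_zero]
    positivity
  · have key : ∀ x : ℝ, 0 ≤ x → x * Real.log x ≤ x * Real.log z + x * (x / z - 1) := by
      intro x hx
      rcases hx.eq_or_lt with h3 | h3
      · rw [← h3]
        simp
      · have h4 : Real.log (x / z) ≤ x / z - 1 := Real.log_le_sub_one_of_pos (by positivity)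
        rw [Real.log_div h3.ne' h0.ne'] at h4
        nlinarith
    have ku := mul_le_mul_of_nonneg_left (key (u ^ 2) (sq_nonneg u)) hp.le
    have kv := mul_le_mul_of_nonneg_left (key (v ^ 2) (sq_nonneg v)) hq.le
    have h5 : p * (u ^ 2 * Real.log (u ^ 2)) + (1 - p) * (v ^ 2 * Real.log (v ^ 2)) -
        z * Real.log z ≤ p * (u ^ 2 * (u ^ 2 / z - 1)) + (1 - p) * (v ^ 2 * (v ^ 2 / z - 1)) := by
      have h6 : z * Real.log z = p * (u ^ 2 * Real.log z) + (1 - p) * (v ^ 2 * Real.log z) := by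
        rw [hz]
        ring
      rw [h6]
      linarith
    refine h5.trans ?_
    have h7 : p * (u ^ 2 * (u ^ 2 / z - 1)) + (1 - p) * (v ^ 2 * (v ^ 2 / z - 1)) =
        p * (1 - p) * (u - v) ^ 2 * ((u + v) ^ 2 / z) := by
      have h8 : p * (u ^ 2 * (u ^ 2 / z - 1)) + (1 - p) * (v ^ 2 * (v ^ 2 / z - 1)) =
          (p * u ^ 4 + (1 - p) * v ^ 4 - z * (p * u ^ 2 + (1 - p) * v ^ 2)) / z := by
        field_simp
        ring
      rw [h8, ← mul_div_assoc]
      congr 1
      rw [hz]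
      ring
    rw [h7, mul_comm (2 / a)]
    apply mul_le_mul_of_nonneg_left _ (by positivity)
    rw [div_le_div_iff₀ h0 ha]
    have h9 : a * (u ^ 2 + v ^ 2) ≤ z := by
      rw [hz]
      nlinarith [sq_nonneg u, sq_nonneg v]
    nlinarith [sq_nonneg (u - v)]

/-- the logarithmic Sobolev inequality -/
lemma kk_lsi {a : ℝ} (ha : 0 < a) (h1 : a ≤ p) (h2 : p ≤ 1 - a) (s : Finset ι) :
    ∀ g : (ι → Bool) → ℝ, (∀ ω ω', (∀ i ∈ s, ω i = ω' i) → g ω = g ω') →
      kkEnt p (fun ω => g ω ^ 2) ≤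
        2 / a * ∑ k ∈ s, p * (1 - p) * Ev p (fun ω => kkD k g ω ^ 2) := by
  have hp : 0 ≤ p := by linarith
  have hp1 : p ≤ 1 := by linarith
  induction s using Finset.induction_on with
  | empty =>
    intro g hg
    have h3 : g = fun _ => g (fun _ => true) := by
      funext ω
      exact hg _ _ (by simp)
    rw [h3]
    unfold kkEnt
    simp only
    rw [kk_Ev_const, kk_Ev_const]
    simp
  | insert i s hi ih =>
    intro g hg
    set G : (ι → Bool) → ℝ := fun ω => Real.sqrt (kkA p i (fun ω => g ω ^ 2) ω) with hG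
    have hA0 : ∀ ω, 0 ≤ kkA p i (fun ω => g ω ^ 2) ω := by
      intro ω
      unfold kkA
      have : 0 ≤ 1 - p := by linarith
      positivity
    have hG2 : ∀ ω, G ω ^ 2 = kkA p i (fun ω => g ω ^ 2) ω := fun ω => Real.sq_sqrt (hA0 ω)
    have hG2' : (fun ω => G ω ^ 2) = kkA p i (fun ω => g ω ^ 2) := funext hG2
    have hGs : ∀ ω ω', (∀ j ∈ s, ω j = ω' j) → G ω = G ω' := by
      intro ω ω' h
      simp only [hG, kkA]
      have h3 : ∀ b, g (up i b ω) = g (up i b ω') := by
        intro b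
        apply hg
        intro j hj
        unfold up
        by_cases hji : j = i
        · simp [hji]
        · rw [mem_insert] at hj
          simp [hji, h j (hj.resolve_left hji)]
      rw [h3, h3]
    have h3 := ih G hGs
    rw [hG2'] at h3
    have h4 : kkEnt p (fun ω => g ω ^ 2) =
        kkEnt p (kkA p i (fun ω => g ω ^ 2)) +
          Ev p (fun ω => kkA p i (fun ω => g ω ^ 2 * Real.log (g ω ^ 2)) ω -
            kkA p i (fun ω => g ω ^ 2) ω * Real.log (kkA p i (fun ω => g ω ^ 2) ω)) := by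
      unfold kkEnt
      rw [Ev_sub, kk_EvA i (fun ω => g ω ^ 2),
        kk_EvA i (fun ω => g ω ^ 2 * Real.log (g ω ^ 2))]
      ring
    have h5 : Ev p (fun ω => kkA p i (fun ω => g ω ^ 2 * Real.log (g ω ^ 2)) ω -
            kkA p i (fun ω => g ω ^ 2) ω * Real.log (kkA p i (fun ω => g ω ^ 2) ω)) ≤
        2 / a * (p * (1 - p) * Ev p (fun ω => kkD i g ω ^ 2)) := by
      rw [← kk_Ev_mul, ← kk_Ev_mul]
      apply Ev_mono hp hp1
      intro ω
      exact kk_two ha h1 h2 _ _
    have h6 : ∑ k ∈ s, p * (1 - p) * Ev p (fun ω => kkD k G ω ^ 2) ≤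
        ∑ k ∈ s, p * (1 - p) * Ev p (fun ω => kkD k g ω ^ 2) := by
      apply sum_le_sum
      intro k hk
      have hki : i ≠ k := by
        intro h
        rw [h] at hi
        exact hi hk
      apply mul_le_mul_of_nonneg_left _ (mul_nonneg hp (by linarith))
      rw [← kk_EvA i (fun ω => kkD k g ω ^ 2)]
      apply Ev_mono hp hp1
      intro ω
      simp only [kkD, kkA, hG, kk_up_comm hki]
      set u1 := g (up k true (up i true ω))
      set u2 := g (up k true (up i false ω))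
      set v1 := g (up k false (up i true ω))
      set v2 := g (up k false (up i false ω))
      have hq : 0 ≤ 1 - p := by linarith
      have hX : 0 ≤ p * u1 ^ 2 + (1 - p) * u2 ^ 2 := by positivity
      have hY : 0 ≤ p * v1 ^ 2 + (1 - p) * v2 ^ 2 := by positivity
      have h7 : p * u1 * v1 + (1 - p) * u2 * v2 ≤
          Real.sqrt (p * u1 ^ 2 + (1 - p) * u2 ^ 2) * Real.sqrt (p * v1 ^ 2 + (1 - p) * v2 ^ 2) := by
        rw [← Real.sqrt_mul hX]
        apply Real.le_sqrt_of_sq_le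
        have : 0 ≤ p * (1 - p) * (u1 * v2 - u2 * v1) ^ 2 := by positivity
        nlinarith
      have h8 := Real.sq_sqrt hX
      have h9 := Real.sq_sqrt hY
      nlinarith
    rw [h4, sum_insert hi, mul_add]
    have h10 : 0 ≤ 2 / a := by positivity
    have h11 := mul_le_mul_of_nonneg_left h6 h10
    linarith

/-- entropy from below -/
lemma kk_low (h0 : 0 ≤ p) (h1 : p ≤ 1) {L : ℝ} (hL : 0 ≤ L) (h : (ι → Bool) → ℝ)
    (hV : Ev p (fun ω => h ω ^ 2) ≤ 1) (hm : Ev p (fun ω => |h ω|) ≤ Real.exp (-L)) :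
    L / 2 * Ev p (fun ω => h ω ^ 2) ≤ kkEnt p (fun ω => h ω ^ 2) + Ev p (fun ω => |h ω|) := by
  set V := Ev p (fun ω => h ω ^ 2) with hVd
  set m := Ev p (fun ω => |h ω|) with hmd
  have hV0 : 0 ≤ V := kk_Ev_nonneg h0 h1 fun ω => sq_nonneg _
  have hm0 : 0 ≤ m := kk_Ev_nonneg h0 h1 fun ω => abs_nonneg _
  have key : ∀ y : ℝ, 0 < y → Real.log (y ^ 2) * V + 2 * V - 2 * y * m ≤
      Ev p (fun ω => h ω ^ 2 * Real.log (h ω ^ 2)) := by
    intro y hy
    rw [hVd, hmd, ← kk_Ev_mul, ← kk_Ev_mul, ← kk_Ev_mul, ← Ev_add, ← Ev_sub]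
    apply Ev_mono h0 h1
    intro ω
    rcases eq_or_ne (h ω) 0 with h2 | h2
    · rw [h2]
      simp
    · have h3 : 0 < |h ω| := abs_pos.2 h2
      have h4 : Real.log (y / |h ω|) ≤ y / |h ω| - 1 := Real.log_le_sub_one_of_pos (by positivity)
      rw [Real.log_div hy.ne' h3.ne'] at h4
      have h5 : Real.log (h ω ^ 2) = 2 * Real.log |h ω| := by
        rw [← sq_abs, Real.log_pow]
        norm_num
      have h6 : Real.log (y ^ 2) = 2 * Real.log y := by
        rw [Real.log_pow]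
        norm_num
      rw [h5, h6]
      have h7 : h ω ^ 2 = |h ω| ^ 2 := (sq_abs _).symm
      have h8 : |h ω| ^ 2 * (y / |h ω| - 1) = y * |h ω| - |h ω| ^ 2 := by
        field_simp
      have h9 := mul_le_mul_of_nonneg_left h4 (sq_nonneg |h ω|)
      rw [h8] at h9
      rw [h7]
      nlinarith
  have hE : kkEnt p (fun ω => h ω ^ 2) = Ev p (fun ω => h ω ^ 2 * Real.log (h ω ^ 2)) -
      V * Real.log V := rfl
  rw [hE]
  by_cases hc : V ≤ Real.exp (-(L / 2))
  · have h2 := key (1 / 2) (by norm_num)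
    have h3 : V * Real.log V ≤ V * (-(L / 2)) := by
      rcases hV0.eq_or_lt with h4 | h4
      · rw [← h4]
        simp
      · apply mul_le_mul_of_nonneg_left _ hV0
        exact (Real.log_le_iff_le_exp h4).2 hc
    have h5 : Real.log ((1 / 2 : ℝ) ^ 2) = - (2 * Real.log 2) := by
      rw [Real.log_pow, one_div, Real.log_inv]
      push_cast
      ring
    rw [h5] at h2
    have h6 : Real.log 2 < 0.6931471808 := Real.log_two_lt_d9
    have h7 : 0 ≤ V * (1 - Real.log 2) := mul_nonneg hV0 (by linarith)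
    nlinarith
  · push Not at hc
    have h2 := key (Real.exp (L / 2)) (Real.exp_pos _)
    have h3 : Real.log (Real.exp (L / 2) ^ 2) = L := by
      rw [Real.log_pow, Real.log_exp]
      push_cast
      ring
    rw [h3] at h2
    have hVp : 0 < V := lt_trans (Real.exp_pos _) hc
    have h4 : V * Real.log V ≤ 0 :=
      mul_nonpos_of_nonneg_of_nonpos hV0 (Real.log_nonpos hV0 hV)
    have h5 : Real.exp (L / 2) * m ≤ V := by
      calc Real.exp (L / 2) * m ≤ Real.exp (L / 2) * Real.exp (-L) :=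
            mul_le_mul_of_nonneg_left hm (Real.exp_pos _).le
        _ = Real.exp (-(L / 2)) := by
            rw [← Real.exp_add]
            congr 1
            ring
        _ ≤ V := hc.le
    have h6 : 0 ≤ L * V := mul_nonneg hL hV0
    nlinarith

omit [Fintype ι] in
lemma kk_A_comm {i k : ι} (h : i ≠ k) (f : (ι → Bool) → ℝ) (ω : ι → Bool) :
    kkA p k (kkA p i f) ω = kkA p i (kkA p k f) ω := by
  simp only [kkA, kk_up_comm h]
  ring

/-- the martingale argument -/
lemma kk_main {a : ℝ} (ha : 0 < a) (h1 : a ≤ p) (h2 : p ≤ 1 - a) {L : ℝ} (hL : 0 ≤ L)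
    (s : Finset ι) : ∀ f : (ι → Bool) → ℝ, (∀ ω ω', (∀ i ∈ s, ω i = ω' i) → f ω = f ω') →
      Ev p (fun ω => f ω ^ 2) ≤ 1 →
      (∀ k ∈ s, Ev p (fun ω => |f ω - kkA p k f ω|) ≤ Real.exp (-L)) →
      L / 2 * (Ev p (fun ω => f ω ^ 2) - Ev p f ^ 2) ≤
        2 / a * ∑ k ∈ s, Ev p (fun ω => (f ω - kkA p k f ω) ^ 2) +
          ∑ k ∈ s, Ev p (fun ω => |f ω - kkA p k f ω|) := by
  have hp : 0 ≤ p := by linarith
  have hp1 : p ≤ 1 := by linarith
  induction s using Finset.induction_on with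
  | empty =>
    intro f hf _ _
    have h3 : f = fun _ => f (fun _ => true) := by
      funext ω
      exact hf _ _ (by simp)
    rw [h3]
    simp only
    rw [kk_Ev_const, kk_Ev_const]
    simp
  | insert i s hi ih =>
    intro f hf hf1 hfe
    have hpy := kk_pyth (p := p) i f
    have hn1 : 0 ≤ Ev p (fun ω => kkA p i f ω ^ 2) := kk_Ev_nonneg hp hp1 fun ω => sq_nonneg _
    have hn2 : 0 ≤ Ev p (fun ω => (f ω - kkA p i f ω) ^ 2) :=
      kk_Ev_nonneg hp hp1 fun ω => sq_nonneg _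
    have hne : ∀ k ∈ s, i ≠ k := by
      intro k hk h
      rw [h] at hi
      exact hi hk
    -- the derivative of the average
    have hAk : ∀ k ∈ s, (fun ω => kkA p i f ω - kkA p k (kkA p i f) ω) =
        kkA p i (fun ω => f ω - kkA p k f ω) := by
      intro k hk
      funext ω
      rw [kk_A_comm (hne k hk)]
      simp only [kkA]
      ring
    have hAk' : ∀ k ∈ s, ∀ ω, kkA p i f ω - kkA p k (kkA p i f) ω =
        kkA p i (fun ω => f ω - kkA p k f ω) ω := fun k hk ω => congrFun (hAk k hk) ω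
    have hAs : ∀ ω ω', (∀ j ∈ s, ω j = ω' j) → kkA p i f ω = kkA p i f ω' := by
      intro ω ω' h
      simp only [kkA]
      have h3 : ∀ b, f (up i b ω) = f (up i b ω') := by
        intro b
        apply hf
        intro j hj
        unfold up
        by_cases hji : j = i
        · simp [hji]
        · rw [mem_insert] at hj
          simp [hji, h j (hj.resolve_left hji)]
      rw [h3, h3]
    have hab : ∀ k ∈ s, Ev p (fun ω => |kkA p i f ω - kkA p k (kkA p i f) ω|) ≤
        Ev p (fun ω => |f ω - kkA p k f ω|) := by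
      intro k hk
      simp only [hAk' k hk]
      exact kk_absA hp hp1 i _
    have hI := ih (kkA p i f) hAs (by linarith) fun k hk =>
      (hab k hk).trans (hfe k (mem_insert_of_mem hk))
    rw [kk_EvA] at hI
    -- the difference
    have hD := kk_low hp hp1 hL (fun ω => f ω - kkA p i f ω) (by linarith)
      (hfe i (mem_insert_self i s))
    have hDs : ∀ ω ω', (∀ j ∈ insert i s, ω j = ω' j) →
        f ω - kkA p i f ω = f ω' - kkA p i f ω' := by
      intro ω ω' h
      rw [hf ω ω' h, hAs ω ω' fun j hj => h j (mem_insert_of_mem hj)]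
    have hS := kk_lsi ha h1 h2 (insert i s) (fun ω => f ω - kkA p i f ω) hDs
    have hS2 : ∑ k ∈ insert i s, p * (1 - p) *
        Ev p (fun ω => kkD k (fun ω => f ω - kkA p i f ω) ω ^ 2) =
        ∑ k ∈ insert i s, Ev p (fun ω => ((f ω - kkA p i f ω) -
          kkA p k (fun ω => f ω - kkA p i f ω) ω) ^ 2) := by
      refine sum_congr rfl fun k _ => ?_
      rw [kk_dir k (fun ω => f ω - kkA p i f ω)]
    rw [hS2, sum_insert hi] at hS
    have hSi : Ev p (fun ω => ((f ω - kkA p i f ω) -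
          kkA p i (fun ω => f ω - kkA p i f ω) ω) ^ 2) = Ev p (fun ω => (f ω - kkA p i f ω) ^ 2) := by
      congr 1
      funext ω
      congr 1
      simp only [kkA, kk_up_self]
      ring
    have hSk : ∀ k ∈ s, Ev p (fun ω => (kkA p i f ω - kkA p k (kkA p i f) ω) ^ 2) +
        Ev p (fun ω => ((f ω - kkA p i f ω) - kkA p k (fun ω => f ω - kkA p i f ω) ω) ^ 2) =
        Ev p (fun ω => (f ω - kkA p k f ω) ^ 2) := by
      intro k hk
      rw [kk_pyth i (fun ω => f ω - kkA p k f ω)]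
      congr 1
      · congr 1
        funext ω
        rw [hAk' k hk ω]
      · congr 1
        funext ω
        congr 1
        rw [← hAk' k hk ω]
        simp only [kkA]
        ring
    have hsum : ∑ k ∈ s, Ev p (fun ω => (f ω - kkA p k f ω) ^ 2) =
        ∑ k ∈ s, Ev p (fun ω => (kkA p i f ω - kkA p k (kkA p i f) ω) ^ 2) +
        ∑ k ∈ s, Ev p (fun ω => ((f ω - kkA p i f ω) -
          kkA p k (fun ω => f ω - kkA p i f ω) ω) ^ 2) := by
      rw [← sum_add_distrib]
      exact sum_congr rfl fun k hk => (hSk k hk).symm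
    have hsum2 : ∑ k ∈ s, Ev p (fun ω => |kkA p i f ω - kkA p k (kkA p i f) ω|) ≤
        ∑ k ∈ s, Ev p (fun ω => |f ω - kkA p k f ω|) := sum_le_sum hab
    rw [sum_insert hi, sum_insert hi, hsum]
    rw [hSi] at hS
    have h3 : L / 2 * (Ev p (fun ω => f ω ^ 2) - Ev p f ^ 2) =
        L / 2 * (Ev p (fun ω => kkA p i f ω ^ 2) - Ev p f ^ 2) +
        L / 2 * Ev p (fun ω => (f ω - kkA p i f ω) ^ 2) := by
      rw [hpy]
      ring
    rw [h3]
    linarith

end Kkl

theorem kkl {a : ℝ} (ha : 0 < a) (ha2 : a ≤ 1 / 2) : ∃ C : ℝ, 0 < C ∧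
    ∀ (ι : Type) [Fintype ι] (p : ℝ), a ≤ p → p ≤ 1 - a → ∀ E : (ι → Bool) → Prop, Incr E →
      ∀ L : ℝ, 1 ≤ L → (∀ i, Pr p (Piv E i) ≤ Real.exp (-L)) →
        L * (Pr p E * (1 - Pr p E)) ≤ C * Infl p E := by
  refine ⟨2 * (2 / a + 1), by positivity, ?_⟩
  intro ι _ p h1 h2 E hE L hL hi
  have hp : 0 ≤ p := by linarith
  have hp1 : p ≤ 1 := by linarith
  have hpq : p * (1 - p) ≤ 1 / 4 := by nlinarith [sq_nonneg (p - 1 / 2)]
  have hpq0 : 0 ≤ p * (1 - p) := mul_nonneg hp (by linarith)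
  set f : (ι → Bool) → ℝ := fun ω => if E ω then 1 else 0 with hf
  have hPr : Ev p f = Pr p E := rfl
  have hsq : Ev p (fun ω => f ω ^ 2) = Pr p E := by
    rw [← hPr]
    congr 1
    funext ω
    simp only [hf]
    split_ifs <;> simp
  have hD : ∀ k, kkD k f = fun ω => if Piv E k ω then 1 else 0 := by
    intro k
    funext ω
    simp only [kkD, hf, Piv]
    have hmono : E (up k false ω) → E (up k true ω) := by
      apply hE
      intro j
      unfold up
      by_cases hj : j = k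
      · simp [hj]
      · simp [hj]
    by_cases h3 : E (up k true ω)
    · by_cases h4 : E (up k false ω) <;> simp [h3, h4]
    · have h4 : ¬ E (up k false ω) := fun h => h3 (hmono h)
      simp [h3, h4]
  have hDs : ∀ k, Ev p (fun ω => kkD k f ω ^ 2) = Pr p (Piv E k) := by
    intro k
    rw [hD k]
    unfold Pr
    congr 1
    funext ω
    by_cases h : Piv E k ω <;> simp [h]
  have hDa : ∀ k, Ev p (fun ω => |kkD k f ω|) = Pr p (Piv E k) := by
    intro k
    rw [hD k]
    unfold Pr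
    congr 1
    funext ω
    by_cases h : Piv E k ω <;> simp [h]
  have hP0 : ∀ k, 0 ≤ Pr p (Piv E k) := fun k => Pr_nonneg hp hp1 _
  have hab : ∀ k, Ev p (fun ω => |f ω - kkA p k f ω|) ≤ Pr p (Piv E k) := by
    intro k
    rw [kk_abs hp hp1, hDa]
    nlinarith [hP0 k]
  have hsqk : ∀ k, Ev p (fun ω => (f ω - kkA p k f ω) ^ 2) ≤ Pr p (Piv E k) := by
    intro k
    rw [kk_dir, hDs]
    nlinarith [hP0 k]
  have key := kk_main ha h1 h2 (by linarith : 0 ≤ L) univ f
    (fun ω ω' h => by rw [show ω = ω' from funext fun i => h i (mem_univ i)])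
    (by rw [hsq]; exact Pr_le_one hp hp1 _) (fun k _ => (hab k).trans (hi k))
  rw [hsq, hPr] at key
  have h3 : ∑ k, Ev p (fun ω => (f ω - kkA p k f ω) ^ 2) ≤ Infl p E := sum_le_sum fun k _ => hsqk k
  have h4 : ∑ k, Ev p (fun ω => |f ω - kkA p k f ω|) ≤ Infl p E := sum_le_sum fun k _ => hab k
  have h5 : 0 ≤ 2 / a := by positivity
  have h6 := mul_le_mul_of_nonneg_left h3 h5
  have h7 : Pr p E * (1 - Pr p E) = Pr p E - Pr p E ^ 2 := by ring
  rw [h7]
  linarith

end Pool.Agent.helper17.DyS
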