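import Pool.Agent.helper17.DyS.Defs

/-!
# The OSSS inequality for decision trees

`Pr E (1 - Pr E) ≤ ∑ i, Pr (i is queried) Pr (i is pivotal for E)` for a decision tree which computes the
increasing event `E` (repeated queries are allowed).
-/

set_option autoImplicit false
open scoped Classical
open Finset Pool.Agent.helper17.Dya

namespace Pool.Agent.helper17.DyS

section Osss

variable {ι : Type}

lemma Osss_up_at (i : ι) (b : Bool) (ω : ι → Bool) : up i b ω i = b := by
  unfold up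
  rw [if_pos rfl]

lemma Osss_up_ne {i j : ι} (h : j ≠ i) (b : Bool) (ω : ι → Bool) : up i b ω j = ω j := by
  unfold up
  rw [if_neg h]

lemma Osss_up_up (i : ι) (b c : Bool) (ω : ι → Bool) : up i b (up i c ω) = up i b ω := by
  funext j
  by_cases h : j = i
  · subst h
    rw [Osss_up_at, Osss_up_at]
  · rw [Osss_up_ne h, Osss_up_ne h, Osss_up_ne h]

lemma Osss_up_self (i : ι) (ω : ι → Bool) : up i (ω i) ω = ω := by
  funext j
  by_cases h : j = i
  · subst h
    rw [Osss_up_at]
  · rw [Osss_up_ne h]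

lemma Osss_up_comm {i j : ι} (h : j ≠ i) (b c : Bool) (ω : ι → Bool) :
    up j c (up i b ω) = up i b (up j c ω) := by
  funext k
  by_cases h1 : k = j
  · subst h1
    rw [Osss_up_at, Osss_up_ne h, Osss_up_at]
  · by_cases h2 : k = i
    · subst h2
      rw [Osss_up_ne h1, Osss_up_at, Osss_up_at]
    · rw [Osss_up_ne h1, Osss_up_ne h2, Osss_up_ne h2, Osss_up_ne h1]

/-- restriction of a tree: the coordinate `i` has the value `b` -/
noncomputable def Osss_restr (i : ι) (b : Bool) : DT ι → DT ι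
  | .leaf c => .leaf c
  | .node j F => if j = i then Osss_restr i b (F b) else .node j (fun c => Osss_restr i b (F c))

/-- depth of a tree -/
def Osss_depth : DT ι → ℕ
  | .leaf _ => 0
  | .node _ F => max (Osss_depth (F true)) (Osss_depth (F false)) + 1

lemma Osss_depth_le (F : Bool → DT ι) (b : Bool) :
    Osss_depth (F b) ≤ max (Osss_depth (F true)) (Osss_depth (F false)) := by
  cases b
  · exact le_max_right _ _
  · exact le_max_left _ _

lemma Osss_restr_depth (i : ι) (b : Bool) (T : DT ι) : Osss_depth (Osss_restr i b T) ≤ Osss_depth T := by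
  induction T with
  | leaf c => exact le_refl _
  | node j F ih =>
    unfold Osss_restr
    split_ifs with h
    · exact (ih b).trans ((Osss_depth_le F b).trans (Nat.le_succ _))
    · exact Nat.succ_le_succ (max_le_max (ih true) (ih false))

lemma Osss_restr_eval (i : ι) (b : Bool) (T : DT ι) (ω : ι → Bool) :
    (Osss_restr i b T).eval ω = T.eval (up i b ω) := by
  induction T with
  | leaf c => rfl
  | node j F ih =>
    unfold Osss_restr
    split_ifs with h
    · subst h
      rw [ih b]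
      change (F b).eval (up j b ω) = (F (up j b ω j)).eval (up j b ω)
      rw [Osss_up_at]
    · change (Osss_restr i b (F (ω j))).eval ω = (F (up i b ω j)).eval (up i b ω)
      rw [ih, Osss_up_ne h]

lemma Osss_restr_Q (i : ι) (b : Bool) (T : DT ι) (ω : ι → Bool) {k : ι} (hk : k ≠ i) :
    (Osss_restr i b T).Q ω k ↔ T.Q (up i b ω) k := by
  induction T with
  | leaf c => exact Iff.rfl
  | node j F ih =>
    unfold Osss_restr
    split_ifs with h
    · subst h
      rw [ih b]
      change (F b).Q (up j b ω) k ↔ (k = j ∨ (F (up j b ω j)).Q (up j b ω) k)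
      rw [Osss_up_at]
      constructor
      · exact fun h => Or.inr h
      · rintro (h | h)
        · exact absurd h hk
        · exact h
    · change (k = j ∨ (Osss_restr i b (F (ω j))).Q ω k) ↔ (k = j ∨ (F (up i b ω j)).Q (up i b ω) k)
      rw [ih, Osss_up_ne h]

lemma Osss_restr_Q_self (i : ι) (b : Bool) (T : DT ι) (ω : ι → Bool) : ¬ (Osss_restr i b T).Q ω i := by
  induction T with
  | leaf c => exact fun h => h
  | node j F ih =>
    unfold Osss_restr
    split_ifs with h
    · exact ih b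
    · change ¬ (i = j ∨ (Osss_restr i b (F (ω j))).Q ω i)
      rintro (h1 | h1)
      · exact h h1.symm
      · exact ih _ h1

variable [Fintype ι] {p : ℝ}

lemma Osss_wt_up (i : ι) (b : Bool) (ω : ι → Bool) :
    wb p b * wt p ω = wb p (ω i) * wt p (up i b ω) := by
  unfold wt
  rw [← Finset.mul_prod_erase univ (fun j => wb p (ω j)) (mem_univ i),
    ← Finset.mul_prod_erase univ (fun j => wb p (up i b ω j)) (mem_univ i), Osss_up_at]
  have h : ∏ j ∈ univ.erase i, wb p (up i b ω j) = ∏ j ∈ univ.erase i, wb p (ω j) :=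
    prod_congr rfl fun j hj => by rw [Osss_up_ne (ne_of_mem_erase hj)]
  rw [h]
  ring

/-- average over the coordinate `i` -/
noncomputable def Osss_A (p : ℝ) (i : ι) (g : (ι → Bool) → ℝ) : (ι → Bool) → ℝ :=
  fun ω => ∑ b : Bool, wb p b * g (up i b ω)

lemma Osss_Ev_A (i : ι) (g : (ι → Bool) → ℝ) : Ev p (Osss_A p i g) = Ev p g := by
  have h1 : Ev p (Osss_A p i g) = ∑ q : Bool × (ι → Bool), wb p q.1 * wt p q.2 * g (up i q.1 q.2) := by
    rw [Fintype.sum_prod_type_right]
    unfold Ev Osss_A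
    refine sum_congr rfl fun ω _ => ?_
    rw [mul_sum]
    exact sum_congr rfl fun b _ => by ring
  have h2 : Ev p g = ∑ q : Bool × (ι → Bool), wb p q.1 * wt p q.2 * g q.2 := by
    rw [Fintype.sum_prod_type_right]
    unfold Ev
    refine sum_congr rfl fun ω _ => ?_
    simp only
    rw [← sum_mul, ← sum_mul, sum_wb, one_mul]
  rw [h1, h2]
  refine Finset.sum_nbij' (fun q => (q.2 i, up i q.1 q.2)) (fun q => (q.2 i, up i q.1 q.2))
    (fun _ _ => mem_univ _) (fun _ _ => mem_univ _) ?_ ?_ ?_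
  · rintro ⟨b, ω⟩ _
    simp only [Osss_up_at, Osss_up_up, Osss_up_self]
  · rintro ⟨b, ω⟩ _
    simp only [Osss_up_at, Osss_up_up, Osss_up_self]
  · rintro ⟨b, ω⟩ _
    simp only
    rw [Osss_wt_up]

omit [Fintype ι] in
lemma Osss_A_up (i : ι) (c : Bool) (g : (ι → Bool) → ℝ) (ω : ι → Bool) :
    Osss_A p i g (up i c ω) = Osss_A p i g ω := by
  unfold Osss_A
  exact sum_congr rfl fun b _ => by rw [Osss_up_up]

lemma Osss_Ev_mul_A (i : ι) (f g : (ι → Bool) → ℝ) :
    Ev p (fun ω => f ω * Osss_A p i g ω) = ∑ b : Bool, wb p b * Ev p (fun ω => f (up i b ω) * Osss_A p i g ω) := by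
  rw [← Osss_Ev_A i (fun ω => f ω * Osss_A p i g ω)]
  unfold Ev
  simp only [mul_sum]
  rw [sum_comm]
  refine sum_congr rfl fun ω _ => ?_
  have h : Osss_A p i (fun ω => f ω * Osss_A p i g ω) ω =
      ∑ b : Bool, wb p b * (f (up i b ω) * Osss_A p i g (up i b ω)) := rfl
  rw [h, mul_sum]
  refine sum_congr rfl fun b _ => ?_
  rw [Osss_A_up]
  ring

lemma Osss_Ev_split (i : ι) (f : (ι → Bool) → ℝ) :
    Ev p f = ∑ b : Bool, wb p b * Ev p (fun ω => f (up i b ω)) := by
  rw [← Osss_Ev_A i f]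
  unfold Ev Osss_A
  simp only [mul_sum]
  rw [sum_comm]
  refine sum_congr rfl fun ω _ => ?_
  refine sum_congr rfl fun b _ => ?_
  ring

/-- the `L¹` influence -/
noncomputable def Osss_I (p : ℝ) (j : ι) (g : (ι → Bool) → ℝ) : ℝ :=
  Ev p (fun ω => |g ω - Osss_A p j g ω|)

lemma Osss_Ev_nonneg (h0 : 0 ≤ p) (h1 : p ≤ 1) {f : (ι → Bool) → ℝ} (h : ∀ ω, 0 ≤ f ω) : 0 ≤ Ev p f :=
  sum_nonneg fun ω _ => mul_nonneg (wt_nonneg h0 h1 ω) (h ω)

lemma Osss_I_nonneg (h0 : 0 ≤ p) (h1 : p ≤ 1) (j : ι) (g : (ι → Bool) → ℝ) : 0 ≤ Osss_I p j g :=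
  Osss_Ev_nonneg h0 h1 fun _ => abs_nonneg _

lemma Osss_I_A_le (h0 : 0 ≤ p) (h1 : p ≤ 1) {i j : ι} (hij : j ≠ i) (g : (ι → Bool) → ℝ) :
    Osss_I p j (Osss_A p i g) ≤ Osss_I p j g := by
  have h2 : Osss_I p j g = Ev p (Osss_A p i (fun ω => |g ω - Osss_A p j g ω|)) := by
    rw [Osss_Ev_A]
    rfl
  rw [h2]
  refine Ev_mono h0 h1 fun ω => ?_
  have h3 : Osss_A p i g ω - Osss_A p j (Osss_A p i g) ω =
      ∑ b : Bool, wb p b * (g (up i b ω) - Osss_A p j g (up i b ω)) := by
    unfold Osss_A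
    simp only [mul_sub, sum_sub_distrib, mul_sum]
    congr 1
    rw [sum_comm]
    refine sum_congr rfl fun b _ => sum_congr rfl fun c _ => ?_
    rw [Osss_up_comm hij b c ω]
    ring
  rw [h3]
  refine (Finset.abs_sum_le_sum_abs _ _).trans (le_of_eq ?_)
  unfold Osss_A
  refine sum_congr rfl fun b _ => ?_
  rw [abs_mul, abs_of_nonneg (wb_nonneg h0 h1 b)]

/-- the value of a tree as a real number -/
noncomputable def Osss_f (T : DT ι) (ω : ι → Bool) : ℝ := if T.eval ω = true then 1 else 0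

omit [Fintype ι] in
lemma Osss_f_abs (T : DT ι) (ω : ι → Bool) : |Osss_f T ω| ≤ 1 := by
  unfold Osss_f
  split_ifs <;> norm_num

lemma Osss_Ev_abs (h0 : 0 ≤ p) (h1 : p ≤ 1) (f : (ι → Bool) → ℝ) : |Ev p f| ≤ Ev p (fun ω => |f ω|) := by
  unfold Ev
  refine (Finset.abs_sum_le_sum_abs _ _).trans (le_of_eq ?_)
  refine sum_congr rfl fun ω _ => ?_
  rw [abs_mul, abs_of_nonneg (wt_nonneg h0 h1 ω)]

lemma Osss_Ev_const (c : ℝ) : Ev p (fun _ : ι → Bool => c) = c := by
  unfold Ev
  rw [← sum_mul, sum_wt, one_mul]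

lemma Osss_leaf (h0 : 0 ≤ p) (h1 : p ≤ 1) (c : Bool) (g : (ι → Bool) → ℝ) :
    |Ev p (fun ω => Osss_f (DT.leaf c) ω * g ω) - Ev p (Osss_f (DT.leaf c : DT ι)) * Ev p g| ≤
      ∑ j, Pr p (fun ω : ι → Bool => (DT.leaf c).Q ω j) * Osss_I p j g := by
  obtain ⟨v, hv⟩ : ∃ v : ℝ, ∀ ω : ι → Bool, Osss_f (DT.leaf c) ω = v :=
    ⟨if c = true then 1 else 0, fun ω => rfl⟩
  have h2 : Ev p (Osss_f (DT.leaf c : DT ι)) = v := by
    have : Osss_f (DT.leaf c : DT ι) = fun _ => v := funext hv
    rw [this, Osss_Ev_const]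
  have h3 : Ev p (fun ω => Osss_f (DT.leaf c) ω * g ω) = v * Ev p g := by
    unfold Ev
    rw [mul_sum]
    refine sum_congr rfl fun ω _ => ?_
    simp only [hv]
    ring
  rw [h2, h3, sub_self, abs_zero]
  exact sum_nonneg fun j _ => mul_nonneg (Pr_nonneg h0 h1 _) (Osss_I_nonneg h0 h1 j g)

lemma Osss_node (h0 : 0 ≤ p) (h1 : p ≤ 1) (i : ι) (F : Bool → DT ι) (g : (ι → Bool) → ℝ)
    (ih : ∀ b, |Ev p (fun ω => Osss_f (Osss_restr i b (F b)) ω * Osss_A p i g ω) -
        Ev p (Osss_f (Osss_restr i b (F b))) * Ev p (Osss_A p i g)| ≤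
      ∑ j, Pr p (fun ω => (Osss_restr i b (F b)).Q ω j) * Osss_I p j (Osss_A p i g)) :
    |Ev p (fun ω => Osss_f (DT.node i F) ω * g ω) - Ev p (Osss_f (DT.node i F)) * Ev p g| ≤
      ∑ j, Pr p (fun ω => (DT.node i F).Q ω j) * Osss_I p j g := by
  have hf : ∀ (b : Bool) (ω : ι → Bool), Osss_f (DT.node i F) (up i b ω) = Osss_f (Osss_restr i b (F b)) ω := by
    intro b ω
    unfold Osss_f
    rw [Osss_restr_eval]
    have : (DT.node i F).eval (up i b ω) = (F b).eval (up i b ω) := by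
      change (F (up i b ω i)).eval (up i b ω) = _
      rw [Osss_up_at]
    rw [this]
  have e1 : Ev p (fun ω => Osss_f (DT.node i F) ω * g ω) =
      Ev p (fun ω => Osss_f (DT.node i F) ω * (g ω - Osss_A p i g ω)) +
      Ev p (fun ω => Osss_f (DT.node i F) ω * Osss_A p i g ω) := by
    rw [← Ev_add]
    congr 1
    funext ω
    ring
  have e2 : Ev p (fun ω => Osss_f (DT.node i F) ω * Osss_A p i g ω) =
      ∑ b : Bool, wb p b * Ev p (fun ω => Osss_f (Osss_restr i b (F b)) ω * Osss_A p i g ω) := by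
    rw [Osss_Ev_mul_A]
    refine sum_congr rfl fun b _ => ?_
    simp only [hf]
  have e3 : Ev p (Osss_f (DT.node i F)) = ∑ b : Bool, wb p b * Ev p (Osss_f (Osss_restr i b (F b))) := by
    rw [Osss_Ev_split i]
    refine sum_congr rfl fun b _ => ?_
    simp only [hf]
  have e4 : Ev p g = Ev p (Osss_A p i g) := (Osss_Ev_A i g).symm
  have b1 : |Ev p (fun ω => Osss_f (DT.node i F) ω * (g ω - Osss_A p i g ω))| ≤ Osss_I p i g := by
    refine (Osss_Ev_abs h0 h1 _).trans (Ev_mono h0 h1 fun ω => ?_)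
    rw [abs_mul]
    have := Osss_f_abs (DT.node i F) ω
    have h2 := abs_nonneg (g ω - Osss_A p i g ω)
    nlinarith
  have e5 : Ev p (fun ω => Osss_f (DT.node i F) ω * g ω) - Ev p (Osss_f (DT.node i F)) * Ev p g =
      Ev p (fun ω => Osss_f (DT.node i F) ω * (g ω - Osss_A p i g ω)) +
      ∑ b : Bool, wb p b * (Ev p (fun ω => Osss_f (Osss_restr i b (F b)) ω * Osss_A p i g ω) -
        Ev p (Osss_f (Osss_restr i b (F b))) * Ev p (Osss_A p i g)) := by
    rw [e1, e2, e3, e4, sum_mul]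
    simp only [mul_sub, sum_sub_distrib, mul_assoc]
    ring
  have b2 : |∑ b : Bool, wb p b * (Ev p (fun ω => Osss_f (Osss_restr i b (F b)) ω * Osss_A p i g ω) -
        Ev p (Osss_f (Osss_restr i b (F b))) * Ev p (Osss_A p i g))| ≤
      ∑ b : Bool, wb p b * ∑ j, Pr p (fun ω => (Osss_restr i b (F b)).Q ω j) * Osss_I p j (Osss_A p i g) := by
    refine (Finset.abs_sum_le_sum_abs _ _).trans (sum_le_sum fun b _ => ?_)
    rw [abs_mul, abs_of_nonneg (wb_nonneg h0 h1 b)]
    exact mul_le_mul_of_nonneg_left (ih b) (wb_nonneg h0 h1 b)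
  have e6 : ∑ b : Bool, wb p b * ∑ j, Pr p (fun ω => (Osss_restr i b (F b)).Q ω j) * Osss_I p j (Osss_A p i g) =
      ∑ j, (∑ b : Bool, wb p b * Pr p (fun ω => (Osss_restr i b (F b)).Q ω j)) * Osss_I p j (Osss_A p i g) := by
    simp only [mul_sum, sum_mul]
    rw [sum_comm]
    refine sum_congr rfl fun j _ => sum_congr rfl fun b _ => ?_
    ring
  have e7 : Osss_I p i g = ∑ j, (if j = i then Osss_I p j g else 0) := by
    rw [Finset.sum_ite_eq']
    simp
  rw [e5]
  refine (abs_add_le _ _).trans ((add_le_add b1 b2).trans ?_)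
  rw [e6, e7, ← sum_add_distrib]
  refine sum_le_sum fun j _ => ?_
  by_cases hj : j = i
  · subst hj
    rw [if_pos rfl]
    have q1 : Pr p (fun ω => (DT.node j F).Q ω j) = 1 := by
      have q3 : Pr p (fun ω => (DT.node j F).Q ω j) = Pr p (fun _ : ι → Bool => True) :=
        Pr_congr (fun ω => ⟨fun _ => trivial, fun _ => Or.inl rfl⟩)
      rw [q3, Pr_true]
    have q2 : ∀ b, Pr p (fun ω => (Osss_restr j b (F b)).Q ω j) = 0 := by
      intro b
      unfold Pr Ev
      refine sum_eq_zero fun ω _ => ?_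
      simp only
      rw [if_neg (Osss_restr_Q_self j b (F b) ω), mul_zero]
    rw [q1]
    simp only [q2, mul_zero, sum_const_zero, zero_mul, add_zero, one_mul]
    exact le_refl _
  · rw [if_neg hj, zero_add]
    have q1 : Pr p (fun ω => (DT.node i F).Q ω j) =
        ∑ b : Bool, wb p b * Pr p (fun ω => (Osss_restr i b (F b)).Q ω j) := by
      have q2 : Pr p (fun ω => (DT.node i F).Q ω j) =
          ∑ b : Bool, wb p b * Pr p (fun ω => (DT.node i F).Q (up i b ω) j) :=
        Osss_Ev_split i (fun ω => if (DT.node i F).Q ω j then 1 else 0)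
      rw [q2]
      refine sum_congr rfl fun b _ => ?_
      congr 1
      refine Pr_congr fun ω => ?_
      rw [Osss_restr_Q i b (F b) ω hj]
      change (j = i ∨ (F (up i b ω i)).Q (up i b ω) j) ↔ _
      rw [Osss_up_at]
      constructor
      · rintro (h | h)
        · exact absurd h hj
        · exact h
      · exact fun h => Or.inr h
    rw [q1]
    refine mul_le_mul_of_nonneg_left (Osss_I_A_le h0 h1 hj g) ?_
    exact sum_nonneg fun b _ => mul_nonneg (wb_nonneg h0 h1 b) (Pr_nonneg h0 h1 _)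

lemma Osss_main (h0 : 0 ≤ p) (h1 : p ≤ 1) (n : ℕ) : ∀ (T : DT ι), Osss_depth T ≤ n →
    ∀ g : (ι → Bool) → ℝ, |Ev p (fun ω => Osss_f T ω * g ω) - Ev p (Osss_f T) * Ev p g| ≤
      ∑ j, Pr p (fun ω => T.Q ω j) * Osss_I p j g := by
  induction n with
  | zero =>
    intro T hT g
    cases T with
    | leaf c => exact Osss_leaf h0 h1 c g
    | node i F =>
      exfalso
      unfold Osss_depth at hT
      omega
  | succ n ih =>
    intro T hT g
    cases T with
    | leaf c => exact Osss_leaf h0 h1 c g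
    | node i F =>
      refine Osss_node h0 h1 i F g fun b => ih _ ?_ _
      have h2 : max (Osss_depth (F true)) (Osss_depth (F false)) + 1 ≤ n + 1 := hT
      exact (Osss_restr_depth i b (F b)).trans ((Osss_depth_le F b).trans (Nat.le_of_succ_le_succ h2))

lemma Osss_I_le (h0 : 0 ≤ p) (h1 : p ≤ 1) {E : (ι → Bool) → Prop} (hE : Incr E) (j : ι) :
    Osss_I p j (fun ω => if E ω then 1 else 0) ≤ Pr p (Piv E j) := by
  refine Ev_mono h0 h1 fun ω => ?_
  have hA : Osss_A p j (fun ω => if E ω then (1 : ℝ) else 0) ω =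
      p * (if E (up j true ω) then (1 : ℝ) else 0) + (1 - p) * (if E (up j false ω) then (1 : ℝ) else 0) := by
    unfold Osss_A
    rw [Fintype.sum_bool]
    simp [wb]
  have hle : up j false ω ≤ up j true ω := by
    intro k
    unfold up
    split_ifs
    · exact Bool.false_le true
    · exact le_refl _
  have hself : ω = up j true ω ∨ ω = up j false ω := by
    have h2 := Osss_up_self j ω
    cases h3 : ω j
    · right
      rw [h3] at h2
      exact h2.symm
    · left
      rw [h3] at h2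
      exact h2.symm
  rw [hA]
  simp only
  by_cases ht : E (up j true ω)
  · by_cases hf : E (up j false ω)
    · have hω : E ω := by
        rcases hself with h | h
        · rw [h]; exact ht
        · rw [h]; exact hf
      rw [if_pos ht, if_pos hf, if_pos hω]
      have : (1 : ℝ) - (p * 1 + (1 - p) * 1) = 0 := by ring
      rw [this, abs_zero]
      split_ifs <;> norm_num
    · rw [if_pos ht, if_neg hf, if_pos (show Piv E j ω from ⟨ht, hf⟩)]
      split_ifs
      · rw [abs_le]
        constructor <;> linarith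
      · rw [abs_le]
        constructor <;> linarith
  · have hf : ¬ E (up j false ω) := fun h => ht (hE _ _ hle h)
    have hω : ¬ E ω := by
      rcases hself with h | h
      · rw [h]; exact ht
      · rw [h]; exact hf
    rw [if_neg ht, if_neg hf, if_neg hω]
    have : (0 : ℝ) - (p * 0 + (1 - p) * 0) = 0 := by ring
    rw [this, abs_zero]
    split_ifs <;> norm_num

end Osss

/-- the OSSS inequality -/
theorem osss {ι : Type} [Fintype ι] {p : ℝ} (h0 : 0 ≤ p) (h1 : p ≤ 1) {E : (ι → Bool) → Prop} (hE : Incr E)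
    (T : DT ι) (hT : ∀ ω, T.eval ω = true ↔ E ω) :
    Pr p E * (1 - Pr p E) ≤ ∑ i, Pr p (fun ω => T.Q ω i) * Pr p (Piv E i) := by
  have h2 := Osss_main h0 h1 (Osss_depth T) T (le_refl _) (fun ω => if E ω then (1 : ℝ) else 0)
  have h3 : Osss_f T = fun ω => if E ω then (1 : ℝ) else 0 := by
    funext ω
    unfold Osss_f
    by_cases h : E ω
    · rw [if_pos h, if_pos ((hT ω).2 h)]
    · rw [if_neg h, if_neg (fun h' => h ((hT ω).1 h'))]
  have h4 : Ev p (fun ω => Osss_f T ω * (if E ω then (1 : ℝ) else 0)) = Pr p E := by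
    unfold Pr
    congr 1
    funext ω
    rw [h3]
    by_cases h : E ω
    · simp [h]
    · simp [h]
  have h5 : Ev p (Osss_f T) = Pr p E := by
    rw [h3]
    rfl
  have h6 : Ev p (fun ω => if E ω then (1 : ℝ) else 0) = Pr p E := rfl
  rw [h4, h5, h6] at h2
  calc Pr p E * (1 - Pr p E) = Pr p E - Pr p E * Pr p E := by ring
    _ ≤ |Pr p E - Pr p E * Pr p E| := le_abs_self _
    _ ≤ ∑ j, Pr p (fun ω => T.Q ω j) * Osss_I p j (fun ω => if E ω then (1 : ℝ) else 0) := h2
    _ ≤ ∑ i, Pr p (fun ω => T.Q ω i) * Pr p (Piv E i) :=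
      sum_le_sum fun j _ => mul_le_mul_of_nonneg_left (Osss_I_le h0 h1 hE j) (Pr_nonneg h0 h1 _)

end Pool.Agent.helper17.DyS
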