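import Pool.Agent.helper17.DyS.Search
import Pool.Agent.helper64.DyS.Kkl64

/-!
# Resampling a group of coordinates
-/

set_option autoImplicit false
open scoped Classical
open Finset Pool.Agent.helper17.Dya

namespace Pool.Agent.helper17.DyS

open Pool.Agent.helper64.DyS (Av Dv AvL AvL_up Ev_AvL ls_list abs_Dv_le)

section

variable {ι : Type} [Fintype ι] {p : ℝ}

omit [Fintype ι] in
lemma Av_eq (i : ι) (g : (ι → Bool) → ℝ) : Av p i g = Osss_A p i g := by
  funext ω
  unfold Av Osss_A
  rw [Fintype.sum_bool]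
  simp [wb]

lemma I_AvL_le (h0 : 0 ≤ p) (h1 : p ≤ 1) (j : ι) (l : List ι) :
    ∀ g : (ι → Bool) → ℝ, j ∉ l → Osss_I p j (AvL p l g) ≤ Osss_I p j g := by
  induction l with
  | nil => intro g _; exact le_refl _
  | cons i l ih =>
    intro g hj
    rw [List.mem_cons, not_or] at hj
    refine (ih (Av p i g) hj.2).trans ?_
    rw [Av_eq]
    exact Osss_I_A_le h0 h1 hj.1 g

lemma I_AvL_zero (j : ι) (l : List ι) (g : (ι → Bool) → ℝ) (hj : j ∈ l) :
    Osss_I p j (AvL p l g) = 0 := by
  have h1 : Osss_A p j (AvL p l g) = AvL p l g := by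
    funext ω
    unfold Osss_A
    rw [Fintype.sum_bool, AvL_up l g j hj, AvL_up l g j hj]
    simp [wb]
    ring
  unfold Osss_I
  rw [h1]
  unfold Ev
  simp

/-- the covariance of an event and its copy with resampled coordinates in `l` -/
lemma cov_AvL (h0 : 0 ≤ p) (h1 : p ≤ 1) {E : (ι → Bool) → Prop} (hE : Incr E) (T : DT ι)
    (hT : ∀ ω, T.eval ω = true ↔ E ω) (l : List ι) {r : ℝ} (hr : 0 ≤ r)
    (hQ : ∀ j, j ∉ l → Pr p (fun ω => T.Q ω j) ≤ r) :
    Ev p (fun ω => (if E ω then (1 : ℝ) else 0) * AvL p l (fun ω => if E ω then 1 else 0) ω) -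
      Pr p E ^ 2 ≤ r * Infl p E := by
  have h2 := Osss_main h0 h1 (Osss_depth T) T (le_refl _)
    (AvL p l (fun ω => if E ω then (1 : ℝ) else 0))
  have h3 : Osss_f T = fun ω => if E ω then (1 : ℝ) else 0 := by
    funext ω
    unfold Osss_f
    by_cases h : E ω
    · rw [if_pos h, if_pos ((hT ω).2 h)]
    · rw [if_neg h, if_neg fun hh => h ((hT ω).1 hh)]
  rw [h3, Ev_AvL] at h2
  have h4 : Ev p (fun ω => if E ω then (1 : ℝ) else 0) = Pr p E := rfl
  rw [h4, ← sq] at h2
  refine (le_abs_self _).trans (h2.trans ?_)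
  unfold Infl
  rw [mul_sum]
  refine sum_le_sum fun j _ => ?_
  by_cases hj : j ∈ l
  · rw [I_AvL_zero j l _ hj, mul_zero]
    exact mul_nonneg hr (Pr_nonneg h0 h1 _)
  · exact mul_le_mul (hQ j hj) ((I_AvL_le h0 h1 j l _ hj).trans (Osss_I_le h0 h1 hE j))
      (Osss_I_nonneg h0 h1 j _) hr

omit [Fintype ι] in
lemma AvL_one_sub (l : List ι) : ∀ (f : (ι → Bool) → ℝ) (c : ℝ),
    AvL p l (fun ω => c - f ω) = fun ω => c - AvL p l f ω := by
  induction l with
  | nil => intro f c; rfl
  | cons i l ih =>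
    intro f c
    show AvL p l (Av p i fun ω => c - f ω) = fun ω => c - AvL p l (Av p i f) ω
    rw [← ih]
    congr 1
    funext ω
    unfold Av
    ring

/-- the logarithmic Sobolev inequality for a group of coordinates -/
lemma group {a : ℝ} (ha : 0 < a) (hp : a ≤ p) (hp1 : p ≤ 1 - a) {E : (ι → Bool) → Prop}
    (hE : Incr E) (T : DT ι) (hT : ∀ ω, T.eval ω = true ↔ E ω) (l : List ι) {r : ℝ} (hr : 0 ≤ r)
    (hQ : ∀ j, j ∉ l → Pr p (fun ω => T.Q ω j) ≤ r) (L : ℝ) :
    L * (1 - Pr p E) ≤ 2 / a * (l.map fun i => Pr p (Piv E i)).sum +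
      Real.exp L * ((1 - Pr p E) ^ 2 + r * Infl p E) := by
  have h0 : 0 < p := by linarith
  have h1 : p < 1 := by linarith
  set f : (ι → Bool) → ℝ := fun ω => if E ω then 1 else 0 with hf
  set g : (ι → Bool) → ℝ := fun ω => 1 - f ω with hg
  have hg2 : ∀ ω, g ω ^ 2 = g ω := by
    intro ω
    by_cases h : E ω <;> simp [hg, hf, h]
  have hg0 : ∀ ω, 0 ≤ g ω := by
    intro ω
    by_cases h : E ω <;> simp [hg, hf, h]
  have hEf : Ev p f = Pr p E := rfl
  have hEg : Ev p g = 1 - Pr p E := by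
    rw [hg, Ev_sub (fun _ => 1) f, Ev_one, hEf]
  have hη := Real.exp_pos (-L)
  have h2 := ls_list ha hp hp1 g l (fun ω => g ω + Real.exp (-L)) (fun ω => by
    have := hg0 ω
    linarith)
  -- the left side is nonnegative
  have h3 : 0 ≤ Ev p (fun ω => g ω ^ 2 * Real.log (g ω + Real.exp (-L))) := by
    refine Osss_Ev_nonneg h0.le h1.le fun ω => ?_
    rw [hg2]
    by_cases h : E ω
    · simp [hg, hf, h]
    · have : g ω = 1 := by simp [hg, hf, h]
      rw [this, one_mul]
      exact Real.log_nonneg (by linarith)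
  -- the differences
  have h4 : (l.map fun i => Ev p (fun ω => Dv p i g ω ^ 2)).sum ≤
      (l.map fun i => Pr p (Piv E i)).sum := by
    refine List.sum_le_sum fun i _ => ?_
    refine Ev_mono h0.le h1.le fun ω => ?_
    have h5 := abs_Dv_le hE h0.le h1.le i ω
    have h6 : Dv p i g ω = -Dv p i f ω := by
      unfold Dv Av
      rw [hg]
      ring
    rw [h6, neg_sq, ← sq_abs]
    have h7 := abs_nonneg (Dv p i f ω)
    by_cases hP : Piv E i ω
    · rw [if_pos hP] at h5 ⊢
      nlinarith
    · rw [if_neg hP] at h5 ⊢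
      have : |Dv p i f ω| = 0 := le_antisymm h5 h7
      rw [this]
      norm_num
  -- the averaged function
  have h8 : AvL p l (fun ω => g ω + Real.exp (-L)) = fun ω => AvL p l g ω + Real.exp (-L) := by
    have e1 : (fun ω => g ω + Real.exp (-L)) = fun ω => (1 + Real.exp (-L)) - f ω := by
      funext ω
      rw [hg]
      ring
    rw [e1, AvL_one_sub, hg, AvL_one_sub]
    funext ω
    ring
  have h9 : Ev p (fun ω => g ω ^ 2 * Real.log (AvL p l (fun ω => g ω + Real.exp (-L)) ω)) ≤
      Ev p (fun ω => Real.exp L * (g ω * AvL p l g ω) - L * g ω) := by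
    refine Ev_mono h0.le h1.le fun ω => ?_
    rw [h8, hg2]
    by_cases h : E ω
    · simp [hg, hf, h]
    · have e2 : g ω = 1 := by simp [hg, hf, h]
      rw [e2]
      simp only [one_mul, mul_one]
      have e3 : 0 ≤ AvL p l g ω := by
        have e4 : ∀ (l : List ι) (u : (ι → Bool) → ℝ), (∀ ω, 0 ≤ u ω) → ∀ ω, 0 ≤ AvL p l u ω := by
          intro l
          induction l with
          | nil => intro u hu; exact hu
          | cons i l ih =>
            intro u hu
            refine ih (Av p i u) fun ω => ?_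
            unfold Av
            exact add_nonneg (mul_nonneg h0.le (hu _)) (mul_nonneg (by linarith) (hu _))
        exact e4 l g hg0 ω
      have e5 : 0 < AvL p l g ω + Real.exp (-L) := by linarith
      have e6 : AvL p l g ω + Real.exp (-L) =
          (Real.exp L * AvL p l g ω + 1) * Real.exp (-L) := by
        rw [add_mul, one_mul, mul_assoc, mul_comm (AvL p l g ω), ← mul_assoc, ← Real.exp_add]
        simp
      rw [e6, Real.log_mul (by positivity) (by positivity), Real.log_exp]
      have e7 : 0 < Real.exp L * AvL p l g ω + 1 := by positivity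
      have e8 := Real.log_le_sub_one_of_pos e7
      linarith
  have h10 : Ev p (fun ω => Real.exp L * (g ω * AvL p l g ω) - L * g ω) =
      Real.exp L * Ev p (fun ω => g ω * AvL p l g ω) - L * (1 - Pr p E) := by
    rw [Ev_sub, ← hEg]
    unfold Ev
    rw [mul_sum, mul_sum]
    congr 1 <;> exact sum_congr rfl fun ω _ => by ring
  have h11 : Ev p (fun ω => g ω * AvL p l g ω) ≤ (1 - Pr p E) ^ 2 + r * Infl p E := by
    have e1 := cov_AvL h0.le h1.le hE T hT l hr hQ
    have e2 : Ev p (fun ω => g ω * AvL p l g ω) =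
        Ev p (fun ω => f ω * AvL p l f ω) + (1 - Pr p E - Pr p E) := by
      have e3 : (fun ω => g ω * AvL p l g ω) =
          fun ω => f ω * AvL p l f ω + ((1 - f ω) - AvL p l f ω) := by
        funext ω
        rw [hg, AvL_one_sub]
        ring
      rw [e3, Ev_add, Ev_sub, Ev_sub (fun _ => 1) f, Ev_one, hEf, Ev_AvL, hEf]
    rw [e2]
    have e3 : Ev p (fun ω => f ω * AvL p l f ω) - Pr p E ^ 2 ≤ r * Infl p E := e1
    nlinarith
  have h12 := Real.exp_pos L
  have h13 : (0 : ℝ) < 2 / a := by positivity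
  have h14 := mul_le_mul_of_nonneg_left h4 h13.le
  have h15 := mul_le_mul_of_nonneg_left h11 h12.le
  linarith

end

end Pool.Agent.helper17.DyS
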