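import Pool.Agent.helper17.DyS.Defs

/-!
# Russo's formula and its consequences
-/

set_option autoImplicit false
open scoped Classical
open Finset Pool.Agent.helper17.Dya

namespace Pool.Agent.helper17.DyS

lemma up_up {ι : Type} (i : ι) (b c : Bool) (ω : ι → Bool) : up i b (up i c ω) = up i b ω := by
  funext j
  unfold up
  by_cases h : j = i <;> simp [h]

lemma up_self {ι : Type} (i : ι) (b : Bool) (ω : ι → Bool) : up i b ω i = b := by
  simp [up]

lemma up_ne {ι : Type} {i j : ι} (h : j ≠ i) (b : Bool) (ω : ι → Bool) : up i b ω j = ω j := by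
  simp [up, h]

lemma up_eq {ι : Type} {i : ι} {b : Bool} {ω : ι → Bool} (h : ω i = b) : up i b ω = ω := by
  funext j
  by_cases hj : j = i
  · rw [hj, up_self, h]
  · rw [up_ne hj]

lemma up_mono {ι : Type} (i : ι) (ω : ι → Bool) : up i false ω ≤ up i true ω := by
  intro j
  by_cases h : j = i
  · rw [h, up_self, up_self]
    exact Bool.false_le _
  · rw [up_ne h, up_ne h]

lemma Piv_up {ι : Type} (E : (ι → Bool) → Prop) (i : ι) (b : Bool) (ω : ι → Bool) :
    Piv E i (up i b ω) ↔ Piv E i ω := by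
  unfold Piv
  rw [up_up, up_up]

/-- summation over pairs of configurations which differ at most in the coordinate `i` -/
lemma sum_pair {ι : Type} [Fintype ι] (i : ι) (g : (ι → Bool) → ℝ) :
    2 * ∑ ω, g ω = ∑ ω, (g (up i true ω) + g (up i false ω)) := by
  have hs : Function.Involutive fun ω : ι → Bool => up i (!(ω i)) ω := by
    intro ω
    show up i (!(up i (!(ω i)) ω i)) (up i (!(ω i)) ω) = ω
    rw [up_self, up_up, Bool.not_not]
    exact up_eq rfl
  have h1 : ∑ ω : ι → Bool, g (up i (!(ω i)) ω) = ∑ ω, g ω :=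
    Equiv.sum_comp (Function.Involutive.toPerm _ hs) g
  have h2 : 2 * ∑ ω, g ω = ∑ ω, (g ω + g (up i (!(ω i)) ω)) := by
    rw [sum_add_distrib, h1, two_mul]
  rw [h2]
  refine sum_congr rfl fun ω _ => ?_
  cases h : ω i with
  | false =>
    rw [Bool.not_false, up_eq h, add_comm]
  | true =>
    rw [Bool.not_true, up_eq h]

/-- the derivative of the weight of a bit -/
noncomputable def sg (b : Bool) : ℝ := if b then 1 else -1

lemma hasDerivAt_wb (b : Bool) (p : ℝ) : HasDerivAt (fun q => wb q b) (sg b) p := by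
  cases b with
  | false =>
    simpa [wb, sg] using (hasDerivAt_id p).const_sub 1
  | true =>
    simpa [wb, sg] using hasDerivAt_id' p

lemma hasDerivAt_wt {ι : Type} [Fintype ι] (ω : ι → Bool) (p : ℝ) :
    HasDerivAt (fun q => wt q ω) (∑ i, (∏ j ∈ univ.erase i, wb p (ω j)) * sg (ω i)) p := by
  have h := HasDerivAt.fun_finsetProd (u := (univ : Finset ι)) (f := fun i q => wb q (ω i))
    (f' := fun i => sg (ω i)) (x := p) fun i _ => hasDerivAt_wb (ω i) p
  simpa [wt, smul_eq_mul] using h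

lemma prod_erase_up {ι : Type} [Fintype ι] (i : ι) (b : Bool) (ω : ι → Bool) (p : ℝ) :
    ∏ j ∈ univ.erase i, wb p (up i b ω j) = ∏ j ∈ univ.erase i, wb p (ω j) := by
  refine prod_congr rfl fun j hj => ?_
  rw [up_ne (ne_of_mem_erase hj)]

lemma wt_erase {ι : Type} [Fintype ι] (i : ι) (ω : ι → Bool) (p : ℝ) :
    wt p ω = wb p (ω i) * ∏ j ∈ univ.erase i, wb p (ω j) := by
  unfold wt
  exact (mul_prod_erase univ (fun j => wb p (ω j)) (mem_univ i)).symm

/-- the derivative in the direction of one coordinate -/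
lemma sum_sg {ι : Type} [Fintype ι] {E : (ι → Bool) → Prop} (hE : Incr E) (p : ℝ) (i : ι) :
    ∑ ω, (∏ j ∈ univ.erase i, wb p (ω j)) * sg (ω i) * (if E ω then 1 else 0) =
      Pr p (Piv E i) := by
  have h2 : (2 : ℝ) ≠ 0 := two_ne_zero
  refine mul_left_cancel₀ h2 ?_
  rw [Pr_eq, sum_pair i, sum_pair i]
  refine sum_congr rfl fun ω _ => ?_
  have hm : E (up i false ω) → E (up i true ω) := hE _ _ (up_mono i ω)
  rw [wt_erase i (up i true ω), wt_erase i (up i false ω)]
  simp only [prod_erase_up, up_self, Piv_up]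
  have e1 : sg true = 1 := by simp [sg]
  have e2 : sg false = -1 := by simp [sg]
  have e3 : wb p true = p := by simp [wb]
  have e4 : wb p false = 1 - p := by simp [wb]
  rw [e1, e2, e3, e4]
  by_cases h3 : E (up i true ω)
  · by_cases h4 : E (up i false ω)
    · have h5 : ¬ Piv E i ω := fun h => h.2 h4
      rw [if_pos h3, if_pos h4, if_neg h5]
      ring
    · have h5 : Piv E i ω := ⟨h3, h4⟩
      rw [if_pos h3, if_neg h4, if_pos h5]
      ring
  · have h4 : ¬ E (up i false ω) := fun h => h3 (hm h)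
    have h5 : ¬ Piv E i ω := fun h => h3 h.1
    rw [if_neg h3, if_neg h4, if_neg h5]
    ring

/-- Russo's formula -/
theorem russo {ι : Type} [Fintype ι] {E : (ι → Bool) → Prop} (hE : Incr E) (p : ℝ) :
    HasDerivAt (fun q => Pr q E) (Infl p E) p := by
  have h1 : HasDerivAt (fun q => ∑ ω : ι → Bool, wt q ω * (if E ω then 1 else 0))
      (∑ ω : ι → Bool, (∑ i, (∏ j ∈ univ.erase i, wb p (ω j)) * sg (ω i)) *
        (if E ω then 1 else 0)) p :=
    HasDerivAt.fun_sum fun ω _ => (hasDerivAt_wt ω p).mul_const _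
  have h2 : (∑ ω : ι → Bool, (∑ i, (∏ j ∈ univ.erase i, wb p (ω j)) * sg (ω i)) *
        (if E ω then 1 else 0)) = Infl p E := by
    unfold Infl
    rw [sum_congr rfl fun ω _ => sum_mul univ
      (fun i => (∏ j ∈ univ.erase i, wb p (ω j)) * sg (ω i)) (if E ω then (1 : ℝ) else 0),
      sum_comm]
    exact sum_congr rfl fun i _ => sum_sg hE p i
  rw [← h2]
  exact h1

lemma Infl_nonneg {ι : Type} [Fintype ι] {p : ℝ} (h0 : 0 ≤ p) (h1 : p ≤ 1)
    (E : (ι → Bool) → Prop) : 0 ≤ Infl p E :=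
  sum_nonneg fun _ _ => Pr_nonneg h0 h1 _

/-- the probability of an increasing event increases with the density -/
theorem Pr_mono_p {ι : Type} [Fintype ι] {E : (ι → Bool) → Prop} (hE : Incr E) {a b : ℝ}
    (ha : 0 ≤ a) (hab : a ≤ b) (hb : b ≤ 1) : Pr a E ≤ Pr b E := by
  have hm : MonotoneOn (fun q => Pr q E) (Set.Icc a b) := by
    refine monotoneOn_of_deriv_nonneg (convex_Icc a b)
      (fun x _ => (russo hE x).continuousAt.continuousWithinAt)
      (fun x _ => (russo hE x).differentiableAt.differentiableWithinAt) fun x hx => ?_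
    rw [interior_Icc] at hx
    rw [(russo hE x).deriv]
    exact Infl_nonneg (ha.trans hx.1.le) (hx.2.le.trans hb) E
  exact hm (Set.left_mem_Icc.2 hab) (Set.right_mem_Icc.2 hab) hab

/-- the probability of an increasing event grows quickly above one half -/
theorem grow {ι : Type} [Fintype ι] {E : (ι → Bool) → Prop} (hE : Incr E) {a b M : ℝ}
    (ha : 0 ≤ a) (hab : a ≤ b) (hb : b ≤ 1) (hM : 0 ≤ M)
    (h : ∀ q, a ≤ q → q ≤ b → M * (Pr q E * (1 - Pr q E)) ≤ Infl q E)
    (ha2 : 1 / 2 ≤ Pr a E) : 1 - Pr b E ≤ Real.exp (-(M * (b - a) / 2)) := by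
  have hd : ∀ x : ℝ, HasDerivAt (fun q => (1 - Pr q E) * Real.exp (M * q / 2))
      (-(Infl x E) * Real.exp (M * x / 2) +
        (1 - Pr x E) * (Real.exp (M * x / 2) * (M / 2))) x := by
    intro x
    have h1 : HasDerivAt (fun q => 1 - Pr q E) (-(Infl x E)) x := (russo hE x).const_sub 1
    have h2 : HasDerivAt (fun q : ℝ => M * q / 2) (M / 2) x := by
      simpa using ((hasDerivAt_id x).const_mul M).div_const 2
    exact h1.mul h2.exp
  have hm : AntitoneOn (fun q => (1 - Pr q E) * Real.exp (M * q / 2)) (Set.Icc a b) := by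
    refine antitoneOn_of_deriv_nonpos (convex_Icc a b)
      (fun x _ => (hd x).continuousAt.continuousWithinAt)
      (fun x _ => (hd x).differentiableAt.differentiableWithinAt) fun x hx => ?_
    rw [interior_Icc] at hx
    rw [(hd x).deriv]
    have hx0 : 0 ≤ x := ha.trans hx.1.le
    have hx1 : x ≤ 1 := hx.2.le.trans hb
    have h3 : 1 / 2 ≤ Pr x E := ha2.trans (Pr_mono_p hE ha hx.1.le hx1)
    have h4 : Pr x E ≤ 1 := Pr_le_one hx0 hx1 E
    have h5 := h x hx.1.le hx.2.le
    have h6 : M / 2 * (1 - Pr x E) ≤ Infl x E := by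
      refine le_trans ?_ h5
      have h7 : 0 ≤ M * (1 - Pr x E) := mul_nonneg hM (by linarith)
      nlinarith
    have h8 : 0 < Real.exp (M * x / 2) := Real.exp_pos _
    nlinarith
  have h9 := hm (Set.left_mem_Icc.2 hab) (Set.right_mem_Icc.2 hab) hab
  simp only at h9
  have ha1 : a ≤ 1 := hab.trans hb
  have h10 : (1 - Pr a E) * Real.exp (M * a / 2) ≤ Real.exp (M * a / 2) := by
    have := Real.exp_pos (M * a / 2)
    nlinarith
  have h11 : Real.exp (-(M * (b - a) / 2)) = Real.exp (M * a / 2) / Real.exp (M * b / 2) := by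
    rw [← Real.exp_sub]
    congr 1
    ring
  rw [h11, le_div_iff₀ (Real.exp_pos _)]
  exact h9.trans h10

/-- the probability of an increasing event decays quickly below one half -/
theorem decay {ι : Type} [Fintype ι] {E : (ι → Bool) → Prop} (hE : Incr E) {a b M : ℝ}
    (ha : 0 ≤ a) (hab : a ≤ b) (hb : b ≤ 1) (hM : 0 ≤ M)
    (h : ∀ q, a ≤ q → q ≤ b → M * (Pr q E * (1 - Pr q E)) ≤ Infl q E)
    (hb2 : Pr b E ≤ 1 / 2) : Pr a E ≤ Real.exp (-(M * (b - a) / 2)) := by
  have hd : ∀ x : ℝ, HasDerivAt (fun q => Pr q E * Real.exp (-(M * q / 2)))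
      (Infl x E * Real.exp (-(M * x / 2)) +
        Pr x E * (Real.exp (-(M * x / 2)) * (-(M / 2)))) x := by
    intro x
    have h2 : HasDerivAt (fun q : ℝ => -(M * q / 2)) (-(M / 2)) x := by
      simpa using (((hasDerivAt_id' x).const_mul M).div_const 2).fun_neg
    exact (russo hE x).mul h2.exp
  have hm : MonotoneOn (fun q => Pr q E * Real.exp (-(M * q / 2))) (Set.Icc a b) := by
    refine monotoneOn_of_deriv_nonneg (convex_Icc a b)
      (fun x _ => (hd x).continuousAt.continuousWithinAt)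
      (fun x _ => (hd x).differentiableAt.differentiableWithinAt) fun x hx => ?_
    rw [interior_Icc] at hx
    rw [(hd x).deriv]
    have hx0 : 0 ≤ x := ha.trans hx.1.le
    have hx1 : x ≤ 1 := hx.2.le.trans hb
    have h3 : Pr x E ≤ 1 / 2 := (Pr_mono_p hE hx0 hx.2.le hb).trans hb2
    have h4 : 0 ≤ Pr x E := Pr_nonneg hx0 hx1 E
    have h5 := h x hx.1.le hx.2.le
    have h6 : M / 2 * Pr x E ≤ Infl x E := by
      refine le_trans ?_ h5
      have h7 : 0 ≤ M * Pr x E := mul_nonneg hM h4
      nlinarith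
    have h8 : 0 < Real.exp (-(M * x / 2)) := Real.exp_pos _
    nlinarith
  have h9 := hm (Set.left_mem_Icc.2 hab) (Set.right_mem_Icc.2 hab) hab
  simp only at h9
  have hb0 : 0 ≤ b := ha.trans hab
  have h10 : Pr b E * Real.exp (-(M * b / 2)) ≤ Real.exp (-(M * b / 2)) := by
    have := Real.exp_pos (-(M * b / 2))
    nlinarith
  have h11 : Real.exp (-(M * (b - a) / 2)) =
      Real.exp (-(M * b / 2)) / Real.exp (-(M * a / 2)) := by
    rw [← Real.exp_sub]
    congr 1
    ring
  rw [h11, le_div_iff₀ (Real.exp_pos _)]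
  exact h9.trans h10

end Pool.Agent.helper17.DyS
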