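import Pool.Agent.helper17.DyS.Half

/-!
# Scaling: the probability that a dyadic box can be tiled
-/

set_option autoImplicit false
open scoped Classical
open Finset Pool.Agent.helper17.Dya

namespace Pool.Agent.helper17.DyS

private lemma scale_nat {n m β k P x : ℕ} (h1 : β + m ≤ n) (hk : k ≤ m) (hx : x / 2 ^ (n - β) = P) (a : ℕ) :
    x / 2 ^ (n - (β + k)) = P * 2 ^ k + a ↔ ((x % 2 ^ (n - β)) / 2 ^ (n - β - m)) / 2 ^ (m - k) = a := by
  obtain ⟨d, hd⟩ : ∃ d, d = n - β - m := ⟨_, rfl⟩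
  obtain ⟨j, hj⟩ : ∃ j, j = m - k := ⟨_, rfl⟩
  have e1 : n - β = k + (j + d) := by omega
  have e2 : n - (β + k) = j + d := by omega
  rw [← hd, ← hj, e2, e1]
  rw [e1] at hx
  have h2 : x = 2 ^ (j + d) * (P * 2 ^ k) + x % 2 ^ (k + (j + d)) := by
    have h3 := Nat.div_add_mod x (2 ^ (k + (j + d)))
    rw [hx, pow_add 2 k (j + d)] at h3
    rw [pow_add 2 k (j + d)]
    calc x = 2 ^ k * 2 ^ (j + d) * P + x % (2 ^ k * 2 ^ (j + d)) := h3.symm
      _ = _ := by ring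
  have h4 : x / 2 ^ (j + d) = P * 2 ^ k + x % 2 ^ (k + (j + d)) / 2 ^ (j + d) := by
    conv_lhs => rw [h2]
    rw [Nat.mul_add_div (by positivity)]
  rw [h4, Nat.div_div_eq_div_mul, ← pow_add, add_comm d j]
  constructor
  · intro h
    omega
  · intro h
    omega

private lemma scale_lt {n m β x : ℕ} (h1 : β + m ≤ n) : (x % 2 ^ (n - β)) / 2 ^ (n - β - m) < 2 ^ m := by
  rw [Nat.div_lt_iff_lt_mul (by positivity), ← pow_add]
  have : m + (n - β - m) = n - β := by omega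
  rw [this]
  exact Nat.mod_lt _ (by positivity)

private lemma scale_X {n m β P y : ℕ} (h1 : β + m ≤ n) (hP : P < 2 ^ β) (hy : y < 2 ^ m) :
    P * 2 ^ (n - β) + y * 2 ^ (n - β - m) < 2 ^ n ∧
    (P * 2 ^ (n - β) + y * 2 ^ (n - β - m)) / 2 ^ (n - β) = P ∧
    ((P * 2 ^ (n - β) + y * 2 ^ (n - β - m)) % 2 ^ (n - β)) / 2 ^ (n - β - m) = y := by
  have h2 : y * 2 ^ (n - β - m) < 2 ^ (n - β) := by
    have : n - β = m + (n - β - m) := by omega
    calc y * 2 ^ (n - β - m) < 2 ^ m * 2 ^ (n - β - m) := Nat.mul_lt_mul_of_pos_right hy (by positivity)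
      _ = 2 ^ (n - β) := by rw [← pow_add, ← this]
  refine ⟨?_, ?_, ?_⟩
  · have h3 : 2 ^ n = 2 ^ β * 2 ^ (n - β) := by
      rw [← pow_add]
      congr 1
      omega
    rw [h3]
    calc P * 2 ^ (n - β) + y * 2 ^ (n - β - m) < P * 2 ^ (n - β) + 2 ^ (n - β) := by omega
      _ = (P + 1) * 2 ^ (n - β) := by ring
      _ ≤ 2 ^ β * 2 ^ (n - β) := Nat.mul_le_mul_right _ hP
  · rw [mul_comm P, Nat.mul_add_div (by positivity), Nat.div_eq_of_lt h2, add_zero]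
  · rw [mul_comm P, Nat.mul_add_mod, Nat.mod_eq_of_lt h2, Nat.mul_div_cancel _ (by positivity)]

/-- the boxes of order `m` as boxes of order `n` inside of `B` -/
private def scaleMap {n m : ℕ} {B : Tl} (hm : m ≤ n) (hB : Vl (n - m) B) (b : It m) : It n :=
  ⟨(fun i => B.1 i + b.1.1 i, fun i => B.2 i * 2 ^ (b.1.1 i) + b.1.2 i), by
    refine ⟨?_, fun i => ?_⟩
    · simp only
      rw [sum_add_distrib, hB.1, b.2.1]
      omega
    · simp only
      rw [pow_add]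
      calc B.2 i * 2 ^ (b.1.1 i) + b.1.2 i < B.2 i * 2 ^ (b.1.1 i) + 2 ^ (b.1.1 i) := by
            have := b.2.2 i
            omega
        _ = (B.2 i + 1) * 2 ^ (b.1.1 i) := by ring
        _ ≤ 2 ^ B.1 i * 2 ^ (b.1.1 i) := Nat.mul_le_mul_right _ (hB.2 i)⟩

private lemma scaleMap_inj {n m : ℕ} {B : Tl} (hm : m ≤ n) (hB : Vl (n - m) B) :
    Function.Injective (scaleMap hm hB) := by
  intro b b' h
  have h1 : ∀ i, B.1 i + b.1.1 i = B.1 i + b'.1.1 i := fun i => congrFun (congrArg (fun c : It n => c.1.1) h) i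
  have h2 : ∀ i, B.2 i * 2 ^ (b.1.1 i) + b.1.2 i = B.2 i * 2 ^ (b'.1.1 i) + b'.1.2 i :=
    fun i => congrFun (congrArg (fun c : It n => c.1.2) h) i
  have h3 : ∀ i, b.1.1 i = b'.1.1 i := fun i => by
    have := h1 i
    omega
  refine Subtype.ext (Prod.ext (funext h3) (funext fun i => ?_))
  have h4 := h2 i
  rw [h3 i] at h4
  exact Nat.add_left_cancel h4

private lemma scaleMap_Sb {n m : ℕ} {B : Tl} (hm : m ≤ n) (hB : Vl (n - m) B) (b : It m) :
    Sb (scaleMap hm hB b).1 B := by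
  intro i
  refine ⟨Nat.le_add_right _ _, ?_⟩
  change (B.2 i * 2 ^ (b.1.1 i) + b.1.2 i) / 2 ^ (B.1 i + b.1.1 i - B.1 i) = B.2 i
  rw [Nat.add_sub_cancel_left, mul_comm, Nat.mul_add_div (by positivity), Nat.div_eq_of_lt (b.2.2 i), add_zero]

private lemma scaleMap_surj {n m : ℕ} {B : Tl} (hm : m ≤ n) (hB : Vl (n - m) B) (c : It n) (hc : Sb c.1 B) :
    ∃ b : It m, scaleMap hm hB b = c := by
  have hle : ∀ i, B.1 i ≤ c.1.1 i := fun i => (hc i).1
  refine ⟨⟨(fun i => c.1.1 i - B.1 i, fun i => c.1.2 i % 2 ^ (c.1.1 i - B.1 i)), ?_, fun i => ?_⟩, ?_⟩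
  · have h1 : ∑ i, (c.1.1 i - B.1 i) + ∑ i, B.1 i = ∑ i, c.1.1 i := by
      rw [← sum_add_distrib]
      exact sum_congr rfl fun i _ => Nat.sub_add_cancel (hle i)
    rw [hB.1, c.2.1] at h1
    simp only
    omega
  · simp only
    exact Nat.mod_lt _ (by positivity)
  · refine Subtype.ext (Prod.ext (funext fun i => ?_) (funext fun i => ?_))
    · change B.1 i + (c.1.1 i - B.1 i) = c.1.1 i
      have := hle i
      omega
    · change B.2 i * 2 ^ (c.1.1 i - B.1 i) + c.1.2 i % 2 ^ (c.1.1 i - B.1 i) = c.1.2 i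
      have h1 := (hc i).2
      have h2 := Nat.div_add_mod (c.1.2 i) (2 ^ (c.1.1 i - B.1 i))
      rw [h1, mul_comm] at h2
      exact h2

private lemma scale_Cv {n m : ℕ} {B : Tl} (hm : m ≤ n) (hB : Vl (n - m) B) (b : It m) {x : Fin 3 → ℕ}
    (hx : Cv n B x) : Cv n (scaleMap hm hB b).1 x ↔
      Cv m b.1 (fun i => (x i % 2 ^ (n - B.1 i)) / 2 ^ (n - B.1 i - m)) := by
  unfold Cv
  refine forall_congr' fun i => ?_
  have h1 : B.1 i + m ≤ n := by
    have := hB.le i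
    omega
  exact scale_nat h1 (b.2.le i) (hx i) (b.1.2 i)

private lemma scale_cube {m : ℕ} (b : It m) : Sb b.1 cube := by
  intro i
  refine ⟨Nat.zero_le _, ?_⟩
  change b.1.2 i / 2 ^ (b.1.1 i - 0) = 0
  rw [Nat.sub_zero]
  exact Nat.div_eq_of_lt (b.2.2 i)

private lemma scale_Al {n m : ℕ} {B : Tl} (hm : m ≤ n) (hB : Vl (n - m) B) (ω : It n → Bool) :
    Al n B ω ↔ Al m cube (fun b => ω (scaleMap hm hB b)) := by
  have hle : ∀ i, B.1 i + m ≤ n := fun i => by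
    have := hB.le i
    omega
  constructor
  · rintro ⟨R, hR, hR2⟩
    refine ⟨{b | scaleMap hm hB b ∈ R}, fun b hb => ⟨(hR _ hb).1, scale_cube b⟩, ?_⟩
    intro y hy _
    let x : Fin 3 → ℕ := fun i => B.2 i * 2 ^ (n - B.1 i) + y i * 2 ^ (n - B.1 i - m)
    have hx := fun i => scale_X (hle i) (hB.2 i) (hy i)
    have hxB : Cv n B x := fun i => (hx i).2.1
    have hxy : (fun i => (x i % 2 ^ (n - B.1 i)) / 2 ^ (n - B.1 i - m)) = y := funext fun i => (hx i).2.2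
    obtain ⟨c, ⟨hc, hcx⟩, hu⟩ := hR2 x (fun i => (hx i).1) hxB
    obtain ⟨b, rfl⟩ := scaleMap_surj hm hB c (hR c hc).2
    refine ⟨b, ⟨hc, ?_⟩, ?_⟩
    · rw [scale_Cv hm hB b hxB, hxy] at hcx
      exact hcx
    · rintro b' ⟨hb', hb'y⟩
      apply scaleMap_inj hm hB
      refine hu _ ⟨hb', ?_⟩
      rw [scale_Cv hm hB b' hxB, hxy]
      exact hb'y
  · rintro ⟨R, hR, hR2⟩
    refine ⟨scaleMap hm hB '' R, ?_, ?_⟩
    · rintro _ ⟨b, hb, rfl⟩
      exact ⟨(hR b hb).1, scaleMap_Sb hm hB b⟩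
    · intro x _ hxB
      obtain ⟨b, ⟨hb, hby⟩, hu⟩ := hR2 (fun i => (x i % 2 ^ (n - B.1 i)) / 2 ^ (n - B.1 i - m))
        (fun i => scale_lt (hle i)) (fun i => by
          change _ / 2 ^ (m - 0) = 0
          rw [Nat.sub_zero]
          exact Nat.div_eq_of_lt (scale_lt (hle i)))
      refine ⟨scaleMap hm hB b, ⟨⟨b, hb, rfl⟩, ?_⟩, ?_⟩
      · rw [scale_Cv hm hB b hxB]
        exact hby
      · rintro _ ⟨⟨b', hb', rfl⟩, hb'x⟩
        rw [scale_Cv hm hB b' hxB] at hb'x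
        rw [hu b' ⟨hb', hb'x⟩]

theorem Pr_Al {n m : ℕ} {p : ℝ} {B : Tl} (hm : m ≤ n) (hB : Vl (n - m) B) : Pr p (Al n B) = T m p := by
  rw [Pr_congr (scale_Al hm hB)]
  exact Pr_comp (scaleMap hm hB) (scaleMap_inj hm hB) (Al m cube)

end Pool.Agent.helper17.DyS
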