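import Pool.Agent.helper17.DyS.Scale
import Pool.Agent.helper17.DyS.Osss

/-!
# The adaptive search for a tiling

A box of order `m + 1` is cut in the direction `d m`.  The boxes of order `k` are revealed
completely; a box of order `m + 1` is revealed completely only if one of its two halves is not
tileable.
-/

set_option autoImplicit false
open scoped Classical
open Finset Pool.Agent.helper17.Dya

namespace Pool.Agent.helper17.DyS

section

variable {ι : Type}

/-- sequential composition of decision trees -/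
def DT.bind : DT ι → (Bool → DT ι) → DT ι
  | .leaf b, g => g b
  | .node i f, g => .node i fun b => (f b).bind g

lemma eval_bind (S : DT ι) (g : Bool → DT ι) (ω : ι → Bool) :
    (S.bind g).eval ω = (g (S.eval ω)).eval ω := by
  induction S with
  | leaf b => rfl
  | node i f ih => exact ih (ω i)

lemma Q_bind (S : DT ι) (g : Bool → DT ι) (ω : ι → Bool) (j : ι) :
    (S.bind g).Q ω j ↔ S.Q ω j ∨ (g (S.eval ω)).Q ω j := by
  induction S with
  | leaf b => simp [DT.bind, DT.Q, DT.eval]
  | node i f ih =>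
    have := ih (ω i)
    simp only [DT.bind, DT.Q, DT.eval, this, or_assoc]

/-- query all coordinates in a list, then decide by `F` -/
noncomputable def rev : List ι → ((ι → Bool) → Bool) → (ι → Bool) → DT ι
  | [], F, σ => .leaf (F σ)
  | i :: l, F, σ => .node i fun b => rev l F (up i b σ)

lemma eval_rev (l : List ι) (F : (ι → Bool) → Bool) (σ ω : ι → Bool) :
    (rev l F σ).eval ω = F fun j => if j ∈ l then ω j else σ j := by
  induction l generalizing σ with
  | nil => simp [rev, DT.eval]
  | cons i l ih =>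
    show (rev l F (up i (ω i) σ)).eval ω = _
    rw [ih]
    congr 1
    funext j
    unfold up
    by_cases h1 : j ∈ l
    · simp [h1]
    · by_cases h2 : j = i
      · simp [h2]
      · simp [h1, h2]

lemma Q_rev (l : List ι) (F : (ι → Bool) → Bool) (σ ω : ι → Bool) (j : ι) :
    (rev l F σ).Q ω j ↔ j ∈ l := by
  induction l generalizing σ with
  | nil => simp [rev, DT.Q]
  | cons i l ih =>
    show j = i ∨ (rev l F (up i (ω i) σ)).Q ω j ↔ _
    rw [ih, List.mem_cons]

end

/-- reveal all boxes inside of `B` -/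
noncomputable def all (n : ℕ) (B : Tl) : DT (It n) :=
  rev (univ.filter fun b : It n => Sb b.1 B).toList (fun ω => decide (Al n B ω)) fun _ => false

lemma eval_all (n : ℕ) (B : Tl) (ω : It n → Bool) : (all n B).eval ω = decide (Al n B ω) := by
  unfold all
  rw [eval_rev]
  refine decide_eq_decide.2 (Al_dep n B _ _ fun b hb => ?_)
  have hb' : Sb b.1 B := hb
  simp [hb']

lemma Q_all (n : ℕ) (B : Tl) (ω : It n → Bool) (b : It n) : (all n B).Q ω b ↔ Sb b.1 B := by
  unfold all
  rw [Q_rev]
  simp

/-- the search in the box `B` of order `k + j` -/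
noncomputable def Sr (n : ℕ) (d : ℕ → Fin 3) (k : ℕ) : ℕ → Tl → DT (It n)
  | 0, B => all n B
  | j + 1, B => (Sr n d k j (ch B (d (k + j)) 0)).bind fun r =>
      (Sr n d k j (ch B (d (k + j)) 1)).bind fun r' => if r && r' then .leaf true else all n B

lemma eval_Sr {n : ℕ} {d : ℕ → Fin 3} {k : ℕ} (j : ℕ) (B : Tl) (hB : ∀ i, B.1 i + (k + j) ≤ n)
    (ω : It n → Bool) : (Sr n d k j B).eval ω = decide (Al n B ω) := by
  induction j generalizing B with
  | zero => exact eval_all n B ω
  | succ j ih =>
    have hc : ∀ e i, (ch B (d (k + j)) e).1 i + (k + j) ≤ n := by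
      intro e i
      have := hB i
      unfold ch
      dsimp only
      split_ifs <;> omega
    show ((Sr n d k j (ch B (d (k + j)) 0)).bind fun r =>
      (Sr n d k j (ch B (d (k + j)) 1)).bind fun r' =>
        if r && r' then .leaf true else all n B).eval ω = _
    rw [eval_bind, eval_bind, ih _ (hc 0), ih _ (hc 1)]
    by_cases h0 : Al n (ch B (d (k + j)) 0) ω
    · by_cases h1 : Al n (ch B (d (k + j)) 1) ω
      · have h2 : Al n B ω := Al_split (d (k + j)) (by have := hB (d (k + j)); omega) h0 h1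
        simp [h0, h1, h2, DT.eval]
      · simp only [h0, h1, decide_true, decide_false, Bool.and_false, Bool.false_eq_true,
          if_false]
        exact eval_all n B ω
    · simp only [h0, decide_false, Bool.false_and, Bool.false_eq_true, if_false]
      exact eval_all n B ω

lemma shp_succ {d : ℕ → Fin 3} {n m : ℕ} (hm : m < n) (i : Fin 3) :
    shp d n m i = shp d n (m + 1) i + if i = d m then 1 else 0 := by
  unfold shp
  have h1 : Finset.Ico m n = insert m (Finset.Ico (m + 1) n) := by
    ext x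
    simp only [mem_Ico, mem_insert]
    omega
  rw [h1, filter_insert]
  by_cases h : d m = i
  · rw [if_pos h, if_pos h.symm, card_insert_of_notMem]
    simp
  · rw [if_neg h, if_neg (fun hh => h hh.symm)]
    rfl

lemma shp_self (d : ℕ → Fin 3) (n : ℕ) : shp d n n = 0 := by
  funext i
  simp [shp]

/-- the bound for the probability that the box `t` is revealed -/
noncomputable def bd (n k : ℕ) (d : ℕ → Fin 3) (p : ℝ) (j : ℕ) (t : Tl) : ℝ :=
  (if ∀ i, shp d n k i ≤ t.1 i then (1 : ℝ) else 0) +
    ∑ m ∈ Ico k (k + j), if ∀ i, shp d n (m + 1) i ≤ t.1 i then 2 * (1 - T m p) else 0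

lemma Search_T_le_one {p : ℝ} (h0 : 0 ≤ p) (h1 : p ≤ 1) (m : ℕ) : T m p ≤ 1 := Pr_le_one h0 h1 _

lemma Search_T_nonneg {p : ℝ} (h0 : 0 ≤ p) (h1 : p ≤ 1) (m : ℕ) : 0 ≤ T m p := Pr_nonneg h0 h1 _

lemma bd_nonneg {n k : ℕ} {d : ℕ → Fin 3} {p : ℝ} (h0 : 0 ≤ p) (h1 : p ≤ 1) (j : ℕ) (t : Tl) :
    0 ≤ bd n k d p j t := by
  unfold bd
  refine add_nonneg (by split_ifs <;> norm_num) (sum_nonneg fun m _ => ?_)
  have := Search_T_le_one h0 h1 m
  split_ifs <;> linarith

lemma Pr_false {ι : Type} [Fintype ι] {p : ℝ} : Pr p (fun _ : ι → Bool => False) = 0 := by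
  unfold Pr Ev
  simp

lemma Pr_Sr {n k : ℕ} {d : ℕ → Fin 3} {p : ℝ} (h0 : 0 ≤ p) (h1 : p ≤ 1) (t : It n) (j : ℕ)
    (B : Tl) (hj : k + j ≤ n) (hB : Vl (n - (k + j)) B) (hs : B.1 = shp d n (k + j)) :
    Pr p (fun ω => (Sr n d k j B).Q ω t) ≤ if Sb t.1 B then bd n k d p j t.1 else 0 := by
  induction j generalizing B with
  | zero =>
    have h2 : Pr p (fun ω => (Sr n d k 0 B).Q ω t) = Pr p (fun _ : It n → Bool => Sb t.1 B) :=
      Pr_congr fun ω => Q_all n B ω t
    rw [h2]
    by_cases h : Sb t.1 B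
    · rw [if_pos h]
      refine (Pr_le_one h0 h1 _).trans ?_
      unfold bd
      have h3 : ∀ i, shp d n k i ≤ t.1.1 i := by
        intro i
        have := (h i).1
        rw [hs] at this
        exact this
      rw [if_pos h3]
      simp
    · rw [if_neg h]
      have h3 : Pr p (fun _ : It n → Bool => Sb t.1 B) = Pr p (fun _ : It n → Bool => False) :=
        Pr_congr fun ω => iff_of_false h id
      rw [h3, Pr_false]
  | succ j ih =>
    have hn : k + j < n := by omega
    have hV : ∀ e, e < 2 → Vl (n - (k + j)) (ch B (d (k + j)) e) := by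
      intro e he
      have := Vl_ch hB (d (k + j)) he
      rwa [show n - (k + (j + 1)) + 1 = n - (k + j) by omega] at this
    have hS : ∀ e, (ch B (d (k + j)) e).1 = shp d n (k + j) := by
      intro e
      funext i
      rw [shp_succ hn i]
      unfold ch
      dsimp only
      rw [hs]
      by_cases h : i = d (k + j)
      · rw [if_pos h, if_pos h]
        rfl
      · rw [if_neg h, if_neg h]
        rfl
    have hm : ∀ i, B.1 i + (k + (j + 1)) ≤ n := by
      intro i
      have := Vl.le hB i
      omega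
    have hc : ∀ e i, (ch B (d (k + j)) e).1 i + (k + j) ≤ n := by
      intro e i
      have := hm i
      unfold ch
      dsimp only
      split_ifs <;> omega
    have hQ : ∀ ω, (Sr n d k (j + 1) B).Q ω t ↔
        (Sr n d k j (ch B (d (k + j)) 0)).Q ω t ∨ ((Sr n d k j (ch B (d (k + j)) 1)).Q ω t ∨
          ((¬ Al n (ch B (d (k + j)) 0) ω ∨ ¬ Al n (ch B (d (k + j)) 1) ω) ∧ Sb t.1 B)) := by
      intro ω
      show ((Sr n d k j (ch B (d (k + j)) 0)).bind fun r =>
        (Sr n d k j (ch B (d (k + j)) 1)).bind fun r' =>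
          if r && r' then .leaf true else all n B).Q ω t ↔ _
      rw [Q_bind, Q_bind, eval_Sr j _ (hc 0), eval_Sr j _ (hc 1)]
      refine or_congr Iff.rfl (or_congr Iff.rfl ?_)
      by_cases g0 : Al n (ch B (d (k + j)) 0) ω
      · by_cases g1 : Al n (ch B (d (k + j)) 1) ω
        · simp [g0, g1, DT.Q]
        · simp [g0, g1, Q_all]
      · simp [g0, Q_all]
    have hP : Pr p (fun ω => (Sr n d k (j + 1) B).Q ω t) ≤
        Pr p (fun ω => (Sr n d k j (ch B (d (k + j)) 0)).Q ω t) +
        (Pr p (fun ω => (Sr n d k j (ch B (d (k + j)) 1)).Q ω t) +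
          Pr p (fun ω => (¬ Al n (ch B (d (k + j)) 0) ω ∨ ¬ Al n (ch B (d (k + j)) 1) ω) ∧
            Sb t.1 B)) := by
      rw [Pr_congr hQ]
      refine (Pr_or_le h0 h1 _ _).trans ?_
      have := Pr_or_le h0 h1 (fun ω => (Sr n d k j (ch B (d (k + j)) 1)).Q ω t)
        (fun ω => (¬ Al n (ch B (d (k + j)) 0) ω ∨ ¬ Al n (ch B (d (k + j)) 1) ω) ∧ Sb t.1 B)
      linarith
    have i0 := ih (ch B (d (k + j)) 0) (by omega) (hV 0 (by norm_num)) (hS 0)
    have i1 := ih (ch B (d (k + j)) 1) (by omega) (hV 1 (by norm_num)) (hS 1)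
    by_cases h : Sb t.1 B
    · rw [if_pos h]
      have h3 : Pr p (fun ω => (¬ Al n (ch B (d (k + j)) 0) ω ∨ ¬ Al n (ch B (d (k + j)) 1) ω) ∧
          Sb t.1 B) ≤ 2 * (1 - T (k + j) p) := by
        refine (Pr_mono h0 h1 (F := fun ω => ¬ Al n (ch B (d (k + j)) 0) ω ∨
          ¬ Al n (ch B (d (k + j)) 1) ω) fun ω hω => hω.1).trans ?_
        refine (Pr_or_le h0 h1 _ _).trans ?_
        rw [Pr_not, Pr_not, Pr_Al (by omega) (hV 0 (by norm_num)),
          Pr_Al (by omega) (hV 1 (by norm_num))]
        linarith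
      have h4 : (if Sb t.1 (ch B (d (k + j)) 0) then bd n k d p j t.1 else 0) +
          (if Sb t.1 (ch B (d (k + j)) 1) then bd n k d p j t.1 else 0) ≤ bd n k d p j t.1 := by
        have hb := bd_nonneg (n := n) (k := k) (d := d) h0 h1 j t.1
        by_cases g0 : Sb t.1 (ch B (d (k + j)) 0)
        · by_cases g1 : Sb t.1 (ch B (d (k + j)) 1)
          · exact (ch_Sb_disj g0 g1).elim
          · rw [if_pos g0, if_neg g1, add_zero]
        · rw [if_neg g0, zero_add]
          split_ifs
          · exact le_refl _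
          · exact hb
      have h5 : bd n k d p (j + 1) t.1 = bd n k d p j t.1 + 2 * (1 - T (k + j) p) := by
        have h6 : ∀ i, shp d n (k + j + 1) i ≤ t.1.1 i := by
          intro i
          have := (h i).1
          rw [hs] at this
          exact this
        unfold bd
        rw [show k + (j + 1) = k + j + 1 from rfl, sum_Ico_succ_top (by omega), if_pos h6,
          add_assoc]
      rw [h5]
      linarith
    · rw [if_neg h]
      have g : ∀ e, e < 2 → ¬ Sb t.1 (ch B (d (k + j)) e) := fun e he hh =>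
        h (hh.trans (Sb_ch he))
      rw [if_neg (g 0 (by norm_num))] at i0
      rw [if_neg (g 1 (by norm_num))] at i1
      have h3 : Pr p (fun ω => (¬ Al n (ch B (d (k + j)) 0) ω ∨ ¬ Al n (ch B (d (k + j)) 1) ω) ∧
          Sb t.1 B) = 0 := by
        rw [← Pr_false (ι := It n) (p := p)]
        exact Pr_congr fun ω => iff_of_false (fun hh => h hh.2) id
      linarith

/-- the inequality of O'Donnell, Saks, Schramm and Servedio for the adaptive search -/
theorem search {n k : ℕ} (hk : k ≤ n) (d : ℕ → Fin 3) {p : ℝ} (h0 : 0 ≤ p) (h1 : p ≤ 1) :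
    T n p * (1 - T n p) ≤ ∑ t : It n, ((if ∀ i, shp d n k i ≤ t.1.1 i then (1 : ℝ) else 0) +
      ∑ m ∈ Finset.Ico k n, if ∀ i, shp d n (m + 1) i ≤ t.1.1 i then 2 * (1 - T m p) else 0) *
        Pr p (Piv (Al n cube) t) := by
  have h2 := osss h0 h1 (Al_incr n cube) (Sr n d k (n - k) cube) (fun ω => by
    rw [eval_Sr (n - k) cube (fun i => by
      show 0 + (k + (n - k)) ≤ n
      omega)]
    exact decide_eq_true_iff)
  refine h2.trans (sum_le_sum fun t _ => mul_le_mul_of_nonneg_right ?_ (Pr_nonneg h0 h1 _))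
  have h3 := Pr_Sr (n := n) (k := k) (d := d) h0 h1 t (n - k) cube (by omega) (by
    rw [show n - (k + (n - k)) = 0 by omega]
    exact ⟨by simp [cube], fun i => by simp [cube]⟩) (by
    rw [show k + (n - k) = n by omega, shp_self]
    rfl)
  refine h3.trans ?_
  have h4 := bd_nonneg (n := n) (k := k) (d := d) h0 h1 (n - k) t.1
  have h5 : bd n k d p (n - k) t.1 = (if ∀ i, shp d n k i ≤ t.1.1 i then (1 : ℝ) else 0) +
      ∑ m ∈ Finset.Ico k n, if ∀ i, shp d n (m + 1) i ≤ t.1.1 i then 2 * (1 - T m p) else 0 := by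
    unfold bd
    rw [show k + (n - k) = n by omega]
  rw [← h5]
  split_ifs
  · exact le_refl _
  · exact h4

end Pool.Agent.helper17.DyS
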