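import Pool.Agent.helper17.DyS.Scale

/-!
# Slabs: growth of the probability of a tiling
-/

set_option autoImplicit false
open scoped Classical
open Finset Pool.Agent.helper17.Dya

namespace Pool.Agent.helper17.DyS

/-- the slab of thickness `2 ^ (-t)` with number `j` in the direction `i` -/
def slb (i : Fin 3) (t j : ℕ) : Tl :=
  (fun l => if l = i then t else 0, fun l => if l = i then j else 0)

lemma slb_zero (i : Fin 3) : slb i 0 0 = cube := by
  unfold slb cube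
  refine Prod.ext (funext fun l => ?_) (funext fun l => ?_)
  · simp
  · simp

lemma ch_slb (i : Fin 3) (t j e : ℕ) : ch (slb i t j) i e = slb i (t + 1) (2 * j + e) := by
  unfold ch slb
  refine Prod.ext (funext fun l => ?_) (funext fun l => ?_)
  · by_cases h : l = i <;> simp [h]
  · by_cases h : l = i <;> simp [h]

lemma Vl_slb {i : Fin 3} {t j : ℕ} (hj : j < 2 ^ t) : Vl t (slb i t j) := by
  constructor
  · unfold slb
    simp
  · intro l
    unfold slb
    by_cases h : l = i <;> simp [h, hj]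

/-- a slab is tileable if all its parts are -/
theorem Al_slabs {n : ℕ} (i : Fin 3) {ω : It n → Bool} : ∀ s t j : ℕ, t + s ≤ n →
    (∀ j' : ℕ, j' / 2 ^ s = j → Al n (slb i (t + s) j') ω) → Al n (slb i t j) ω := by
  intro s
  induction s with
  | zero =>
    intro t j _ h
    exact h j (by simp)
  | succ s ih =>
    intro t j hts h
    have hh : ∀ e, e < 2 → Al n (ch (slb i t j) i e) ω := by
      intro e he
      rw [ch_slb]
      refine ih (t + 1) (2 * j + e) (by omega) fun j' hj' => ?_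
      have h1 : t + 1 + s = t + (s + 1) := by omega
      rw [h1]
      refine h j' ?_
      rw [pow_succ, ← Nat.div_div_eq_div_mul, hj']
      omega
    refine Al_split i ?_ (hh 0 (by norm_num)) (hh 1 (by norm_num))
    unfold slb
    simp only [if_true]
    omega

/-- the cube is tileable if all the slabs of one direction and one thickness are -/
theorem Al_cube {n : ℕ} (i : Fin 3) {t : ℕ} (ht : t ≤ n) {ω : It n → Bool}
    (h : ∀ j ∈ range (2 ^ t), Al n (slb i t j) ω) : Al n cube ω := by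
  rw [← slb_zero i]
  refine Al_slabs i t 0 0 (by omega) fun j' hj' => ?_
  rw [zero_add]
  refine h j' (mem_range.2 ?_)
  rcases Nat.div_eq_zero_iff.1 hj' with h1 | h1
  · exact absurd h1 (by positivity)
  · exact h1

theorem T_nonneg {n : ℕ} {p : ℝ} (h0 : 0 ≤ p) (h1 : p ≤ 1) : 0 ≤ T n p := Pr_nonneg h0 h1 _

theorem T_le_one {n : ℕ} {p : ℝ} (h0 : 0 ≤ p) (h1 : p ≤ 1) : T n p ≤ 1 := Pr_le_one h0 h1 _

lemma Vl_cube : Vl 0 cube := ⟨by simp [cube], by simp [cube]⟩

/-- both halves of the cube are tileable and they are independent -/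
theorem T_succ {n : ℕ} {p : ℝ} (h0 : 0 ≤ p) (h1 : p ≤ 1) : T n p ^ 2 ≤ T (n + 1) p := by
  have e : ∀ e : ℕ, e < 2 → Pr p (Al (n + 1) (ch cube 0 e)) = T n p := by
    intro e he
    refine Pr_Al (Nat.le_succ n) ?_
    rw [Nat.add_sub_cancel_left]
    exact Vl_ch Vl_cube 0 he
  have h2 := Pr_and (p := p) (Al_dep (n + 1) (ch cube 0 0)) (Al_dep (n + 1) (ch cube 0 1))
    (fun b hb hb' => ch_Sb_disj hb hb')
  rw [e 0 (by norm_num), e 1 (by norm_num)] at h2
  rw [sq, ← h2]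
  refine Pr_mono h0 h1 fun ω hω => ?_
  refine Al_split 0 ?_ hω.1 hω.2
  simp [cube]

theorem one_sub_T_succ {n : ℕ} {p : ℝ} (h0 : 0 ≤ p) (h1 : p ≤ 1) :
    1 - T (n + 1) p ≤ 2 * (1 - T n p) := by
  have h2 := T_succ (n := n) h0 h1
  nlinarith [sq_nonneg (1 - T n p)]

/-- three times the independence of the directions -/
theorem slabs {k : ℕ} {p : ℝ} (h0 : 0 ≤ p) (h1 : p ≤ 1) :
    1 - T (2 * k + 1) p ≤ (2 ^ (k + 1) * (1 - T k p)) ^ 3 := by
  have hk : k + 1 ≤ 2 * k + 1 := by omega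
  set E : Fin 3 → (It (2 * k + 1) → Bool) → Prop := fun i ω =>
    ∃ j ∈ range (2 ^ (k + 1)), ¬ Al (2 * k + 1) (slb i (k + 1) j) ω with hE
  set A : Fin 3 → Set (It (2 * k + 1)) := fun i => {b | k + 1 ≤ b.1.1 i} with hA
  have hdep : ∀ i, Dep (A i) (E i) := by
    intro i ω ω' h
    have h2 : ∀ j, Al (2 * k + 1) (slb i (k + 1) j) ω ↔ Al (2 * k + 1) (slb i (k + 1) j) ω' := by
      intro j
      refine Al_dep (2 * k + 1) (slb i (k + 1) j) ω ω' fun b hb => h b ?_
      have h3 := (hb i).1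
      unfold slb at h3
      simp only [if_true] at h3
      exact h3
    simp only [hE, h2]
  have hdis : ∀ i i' : Fin 3, i ≠ i' → ∀ b ∈ A i, b ∉ A i' := by
    intro i i' hi b hb hb'
    have h2 : b.1.1 i + b.1.1 i' ≤ ∑ l, b.1.1 l := by
      rw [← sum_pair hi]
      exact sum_le_sum_of_subset (subset_univ _)
    rw [b.2.1] at h2
    have hb1 : k + 1 ≤ b.1.1 i := hb
    have hb2 : k + 1 ≤ b.1.1 i' := hb'
    omega
  have hpr : ∀ i, Pr p (E i) ≤ 2 ^ (k + 1) * (1 - T k p) := by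
    intro i
    refine (Pr_exists_le h0 h1 (range (2 ^ (k + 1)))
      (fun j ω => ¬ Al (2 * k + 1) (slb i (k + 1) j) ω)).trans ?_
    have h2 : ∀ j ∈ range (2 ^ (k + 1)),
        Pr p (fun ω => ¬ Al (2 * k + 1) (slb i (k + 1) j) ω) = 1 - T k p := by
      intro j hj
      rw [Pr_not, Pr_Al (m := k) (by omega)]
      rw [show 2 * k + 1 - k = k + 1 by omega]
      exact Vl_slb (mem_range.1 hj)
    rw [sum_congr rfl h2, sum_const, card_range, nsmul_eq_mul]
    push_cast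
    exact le_refl _
  have hnn : ∀ i, 0 ≤ Pr p (E i) := fun i => Pr_nonneg h0 h1 _
  have h2 : 1 - T (2 * k + 1) p ≤ Pr p (fun ω => E 0 ω ∧ (E 1 ω ∧ E 2 ω)) := by
    have h3 : 1 - T (2 * k + 1) p = Pr p (fun ω => ¬ Al (2 * k + 1) cube ω) := by
      rw [Pr_not]
      rfl
    rw [h3]
    refine Pr_mono h0 h1 fun ω hω => ?_
    have h4 : ∀ i, E i ω := by
      intro i
      by_contra hcon
      simp only [hE, not_exists, not_and, not_not] at hcon
      exact hω (Al_cube i hk hcon)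
    exact ⟨h4 0, h4 1, h4 2⟩
  have h3 : Pr p (fun ω => E 1 ω ∧ E 2 ω) = Pr p (E 1) * Pr p (E 2) :=
    Pr_and (hdep 1) (hdep 2) (hdis 1 2 (by decide))
  have h4 : Pr p (fun ω => E 0 ω ∧ (E 1 ω ∧ E 2 ω)) = Pr p (E 0) * Pr p (fun ω => E 1 ω ∧ E 2 ω) := by
    refine Pr_and (hdep 0) (B := A 1 ∪ A 2) (Dep.and ((hdep 1).mono Set.subset_union_left)
      ((hdep 2).mono Set.subset_union_right)) ?_
    rintro b hb (hb' | hb')
    · exact hdis 0 1 (by decide) b hb hb'
    · exact hdis 0 2 (by decide) b hb hb'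
  rw [h4, h3] at h2
  refine h2.trans ?_
  have hx : 0 ≤ 2 ^ (k + 1) * (1 - T k p) := (hnn 0).trans (hpr 0)
  calc Pr p (E 0) * (Pr p (E 1) * Pr p (E 2))
      ≤ (2 ^ (k + 1) * (1 - T k p)) * ((2 ^ (k + 1) * (1 - T k p)) * (2 ^ (k + 1) * (1 - T k p))) := by
        refine mul_le_mul (hpr 0) ?_ (mul_nonneg (hnn 1) (hnn 2)) hx
        exact mul_le_mul (hpr 1) (hpr 2) (hnn 2) hx
    _ = (2 ^ (k + 1) * (1 - T k p)) ^ 3 := by ring

/-- from `m` to `2 m + 1` -/
theorem T_double {m : ℕ} {p : ℝ} (h0 : 0 ≤ p) (h1 : p ≤ 1) (h : 1 - T m p ≤ (1 / 8) ^ (m + 1)) :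
    1 - T (2 * m + 1) p ≤ (1 / 8) ^ (2 * m + 1 + 1) := by
  refine (slabs h0 h1).trans ?_
  have h2 : 0 ≤ 1 - T m p := by have := T_le_one (n := m) h0 h1; linarith
  have h3 : 2 ^ (m + 1) * (1 - T m p) ≤ 2 ^ (m + 1) * (1 / 8 : ℝ) ^ (m + 1) :=
    mul_le_mul_of_nonneg_left h (by positivity)
  refine (pow_le_pow_left₀ (by positivity) h3 3).trans ?_
  rw [← mul_pow, ← pow_mul, show 2 * m + 1 + 1 = 2 * (m + 1) by ring, pow_mul (1 / 8 : ℝ) 2 (m + 1),
    mul_comm (m + 1) 3, pow_mul]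
  refine pow_le_pow_left₀ (by positivity) ?_ _
  norm_num

theorem T_many {m : ℕ} {p : ℝ} (h0 : 0 ≤ p) (h1 : p ≤ 1) (d : ℕ) :
    1 - T (m + d) p ≤ 2 ^ d * (1 - T m p) := by
  induction d with
  | zero => simp
  | succ d ih =>
    have h2 := one_sub_T_succ (n := m + d) h0 h1
    rw [← add_assoc]
    refine h2.trans ?_
    rw [pow_succ]
    linarith

theorem T_bound {k : ℕ} {p : ℝ} (h0 : 0 ≤ p) (h1 : p ≤ 1) (h : 1 - T k p ≤ (1 / 8) ^ (k + 1)) :
    ∀ n : ℕ, k ≤ n → 1 - T n p ≤ (1 / 2) ^ (n + 1) := by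
  have key : ∀ n : ℕ, k ≤ n → ∃ m : ℕ, m ≤ n ∧ n ≤ 2 * m + 1 ∧ 1 - T m p ≤ (1 / 8) ^ (m + 1) := by
    intro n hn
    induction n, hn using Nat.le_induction with
    | base => exact ⟨k, le_refl _, by omega, h⟩
    | succ n hn ih =>
      obtain ⟨m, hm, hm', hm2⟩ := ih
      rcases Nat.lt_or_ge n (2 * m + 1) with h2 | h2
      · exact ⟨m, by omega, by omega, hm2⟩
      · exact ⟨2 * m + 1, by omega, by omega, T_double h0 h1 hm2⟩
  intro n hn
  obtain ⟨m, hm, hm', hm2⟩ := key n hn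
  obtain ⟨d, rfl⟩ := Nat.exists_eq_add_of_le hm
  refine (T_many h0 h1 d).trans ?_
  have h2 : (2 : ℝ) ^ d * (1 - T m p) ≤ 2 ^ d * (1 / 8) ^ (m + 1) :=
    mul_le_mul_of_nonneg_left hm2 (by positivity)
  refine h2.trans ?_
  obtain ⟨c, hc⟩ : ∃ c, m + 1 = d + c := ⟨m + 1 - d, by omega⟩
  have e1 : m + d + 1 = 2 * d + c := by omega
  rw [e1, hc, pow_add, pow_add, pow_mul, ← mul_assoc, ← mul_pow]
  have e2 : (2 * (1 / 8) : ℝ) = (1 / 2) ^ 2 := by norm_num
  rw [e2]
  refine mul_le_mul_of_nonneg_left ?_ (by positivity)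
  exact pow_le_pow_left₀ (by norm_num) (by norm_num) c

theorem tends_one {k : ℕ} {p : ℝ} (h0 : 0 ≤ p) (h1 : p ≤ 1) (h : 1 - T k p < (1 / 8) ^ (k + 1)) :
    Filter.Tendsto (fun n => T n p) Filter.atTop (nhds 1) := by
  have hb := T_bound h0 h1 h.le
  have h2 : Filter.Tendsto (fun n : ℕ => 1 - (1 / 2 : ℝ) ^ (n + 1)) Filter.atTop (nhds 1) := by
    have h3 := (tendsto_pow_atTop_nhds_zero_of_lt_one (r := (1 / 2 : ℝ)) (by norm_num)
      (by norm_num)).comp (Filter.tendsto_add_atTop_nat 1)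
    have h4 := (tendsto_const_nhds (x := (1 : ℝ))).sub h3
    simpa using h4
  refine tendsto_of_tendsto_of_tendsto_of_le_of_le' h2 tendsto_const_nhds ?_ ?_
  · filter_upwards [Filter.eventually_ge_atTop k] with n hn
    have := hb n hn
    linarith
  · exact Filter.Eventually.of_forall fun n => T_le_one h0 h1

end Pool.Agent.helper17.DyS
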