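import Pool.Agent.helper17.DyS.Geo

/-!
# Symmetries of the dyadic boxes

Adding a mask (bitwise exclusive or) to the three coordinates permutes the dyadic boxes of every
shape transitively and preserves the event that the unit cube can be tiled.
-/

set_option autoImplicit false
open scoped Classical
open Finset Pool.Agent.helper17.Dya

namespace Pool.Agent.helper17.DyS

/-- the mask `m` added to the cell `x` -/
def Sym_x (m x : Fin 3 → ℕ) : Fin 3 → ℕ := fun i => x i ^^^ m i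

/-- the mask `m` added to the box `b` -/
def Sym_b (n : ℕ) (m : Fin 3 → ℕ) (b : Tl) : Tl :=
  (b.1, fun i => b.2 i ^^^ (m i / 2 ^ (n - b.1 i)))

lemma Sym_div (x m j : ℕ) : (x ^^^ m) / 2 ^ j = x / 2 ^ j ^^^ m / 2 ^ j := by
  rw [← Nat.shiftRight_eq_div_pow, ← Nat.shiftRight_eq_div_pow, ← Nat.shiftRight_eq_div_pow,
    Nat.shiftRight_xor_distrib]

lemma Sym_x_x (m x : Fin 3 → ℕ) : Sym_x m (Sym_x m x) = x := by
  funext i
  unfold Sym_x
  rw [Nat.xor_assoc, Nat.xor_self, Nat.xor_zero]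

lemma Sym_b_b (n : ℕ) (m : Fin 3 → ℕ) (b : Tl) : Sym_b n m (Sym_b n m b) = b := by
  refine Prod.ext rfl (funext fun i => ?_)
  show (b.2 i ^^^ (m i / 2 ^ (n - b.1 i))) ^^^ (m i / 2 ^ (n - b.1 i)) = b.2 i
  rw [Nat.xor_assoc, Nat.xor_self, Nat.xor_zero]

lemma Sym_Vl {n : ℕ} {m : Fin 3 → ℕ} (hm : ∀ i, m i < 2 ^ n) {b : Tl} (h : Vl n b) :
    Vl n (Sym_b n m b) := by
  refine ⟨h.1, fun i => ?_⟩
  refine Nat.xor_lt_two_pow (h.2 i) ?_
  refine Nat.div_lt_of_lt_mul ?_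
  rw [← pow_add]
  have h1 := h.le i
  rw [show n - b.1 i + (Sym_b n m b).1 i = n from Nat.sub_add_cancel h1]
  exact hm i

lemma Sym_Cv (n : ℕ) (m : Fin 3 → ℕ) (b : Tl) (x : Fin 3 → ℕ) :
    Cv n (Sym_b n m b) (Sym_x m x) ↔ Cv n b x := by
  refine forall_congr' fun i => ?_
  show (x i ^^^ m i) / 2 ^ (n - b.1 i) = b.2 i ^^^ (m i / 2 ^ (n - b.1 i)) ↔ _
  rw [Sym_div]
  exact Nat.xor_left_inj

lemma Sym_cube {n : ℕ} {b : Tl} (h : Vl n b) : Sb b cube := by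
  intro i
  exact ⟨Nat.zero_le _, Nat.div_eq_of_lt (h.2 i)⟩

/-- the permutation of the boxes of order `n` -/
def Sym_t {n : ℕ} {m : Fin 3 → ℕ} (hm : ∀ i, m i < 2 ^ n) (b : It n) : It n :=
  ⟨Sym_b n m b.1, Sym_Vl hm b.2⟩

lemma Sym_t_t {n : ℕ} {m : Fin 3 → ℕ} (hm : ∀ i, m i < 2 ^ n) (b : It n) :
    Sym_t hm (Sym_t hm b) = b := Subtype.ext (Sym_b_b n m b.1)

lemma Sym_t_inj {n : ℕ} {m : Fin 3 → ℕ} (hm : ∀ i, m i < 2 ^ n) :
    Function.Injective (Sym_t hm) := by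
  intro b b' h
  rw [← Sym_t_t hm b, ← Sym_t_t hm b', h]

lemma Sym_Al_of {n : ℕ} {m : Fin 3 → ℕ} (hm : ∀ i, m i < 2 ^ n) {ω : It n → Bool}
    (h : Al n cube (fun b => ω (Sym_t hm b))) : Al n cube ω := by
  obtain ⟨R, h1, h2⟩ := h
  refine ⟨{b | Sym_t hm b ∈ R}, fun b hb => ⟨?_, Sym_cube b.2⟩, fun x hx _ => ?_⟩
  · have h3 : ω (Sym_t hm (Sym_t hm b)) = true := (h1 _ hb).1
    rw [Sym_t_t] at h3
    exact h3
  · have hx' : ∀ i, Sym_x m x i < 2 ^ n := fun i => Nat.xor_lt_two_pow (hx i) (hm i)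
    obtain ⟨b, ⟨hb1, hb2⟩, hb3⟩ := h2 (Sym_x m x) hx' (fun i => Nat.div_eq_of_lt (hx' i))
    refine ⟨Sym_t hm b, ⟨?_, ?_⟩, ?_⟩
    · show Sym_t hm (Sym_t hm b) ∈ R
      rw [Sym_t_t]
      exact hb1
    · show Cv n (Sym_b n m b.1) x
      rw [← Sym_x_x m x, Sym_Cv]
      exact hb2
    · rintro b' ⟨hb1', hb2'⟩
      have h4 : Cv n (Sym_t hm b').1 (Sym_x m x) := (Sym_Cv n m b'.1 x).2 hb2'
      rw [← hb3 (Sym_t hm b') ⟨hb1', h4⟩, Sym_t_t]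

lemma Sym_Al {n : ℕ} {m : Fin 3 → ℕ} (hm : ∀ i, m i < 2 ^ n) (ω : It n → Bool) :
    Al n cube (fun b => ω (Sym_t hm b)) ↔ Al n cube ω := by
  refine ⟨Sym_Al_of hm, fun h => Sym_Al_of hm ?_⟩
  simp only [Sym_t_t]
  exact h

lemma Sym_up {n : ℕ} {m : Fin 3 → ℕ} (hm : ∀ i, m i < 2 ^ n) (b : It n) (t : Bool)
    (ω : It n → Bool) :
    up b t (fun j => ω (Sym_t hm j)) = fun j => up (Sym_t hm b) t ω (Sym_t hm j) := by
  funext j
  unfold up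
  by_cases h : j = b
  · rw [if_pos h, if_pos (congrArg (Sym_t hm) h)]
  · rw [if_neg h, if_neg fun h' => h (Sym_t_inj hm h')]

lemma Sym_Piv {n : ℕ} {m : Fin 3 → ℕ} (hm : ∀ i, m i < 2 ^ n) (b : It n) (ω : It n → Bool) :
    Piv (Al n cube) b (fun j => ω (Sym_t hm j)) ↔ Piv (Al n cube) (Sym_t hm b) ω := by
  unfold Piv
  rw [Sym_up, Sym_up, Sym_Al, Sym_Al]

/-- boxes of the same shape have the same influence -/
theorem piv_sym {n : ℕ} {p : ℝ} {b b' : It n} (h : b.1.1 = b'.1.1) :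
    Pr p (Piv (Al n cube) b) = Pr p (Piv (Al n cube) b') := by
  have hm : ∀ i, (b.1.2 i ^^^ b'.1.2 i) * 2 ^ (n - b.1.1 i) < 2 ^ n := by
    intro i
    have h1 : b.1.2 i ^^^ b'.1.2 i < 2 ^ b.1.1 i := by
      refine Nat.xor_lt_two_pow (b.2.2 i) ?_
      rw [h]
      exact b'.2.2 i
    calc (b.1.2 i ^^^ b'.1.2 i) * 2 ^ (n - b.1.1 i) < 2 ^ b.1.1 i * 2 ^ (n - b.1.1 i) :=
          Nat.mul_lt_mul_of_pos_right h1 (by positivity)
      _ = 2 ^ n := by rw [← pow_add, Nat.add_sub_cancel' (b.2.le i)]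
  have h2 : Sym_t hm b = b' := by
    refine Subtype.ext (Prod.ext h (funext fun i => ?_))
    show b.1.2 i ^^^ ((b.1.2 i ^^^ b'.1.2 i) * 2 ^ (n - b.1.1 i) / 2 ^ (n - b.1.1 i)) = b'.1.2 i
    rw [Nat.mul_div_cancel _ (by positivity), ← Nat.xor_assoc, Nat.xor_self, Nat.zero_xor]
  rw [← Pr_comp (Sym_t hm) (Sym_t_inj hm) (Piv (Al n cube) b)]
  refine Pr_congr fun ω => ?_
  rw [Sym_Piv hm b ω, h2]

/-- there are `2 ^ n` boxes of the shape of `b` -/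
theorem piv_le {n : ℕ} {p : ℝ} (h0 : 0 ≤ p) (h1 : p ≤ 1) (b : It n) :
    2 ^ n * Pr p (Piv (Al n cube) b) ≤ Infl p (Al n cube) := by
  let g : (∀ i, Fin (2 ^ b.1.1 i)) → It n := fun a =>
    ⟨(b.1.1, fun i => (a i : ℕ)), b.2.1, fun i => (a i).2⟩
  have hg : Function.Injective g := by
    intro a a' h
    funext i
    have h2 := congrFun (congrArg (fun c : It n => c.1.2) h) i
    exact Fin.ext h2
  have hc : (Fintype.card (∀ i, Fin (2 ^ b.1.1 i)) : ℝ) = 2 ^ n := by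
    rw [Fintype.card_pi]
    simp only [Fintype.card_fin]
    rw [Finset.prod_pow_eq_pow_sum, b.2.1]
    push_cast
    rfl
  calc 2 ^ n * Pr p (Piv (Al n cube) b)
      = ∑ a : (∀ i, Fin (2 ^ b.1.1 i)), Pr p (Piv (Al n cube) (g a)) := by
        rw [Finset.sum_congr rfl fun a _ => piv_sym (b := g a) (b' := b) rfl, Finset.sum_const,
          Finset.card_univ, nsmul_eq_mul, hc]
    _ = ∑ c ∈ univ.map ⟨g, hg⟩, Pr p (Piv (Al n cube) c) := by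
        rw [Finset.sum_map]
        rfl
    _ ≤ ∑ c, Pr p (Piv (Al n cube) c) :=
        Finset.sum_le_sum_of_subset_of_nonneg (subset_univ _) fun c _ _ => Pr_nonneg h0 h1 _
    _ = Infl p (Al n cube) := rfl

end Pool.Agent.helper17.DyS
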