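import Pool.Agent.helper17.DyS.Kkl
import Pool.Agent.helper17.DyS.Russo
import Pool.Agent.helper17.DyS.Sym
import Pool.Agent.helper17.DyS.Slabs
import Pool.Agent.helper17.DyS.Avg

/-!
# Windows of good scales
-/

set_option autoImplicit false
open scoped Classical
open Finset Pool.Agent.helper17.Dya Filter Topology

namespace Pool.Agent.helper17.DyS

lemma T_mono {n : ℕ} {a b : ℝ} (ha : 0 ≤ a) (hab : a ≤ b) (hb : b ≤ 1) : T n a ≤ T n b :=
  Pr_mono_p (Al_incr n cube) ha hab hb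

lemma var_nonneg {n : ℕ} {p : ℝ} (h0 : 0 ≤ p) (h1 : p ≤ 1) : 0 ≤ T n p * (1 - T n p) :=
  mul_nonneg (T_nonneg h0 h1) (by have := T_le_one (n := n) h0 h1; linarith)

lemma poinc {n : ℕ} {p : ℝ} (h0 : 0 ≤ p) (h1 : p ≤ 1) :
    T n p * (1 - T n p) ≤ Infl p (Al n cube) := by
  have h := search (le_refl n) (fun _ => 0) h0 h1
  refine h.trans (sum_le_sum fun t _ => ?_)
  rw [Ico_self, sum_empty, add_zero]
  have h2 := Pr_nonneg h0 h1 (Piv (Al n cube) t)
  split_ifs
  · rw [one_mul]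
  · rw [zero_mul]
    exact h2

lemma pow_exp {n : ℕ} (hn : 4 ≤ n) : (n : ℝ) * Real.exp (n / 4) ≤ 2 ^ n := by
  induction n, hn using Nat.le_induction with
  | base =>
    have h1 : Real.exp ((4 : ℕ) / 4 : ℝ) ≤ 2.7182818286 := by
      have := Real.exp_one_lt_d9.le
      norm_num at this ⊢
      exact this
    have h2 : ((4 : ℕ) : ℝ) = 4 := by norm_num
    rw [h2] at h1 ⊢
    norm_num at h1 ⊢
    linarith
  | succ n hn ih =>
    have h1 : Real.exp (1 / 4) ≤ 4 / 3 := by
      have h2 := Real.one_sub_le_exp_neg (1 / 4)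
      rw [Real.exp_neg] at h2
      have h3 := Real.exp_pos (1 / 4)
      have h4 : Real.exp (1 / 4) * (Real.exp (1 / 4))⁻¹ = 1 := mul_inv_cancel₀ h3.ne'
      nlinarith
    have h2 : Real.exp (((n + 1 : ℕ) : ℝ) / 4) = Real.exp (n / 4) * Real.exp (1 / 4) := by
      rw [← Real.exp_add]
      congr 1
      push_cast
      ring
    have h3 : (4 : ℝ) ≤ n := by exact_mod_cast hn
    have h4 : ((n + 1 : ℕ) : ℝ) ≤ 5 / 4 * n := by
      push_cast
      linarith
    rw [h2, pow_succ]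
    have h5 := Real.exp_pos ((n : ℝ) / 4)
    calc ((n + 1 : ℕ) : ℝ) * (Real.exp (n / 4) * Real.exp (1 / 4))
        ≤ (5 / 4 * n) * (Real.exp (n / 4) * (4 / 3)) := by
          apply mul_le_mul h4 (mul_le_mul_of_nonneg_left h1 h5.le) (by positivity) (by positivity)
      _ = 5 / 3 * (n * Real.exp (n / 4)) := by ring
      _ ≤ 2 ^ n * 2 := by nlinarith [ih, mul_pos (by linarith : (0 : ℝ) < n) h5]

theorem infl_lin {a : ℝ} (ha : 0 < a) (ha2 : a ≤ 1 / 2) : ∃ c : ℝ, 0 < c ∧
    ∀ (n : ℕ) (p : ℝ), a ≤ p → p ≤ 1 - a →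
      c * n * (T n p * (1 - T n p)) ≤ Infl p (Al n cube) := by
  obtain ⟨C, hC, hk⟩ := kkl ha ha2
  refine ⟨min (1 / 4) (1 / (4 * C)), by positivity, ?_⟩
  intro n p h1 h2
  have h0 : 0 ≤ p := by linarith
  have h1' : p ≤ 1 := by linarith
  have hV := var_nonneg (n := n) h0 h1'
  have hV2 : T n p * (1 - T n p) ≤ 1 / 4 := by nlinarith [sq_nonneg (T n p - 1 / 2)]
  have hI := poinc (n := n) h0 h1'
  have hc1 : min (1 / 4 : ℝ) (1 / (4 * C)) ≤ 1 / 4 := min_le_left _ _
  have hc2 : min (1 / 4 : ℝ) (1 / (4 * C)) ≤ 1 / (4 * C) := min_le_right _ _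
  have hn0 : (0 : ℝ) ≤ n := Nat.cast_nonneg n
  by_cases hn : n < 4
  · have h3 : (n : ℝ) ≤ 4 := by exact_mod_cast hn.le
    calc min (1 / 4 : ℝ) (1 / (4 * C)) * n * (T n p * (1 - T n p))
        ≤ 1 / 4 * 4 * (T n p * (1 - T n p)) :=
          mul_le_mul_of_nonneg_right (mul_le_mul hc1 h3 hn0 (by norm_num)) hV
      _ = T n p * (1 - T n p) := by ring
      _ ≤ _ := hI
  · push Not at hn
    by_cases hIn : (n : ℝ) ≤ Infl p (Al n cube)
    · calc min (1 / 4 : ℝ) (1 / (4 * C)) * n * (T n p * (1 - T n p))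
          ≤ 1 / 4 * n * (1 / 4) := by
            apply mul_le_mul (mul_le_mul_of_nonneg_right hc1 hn0) hV2 hV (by positivity)
        _ ≤ n := by nlinarith
        _ ≤ _ := hIn
    · push Not at hIn
      have h4 : ∀ b, Pr p (Piv (Al n cube) b) ≤ Real.exp (-((n : ℝ) / 4)) := by
        intro b
        have h5 := piv_le (n := n) h0 h1' b
        have h6 := pow_exp hn
        have h7 : (2 : ℝ) ^ n * Pr p (Piv (Al n cube) b) ≤
            2 ^ n * Real.exp (-((n : ℝ) / 4)) := by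
          refine (h5.trans hIn.le).trans ?_
          rw [Real.exp_neg, ← div_eq_mul_inv, le_div_iff₀ (Real.exp_pos _)]
          exact h6
        exact le_of_mul_le_mul_left h7 (by positivity)
      have h8 := hk (It n) p h1 h2 (Al n cube) (Al_incr n cube) (n / 4) (by
        have : (4 : ℝ) ≤ n := by exact_mod_cast hn
        linarith) h4
      have h9 : (n : ℝ) / 4 * (T n p * (1 - T n p)) ≤ C * Infl p (Al n cube) := h8
      calc min (1 / 4 : ℝ) (1 / (4 * C)) * n * (T n p * (1 - T n p))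
          ≤ 1 / (4 * C) * n * (T n p * (1 - T n p)) :=
            mul_le_mul_of_nonneg_right (mul_le_mul_of_nonneg_right hc2 hn0) hV
        _ = (n / 4 * (T n p * (1 - T n p))) / C := by field_simp
        _ ≤ Infl p (Al n cube) := by
            rw [div_le_iff₀ hC]
            linarith

/-- exponential bounds on both sides of the level `1 / 2` -/
theorem win1 {a : ℝ} (ha : 0 < a) (ha2 : a ≤ 1 / 2) : ∃ c : ℝ, 0 < c ∧
    (∀ (n : ℕ) (p q : ℝ), a ≤ p → p ≤ q → q ≤ 1 - a → 1 / 2 ≤ T n p →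
      1 - T n q ≤ Real.exp (-(c * (q - p) * n))) ∧
    (∀ (n : ℕ) (p q : ℝ), a ≤ p → p ≤ q → q ≤ 1 - a → T n q ≤ 1 / 2 →
      T n p ≤ Real.exp (-(c * (q - p) * n))) := by
  obtain ⟨c, hc, h⟩ := infl_lin ha ha2
  refine ⟨c / 2, by positivity, ?_, ?_⟩
  · intro n p q h1 h2 h3 h4
    have := grow (Al_incr n cube) (M := c * n) (by linarith) h2 (by linarith) (by positivity)
      (fun r hr1 hr2 => h n r (by linarith) (by linarith)) h4
    rwa [show c * n * (q - p) / 2 = c / 2 * (q - p) * n by ring] at this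
  · intro n p q h1 h2 h3 h4
    have := decay (Al_incr n cube) (M := c * n) (by linarith) h2 (by linarith) (by positivity)
      (fun r hr1 hr2 => h n r (by linarith) (by linarith)) h4
    rwa [show c * n * (q - p) / 2 = c / 2 * (q - p) * n by ring] at this

/-- a long window of good scales makes the probability of failure very small -/
theorem win2 {p q : ℝ} (hp : 0 < p) (hpq : p < q) (hq : q < 1) : ∃ c : ℝ, 0 < c ∧
    ∀ k n : ℕ, 1 ≤ k → k ≤ n → (∀ m, k ≤ m → m ≤ n → 1 / 2 ≤ T m p) →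
      1 - T n q ≤ Real.exp (-(c * (n : ℝ) ^ 2 / (k : ℝ) ^ 2)) := by
  have ha : 0 < min (min p (1 - q)) (1 / 2) :=
    lt_min (lt_min hp (by linarith)) (by norm_num)
  have ha1 : min (min p (1 - q)) (1 / 2) ≤ p := (min_le_left _ _).trans (min_le_left _ _)
  have ha3 : min (min p (1 - q)) (1 / 2) ≤ 1 - q := (min_le_left _ _).trans (min_le_right _ _)
  obtain ⟨c, hc, hw, -⟩ := win1 ha (min_le_right _ _)
  have hc1 : 0 < c * ((q - p) / 2) := mul_pos hc (by linarith)
  obtain ⟨C, hC, hb⟩ := infl_big hc1 one_pos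
  refine ⟨(q - p) / (4 * C), div_pos (by linarith) (by positivity), ?_⟩
  intro k n hk hkn hT
  have hk0 : (0 : ℝ) < k := by exact_mod_cast hk
  have h1 : ∀ r, (p + q) / 2 ≤ r → r ≤ q → (n : ℝ) ^ 2 / (C * (k : ℝ) ^ 2) *
      (Pr r (Al n cube) * (1 - Pr r (Al n cube))) ≤ Infl r (Al n cube) := by
    intro r hr1 hr2
    have h2 := hb n k r (by linarith) (by linarith) hk hkn (by
      intro m hm1 hm2
      have h3 := hw m p ((p + q) / 2) ha1 (by linarith) (by linarith) (hT m hm1 hm2)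
      have h4 : T m ((p + q) / 2) ≤ T m r := T_mono (by linarith) hr1 (by linarith)
      rw [one_mul]
      rw [show (p + q) / 2 - p = (q - p) / 2 by ring] at h3
      linarith)
    rw [div_mul_eq_mul_div, div_le_iff₀ (by positivity)]
    have h5 : Infl r (Al n cube) * (C * (k : ℝ) ^ 2) = C * (k : ℝ) ^ 2 * Infl r (Al n cube) := by
      ring
    rw [h5]
    exact h2
  have h6 := grow (Al_incr n cube) (M := (n : ℝ) ^ 2 / (C * (k : ℝ) ^ 2)) (a := (p + q) / 2)
    (b := q) (by linarith) (by linarith) hq.le (by positivity) h1 (by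
      have h7 : T n p ≤ T n ((p + q) / 2) := T_mono hp.le (by linarith) (by linarith)
      have h8 := hT n hkn (le_refl n)
      exact h8.trans h7)
  refine h6.trans (le_of_eq ?_)
  congr 2
  field_simp
  ring

end Pool.Agent.helper17.DyS
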