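import Pool.Agent.helper17.DyS.Res
import Pool.Agent.helper17.DyS.Win

/-!
# Total influence at the end of a window of good scales
-/

set_option autoImplicit false
open scoped Classical
open Finset Pool.Agent.helper17.Dya Filter Topology

namespace Pool.Agent.helper17.DyS

/-- a path with prescribed final shape -/
def pth (k a b : ℕ) : ℕ → Fin 3 := fun j => if j < k + a then 0 else if j < k + a + b then 1 else 2

lemma shp_pth {n k a b : ℕ} (h : k + a + b ≤ n) : shp (pth k a b) n k 0 = a ∧
    shp (pth k a b) n k 1 = b ∧ shp (pth k a b) n k 2 = n - k - a - b := by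
  unfold shp pth
  refine ⟨?_, ?_, ?_⟩
  · have h1 : (Finset.Ico k n).filter (fun j => (if j < k + a then (0 : Fin 3) else
        if j < k + a + b then 1 else 2) = 0) = Finset.Ico k (k + a) := by
      ext j
      simp only [mem_filter, mem_Ico]
      split_ifs with h1 h2
      · simp only [and_true]
        omega
      · simp only [show ((1 : Fin 3) = 0) = False by simp, and_false, false_iff]
        omega
      · simp only [show ((2 : Fin 3) = 0) = False by simp, and_false, false_iff]
        omega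
    rw [h1, Nat.card_Ico]
    omega
  · have h1 : (Finset.Ico k n).filter (fun j => (if j < k + a then (0 : Fin 3) else
        if j < k + a + b then 1 else 2) = 1) = Finset.Ico (k + a) (k + a + b) := by
      ext j
      simp only [mem_filter, mem_Ico]
      split_ifs with h1 h2
      · simp only [show ((0 : Fin 3) = 1) = False by simp, and_false, false_iff]
        omega
      · simp only [and_true]
        omega
      · simp only [show ((2 : Fin 3) = 1) = False by simp, and_false, false_iff]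
        omega
    rw [h1, Nat.card_Ico]
    omega
  · have h1 : (Finset.Ico k n).filter (fun j => (if j < k + a then (0 : Fin 3) else
        if j < k + a + b then 1 else 2) = 2) = Finset.Ico (k + a + b) n := by
      ext j
      simp only [mem_filter, mem_Ico]
      split_ifs with h1 h2
      · simp only [show ((0 : Fin 3) = 2) = False by simp, and_false, false_iff]
        omega
      · simp only [show ((1 : Fin 3) = 2) = False by simp, and_false, false_iff]
        omega
      · simp only [and_true]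
        omega
    rw [h1, Nat.card_Ico]
    omega

/-- the boxes inside of the blocks of order `k` cut along the path -/
def Grp (n k a b : ℕ) (t : It n) : Prop := ∀ i, shp (pth k a b) n k i ≤ t.1.1 i

lemma group_ineq {a0 : ℝ} (ha : 0 < a0) {n k a b : ℕ} (hk : k ≤ n) {p : ℝ} (hp : a0 ≤ p)
    (hp1 : p ≤ 1 - a0) (L : ℝ) :
    L * (1 - T n p) ≤ 2 / a0 * ∑ t : It n, (if Grp n k a b t then Pr p (Piv (Al n cube) t) else 0) +
      Real.exp L * ((1 - T n p) ^ 2 +
        (∑ m ∈ Ico k n, 2 * (1 - T m p)) * Infl p (Al n cube)) := by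
  have h0 : 0 ≤ p := by linarith
  have h1 : p ≤ 1 := by linarith
  have hr : 0 ≤ ∑ m ∈ Ico k n, 2 * (1 - T m p) := sum_nonneg fun m _ => by
    have := T_le_one (n := m) h0 h1
    linarith
  have h2 := group ha hp hp1 (Al_incr n cube) (Sr n (pth k a b) k (n - k) cube) (fun ω => by
    rw [eval_Sr (n - k) cube (fun i => by
      show 0 + (k + (n - k)) ≤ n
      omega)]
    exact decide_eq_true_iff) (univ.filter fun t : It n => Grp n k a b t).toList hr (by
    intro t ht
    have ht' : ¬ Grp n k a b t := by simpa using ht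
    have h3 := Pr_Sr (n := n) (k := k) (d := pth k a b) h0 h1 t (n - k) cube (by omega) (by
      rw [show n - (k + (n - k)) = 0 by omega]
      exact ⟨by simp [cube], fun i => by simp [cube]⟩) (by
      rw [show k + (n - k) = n by omega, shp_self]
      rfl)
    refine h3.trans ?_
    have h4 : bd n k (pth k a b) p (n - k) t.1 ≤ ∑ m ∈ Ico k n, 2 * (1 - T m p) := by
      have ht2 : ¬ ∀ i, shp (pth k a b) n k i ≤ t.1.1 i := ht'
      unfold bd
      rw [if_neg ht2, zero_add, show k + (n - k) = n by omega]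
      refine sum_le_sum fun m _ => ?_
      have := T_le_one (n := m) h0 h1
      split_ifs
      · exact le_refl _
      · linarith
    split_ifs
    · exact h4
    · exact hr) L
  rw [Finset.sum_map_toList] at h2
  rw [sum_filter] at h2
  exact h2

lemma card_Grp {n k M : ℕ} (hM : k + 2 * M ≤ n) (t : It n) :
    ((range M ×ˢ range M).filter fun ab => Grp n k ab.1 ab.2 t).card ≤ (k + 1) ^ 2 := by
  have h1 : ((range M ×ˢ range M).filter fun ab => Grp n k ab.1 ab.2 t).card ≤
      (range (k + 1) ×ˢ range (k + 1)).card := by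
    have hs : t.1.1 0 + t.1.1 1 + t.1.1 2 = n := by
      have := t.2.1
      rwa [Fin.sum_univ_three] at this
    have key : ∀ ab ∈ (range M ×ˢ range M).filter (fun ab => Grp n k ab.1 ab.2 t),
        ab.1 ≤ t.1.1 0 ∧ ab.2 ≤ t.1.1 1 ∧ (t.1.1 0 - ab.1) + (t.1.1 1 - ab.2) ≤ k := by
      intro ab hab
      rw [mem_filter, mem_product, mem_range, mem_range] at hab
      obtain ⟨⟨ha, hb⟩, hG⟩ := hab
      obtain ⟨e0, e1, e2⟩ := shp_pth (n := n) (k := k) (a := ab.1) (b := ab.2) (by omega)
      have g0 := hG 0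
      have g1 := hG 1
      have g2 := hG 2
      rw [e0] at g0
      rw [e1] at g1
      rw [e2] at g2
      refine ⟨g0, g1, ?_⟩
      omega
    refine card_le_card_of_injOn (fun ab => (t.1.1 0 - ab.1, t.1.1 1 - ab.2)) ?_ ?_
    · intro ab hab
      obtain ⟨g0, g1, g2⟩ := key ab hab
      simp only [coe_product, coe_range, Set.mem_prod, Set.mem_Iio]
      omega
    · intro ab hab ab' hab' h
      obtain ⟨g0, g1, g2⟩ := key ab hab
      obtain ⟨g0', g1', g2'⟩ := key ab' hab'
      simp only [Prod.mk.injEq] at h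
      refine Prod.ext ?_ ?_ <;> omega
  rw [card_product, card_range] at h1
  rw [sq]
  exact h1

theorem group_sum {a0 : ℝ} (ha : 0 < a0) {n k M : ℕ} (hM : k + 2 * M ≤ n) {p : ℝ} (hp : a0 ≤ p)
    (hp1 : p ≤ 1 - a0) (L : ℝ) :
    (M : ℝ) ^ 2 * (L * (1 - T n p)) ≤ 2 / a0 * (((k : ℝ) + 1) ^ 2 * Infl p (Al n cube)) +
      (M : ℝ) ^ 2 * (Real.exp L * ((1 - T n p) ^ 2 +
        (∑ m ∈ Ico k n, 2 * (1 - T m p)) * Infl p (Al n cube))) := by
  have h0 : 0 ≤ p := by linarith
  have h1 : p ≤ 1 := by linarith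
  have h2 : ∑ ab ∈ range M ×ˢ range M, L * (1 - T n p) ≤ ∑ ab ∈ range M ×ˢ range M,
      (2 / a0 * ∑ t : It n, (if Grp n k ab.1 ab.2 t then Pr p (Piv (Al n cube) t) else 0) +
      Real.exp L * ((1 - T n p) ^ 2 +
        (∑ m ∈ Ico k n, 2 * (1 - T m p)) * Infl p (Al n cube))) :=
    sum_le_sum fun ab _ => group_ineq ha (by omega) hp hp1 L
  have hc : ((range M ×ˢ range M).card : ℝ) = (M : ℝ) ^ 2 := by
    rw [card_product, card_range]
    push_cast
    ring
  rw [sum_const, nsmul_eq_mul, hc, sum_add_distrib, sum_const, nsmul_eq_mul, hc,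
    ← mul_sum, sum_comm] at h2
  refine h2.trans (add_le_add_left (mul_le_mul_of_nonneg_left ?_ (by positivity)) _)
  unfold Infl
  rw [mul_sum]
  refine sum_le_sum fun t _ => ?_
  rw [← sum_filter, sum_const, nsmul_eq_mul]
  refine mul_le_mul_of_nonneg_right ?_ (Pr_nonneg h0 h1 _)
  have h3 := card_Grp hM t
  exact_mod_cast h3

theorem infl_sharp {a c : ℝ} (ha : 0 < a) (ha2 : a ≤ 1 / 2) (hc : 0 < c) : ∃ c' : ℝ, 0 < c' ∧
    ∀ K : ℕ, ∃ k0 : ℕ, ∀ (n k : ℕ) (p : ℝ), a ≤ p → p ≤ 1 - a → k0 ≤ k → k ≤ n → n ≤ K * k →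
      (∀ m, k ≤ m → m ≤ n → 1 - T m p ≤ Real.exp (-(c * m))) →
        c' * ((n : ℝ) ^ 2 / k) * (T n p * (1 - T n p)) ≤ Infl p (Al n cube) := by
  obtain ⟨c1, hc1, hlin⟩ := infl_lin ha ha2
  set c' : ℝ := min (min (c1 / 4) 1) (a * c / 2048) with hc'
  have hc'0 : 0 < c' := lt_min (lt_min (by linarith) one_pos) (by positivity)
  have hc'1 : c' ≤ c1 / 4 := (min_le_left _ _).trans (min_le_left _ _)
  have hc'2 : c' ≤ 1 := (min_le_left _ _).trans (min_le_right _ _)
  have hc'3 : c' ≤ a * c / 2048 := min_le_right _ _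
  refine ⟨c', hc'0, fun K => ?_⟩
  -- the threshold for `k`
  have hlim : Tendsto (fun k : ℕ => (1 + 2 * (K : ℝ) ^ 3 * (k : ℝ) ^ 2) *
      Real.exp (-(c / 2 * k))) atTop (nhds 0) := by
    have e1 : Tendsto (fun x : ℝ => x ^ 0 * Real.exp (-(c / 2) * x)) atTop (nhds 0) := by
      have := Real.tendsto_pow_mul_exp_neg_atTop_nhds_zero 0
      have h2 := this.comp (tendsto_id.const_mul_atTop (by positivity : (0 : ℝ) < c / 2))
      refine h2.congr fun x => ?_
      simp [Function.comp]
    have e2 : Tendsto (fun x : ℝ => (c / 2 * x) ^ 2 * Real.exp (-(c / 2 * x))) atTop (nhds 0) := by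
      have := Real.tendsto_pow_mul_exp_neg_atTop_nhds_zero 2
      exact this.comp (tendsto_id.const_mul_atTop (by positivity : (0 : ℝ) < c / 2))
    have e3 : Tendsto (fun x : ℝ => x ^ 0 * Real.exp (-(c / 2) * x) +
        2 * (K : ℝ) ^ 3 * (4 / c ^ 2) * ((c / 2 * x) ^ 2 * Real.exp (-(c / 2 * x)))) atTop
        (nhds (0 + 2 * (K : ℝ) ^ 3 * (4 / c ^ 2) * 0)) := e1.add (e2.const_mul _)
    rw [mul_zero, add_zero] at e3
    refine (e3.comp tendsto_natCast_atTop_atTop).congr fun k => ?_
    simp only [Function.comp, pow_zero, one_mul]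
    rw [show -(c / 2) * (k : ℝ) = -(c / 2 * k) by ring]
    field_simp
    ring
  have hev : ∀ᶠ k : ℕ in atTop, (1 + 2 * (K : ℝ) ^ 3 * (k : ℝ) ^ 2) *
      Real.exp (-(c / 2 * k)) < 1 := hlim.eventually (gt_mem_nhds one_pos)
  obtain ⟨k1, hk1⟩ := eventually_atTop.1 hev
  refine ⟨max k1 (max 2 (⌈4 / c⌉₊)), fun n k p hp hp1 hk hkn hnK hgood => ?_⟩
  have h0 : 0 ≤ p := by linarith
  have h1 : p ≤ 1 := by linarith
  have hk2 : 2 ≤ k := (le_max_left _ _).trans ((le_max_right _ _).trans hk)
  have hk3 : 4 / c ≤ k := by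
    have e1 : ⌈4 / c⌉₊ ≤ k := (le_max_right _ _).trans ((le_max_right _ _).trans hk)
    exact (Nat.le_ceil _).trans (by exact_mod_cast e1)
  have hk4 := hk1 k ((le_max_left _ _).trans hk)
  have hk0 : (0 : ℝ) < k := by
    have : 0 < k := by omega
    exact_mod_cast this
  have hn0 : (0 : ℝ) < n := by
    have : 0 < n := by omega
    exact_mod_cast this
  have hV := var_nonneg (n := n) h0 h1
  have hT1 := T_le_one (n := n) h0 h1
  have hT0 := T_nonneg (n := n) h0 h1
  have hVq : T n p * (1 - T n p) ≤ 1 - T n p := by nlinarith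
  have hI := Infl_nonneg h0 h1 (Al n cube)
  by_cases hcase : n < 4 * k
  · have e1 : (n : ℝ) ^ 2 / k ≤ 4 * n := by
      rw [div_le_iff₀ hk0]
      have : (n : ℝ) ≤ 4 * k := by exact_mod_cast hcase.le
      nlinarith
    have e2 := hlin n p hp hp1
    calc c' * ((n : ℝ) ^ 2 / k) * (T n p * (1 - T n p))
        ≤ c1 / 4 * (4 * n) * (T n p * (1 - T n p)) := by
          refine mul_le_mul_of_nonneg_right (mul_le_mul hc'1 e1 (by positivity) (by positivity)) hV
      _ = c1 * n * (T n p * (1 - T n p)) := by ring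
      _ ≤ _ := e2
  · push Not at hcase
    by_cases hbig : (n : ℝ) ^ 2 / k * (1 - T n p) ≤ Infl p (Al n cube)
    · calc c' * ((n : ℝ) ^ 2 / k) * (T n p * (1 - T n p))
          ≤ 1 * ((n : ℝ) ^ 2 / k) * (1 - T n p) := by
            refine mul_le_mul (mul_le_mul_of_nonneg_right hc'2 (by positivity)) hVq hV
              (by positivity)
        _ = (n : ℝ) ^ 2 / k * (1 - T n p) := by ring
        _ ≤ _ := hbig
    · push Not at hbig
      have hM : k + 2 * (n / 4) ≤ n := by omega
      have h3 := group_sum ha hM hp hp1 (c / 2 * k)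
      have hM8 : (n : ℝ) / 8 ≤ ((n / 4 : ℕ) : ℝ) := by
        have e1 : n ≤ 8 * (n / 4) := by omega
        have e2 : (n : ℝ) ≤ 8 * ((n / 4 : ℕ) : ℝ) := by exact_mod_cast e1
        linarith
      set M : ℝ := ((n / 4 : ℕ) : ℝ) with hMd
      set q : ℝ := 1 - T n p with hq
      set I : ℝ := Infl p (Al n cube) with hId
      have hq0 : 0 ≤ q := by linarith
      -- the sum of the failure probabilities
      have hr : ∑ m ∈ Ico k n, 2 * (1 - T m p) ≤ 2 * K * k * Real.exp (-(c * k)) := by
        have e1 : ∀ m ∈ Ico k n, 2 * (1 - T m p) ≤ 2 * Real.exp (-(c * k)) := by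
          intro m hm
          rw [mem_Ico] at hm
          have e2 := hgood m hm.1 hm.2.le
          have e3 : Real.exp (-(c * m)) ≤ Real.exp (-(c * k)) := by
            rw [Real.exp_le_exp, neg_le_neg_iff]
            have : (k : ℝ) ≤ m := by exact_mod_cast hm.1
            exact mul_le_mul_of_nonneg_left this hc.le
          linarith
        refine (sum_le_sum e1).trans ?_
        rw [sum_const, nsmul_eq_mul, Nat.card_Ico]
        have e2 : ((n - k : ℕ) : ℝ) ≤ K * k := by
          have : n - k ≤ K * k := by omega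
          exact_mod_cast this
        have e3 := Real.exp_pos (-(c * k))
        calc ((n - k : ℕ) : ℝ) * (2 * Real.exp (-(c * k)))
            ≤ (K * k) * (2 * Real.exp (-(c * k))) :=
              mul_le_mul_of_nonneg_right e2 (by positivity)
          _ = _ := by ring
      have hr0 : 0 ≤ ∑ m ∈ Ico k n, 2 * (1 - T m p) := sum_nonneg fun m _ => by
        have := T_le_one (n := m) h0 h1
        linarith
      set r : ℝ := ∑ m ∈ Ico k n, 2 * (1 - T m p) with hrd
      have hqk : q ≤ Real.exp (-(c * k)) := by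
        have e2 := hgood n hkn (le_refl _)
        refine e2.trans ?_
        rw [Real.exp_le_exp, neg_le_neg_iff]
        have : (k : ℝ) ≤ n := by exact_mod_cast hkn
        exact mul_le_mul_of_nonneg_left this hc.le
      have hn2k : (n : ℝ) ^ 2 / k ≤ K ^ 2 * k := by
        rw [div_le_iff₀ hk0]
        have : (n : ℝ) ≤ K * k := by exact_mod_cast hnK
        have e1 : (n : ℝ) ^ 2 ≤ (K * k) ^ 2 := pow_le_pow_left₀ hn0.le this 2
        calc (n : ℝ) ^ 2 ≤ (K * k) ^ 2 := e1
          _ = K ^ 2 * k * k := by ring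
      have hIq : I ≤ K ^ 2 * k * q := hbig.le.trans (mul_le_mul_of_nonneg_right hn2k hq0)
      -- the error term
      have herr : Real.exp (c / 2 * k) * (q ^ 2 + r * I) ≤ q := by
        have e0 := Real.exp_pos (-(c * k))
        have e1 : q ^ 2 + r * I ≤ Real.exp (-(c * k)) * (1 + 2 * (K : ℝ) ^ 3 * (k : ℝ) ^ 2) * q := by
          have e2 : q ^ 2 ≤ Real.exp (-(c * k)) * q := by
            rw [sq]
            exact mul_le_mul_of_nonneg_right hqk hq0
          have e3 : r * I ≤ (2 * K * k * Real.exp (-(c * k))) * (K ^ 2 * k * q) :=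
            mul_le_mul hr hIq hI (by positivity)
          calc q ^ 2 + r * I ≤ Real.exp (-(c * k)) * q +
              (2 * K * k * Real.exp (-(c * k))) * (K ^ 2 * k * q) := add_le_add e2 e3
            _ = _ := by ring
        have e4 : Real.exp (c / 2 * k) * Real.exp (-(c * k)) = Real.exp (-(c / 2 * k)) := by
          rw [← Real.exp_add]
          congr 1
          ring
        calc Real.exp (c / 2 * k) * (q ^ 2 + r * I)
            ≤ Real.exp (c / 2 * k) *
              (Real.exp (-(c * k)) * (1 + 2 * (K : ℝ) ^ 3 * (k : ℝ) ^ 2) * q) :=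
              mul_le_mul_of_nonneg_left e1 (Real.exp_pos _).le
          _ = ((1 + 2 * (K : ℝ) ^ 3 * (k : ℝ) ^ 2) *
              (Real.exp (c / 2 * k) * Real.exp (-(c * k)))) * q := by ring
          _ ≤ 1 * q := by
              rw [e4]
              exact mul_le_mul_of_nonneg_right hk4.le hq0
          _ = q := one_mul q
      have hM0 : 0 ≤ M ^ 2 := by positivity
      have h4 : M ^ 2 * (c / 2 * k * q) ≤ 2 / a * (((k : ℝ) + 1) ^ 2 * I) + M ^ 2 * q := by
        have := mul_le_mul_of_nonneg_left herr hM0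
        linarith
      have h5 : 1 ≤ c / 4 * k := by
        rw [div_le_iff₀ hc] at hk3
        linarith
      have h6 : M ^ 2 * (c / 4 * k * q) ≤ 2 / a * (((k : ℝ) + 1) ^ 2 * I) := by
        have e1 : M ^ 2 * (1 * q) ≤ M ^ 2 * (c / 4 * k * q) :=
          mul_le_mul_of_nonneg_left (mul_le_mul_of_nonneg_right h5 hq0) hM0
        linarith
      have h7 : ((k : ℝ) + 1) ^ 2 ≤ 4 * (k : ℝ) ^ 2 := by
        have e1 : (1 : ℝ) ≤ k := by
          have : 1 ≤ k := by omega
          exact_mod_cast this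
        have e2 : ((k : ℝ) + 1) ^ 2 ≤ (2 * k) ^ 2 :=
          pow_le_pow_left₀ (by linarith) (by linarith) 2
        rwa [mul_pow, show (2 : ℝ) ^ 2 = 4 by norm_num] at e2
      have h8 : ((n : ℝ) / 8) ^ 2 ≤ M ^ 2 := pow_le_pow_left₀ (by positivity) hM8 2
      have h9 : ((n : ℝ) / 8) ^ 2 * (c / 4 * k * q) ≤ 2 / a * (4 * (k : ℝ) ^ 2 * I) := by
        refine (mul_le_mul_of_nonneg_right h8 (by positivity)).trans (h6.trans ?_)
        exact mul_le_mul_of_nonneg_left (mul_le_mul_of_nonneg_right h7 hI) (by positivity)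
      have h10 : a * c / 2048 * ((n : ℝ) ^ 2 / k) * q ≤ I := by
        have e1 : a * c / 2048 * ((n : ℝ) ^ 2 / k) * q =
            (((n : ℝ) / 8) ^ 2 * (c / 4 * k * q)) * (a / (8 * (k : ℝ) ^ 2)) := by
          field_simp
          ring
        have e2 : (2 / a * (4 * (k : ℝ) ^ 2 * I)) * (a / (8 * (k : ℝ) ^ 2)) = I := by
          field_simp
          ring
        rw [e1, ← e2]
        exact mul_le_mul_of_nonneg_right h9 (by positivity)
      calc c' * ((n : ℝ) ^ 2 / k) * (T n p * q)
          ≤ a * c / 2048 * ((n : ℝ) ^ 2 / k) * q := by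
            refine mul_le_mul (mul_le_mul_of_nonneg_right hc'3 (by positivity)) hVq hV
              (by positivity)
        _ ≤ I := h10

/-- a window of good scales of large ratio makes the probability of failure small -/
theorem win3 {p q : ℝ} (hp : 0 < p) (hpq : p < q) (hq : q < 1) : ∃ c : ℝ, 0 < c ∧
    ∀ K : ℕ, ∃ k0 : ℕ, ∀ k n : ℕ, k0 ≤ k → k ≤ n → n ≤ K * k →
      (∀ m, k ≤ m → m ≤ n → 1 / 2 ≤ T m p) →
      1 - T n q ≤ Real.exp (-(c * ((n : ℝ) ^ 2 / k))) := by
  have ha : 0 < min (min p (1 - q)) (1 / 2) :=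
    lt_min (lt_min hp (by linarith)) (by norm_num)
  have ha1 : min (min p (1 - q)) (1 / 2) ≤ p := (min_le_left _ _).trans (min_le_left _ _)
  have ha3 : min (min p (1 - q)) (1 / 2) ≤ 1 - q := (min_le_left _ _).trans (min_le_right _ _)
  obtain ⟨c, hc, hw, -⟩ := win1 ha (min_le_right _ _)
  have hc1 : 0 < c * ((q - p) / 2) := mul_pos hc (by linarith)
  obtain ⟨c', hc', hb⟩ := infl_sharp ha (min_le_right _ _) hc1
  refine ⟨c' * (q - p) / 4, div_pos (mul_pos hc' (by linarith)) (by norm_num), fun K => ?_⟩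
  obtain ⟨k0, hk0⟩ := hb K
  refine ⟨k0, fun k n hk hkn hnK hT => ?_⟩
  have h1 : ∀ r, (p + q) / 2 ≤ r → r ≤ q → c' * ((n : ℝ) ^ 2 / k) *
      (Pr r (Al n cube) * (1 - Pr r (Al n cube))) ≤ Infl r (Al n cube) := by
    intro r hr1 hr2
    refine hk0 n k r (by linarith) (by linarith) hk hkn hnK ?_
    intro m hm1 hm2
    have h3 := hw m p ((p + q) / 2) ha1 (by linarith) (by linarith) (hT m hm1 hm2)
    have h4 : T m ((p + q) / 2) ≤ T m r := T_mono (by linarith) hr1 (by linarith)
    rw [show (p + q) / 2 - p = (q - p) / 2 by ring] at h3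
    linarith
  have h6 := grow (Al_incr n cube) (M := c' * ((n : ℝ) ^ 2 / k)) (a := (p + q) / 2)
    (b := q) (by linarith) (by linarith) hq.le (by positivity) h1 (by
      have h7 : T n p ≤ T n ((p + q) / 2) := T_mono hp.le (by linarith) (by linarith)
      exact (hT n hkn (le_refl n)).trans h7)
  refine h6.trans (le_of_eq ?_)
  congr 2
  ring

end Pool.Agent.helper17.DyS
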